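import Pool.Agent.Helper6.NX.GoalsA

/-! Project NX, goals B: a symmetric measure of small tripling on the symmetric group, nearly
invariant under a mixing law, has entropy at least `c n log n` (CORE). -/

set_option linter.unusedVariables false

namespace Pool.Agent.Helper6.NX

open Matrix Equiv Filter Topology Pool.Agent.Helper15.An
open scoped ComplexOrder

/-- **AVG** (averages over all positions).
Proof. There is a permutation `σ` with `σ ⟨k, hk⟩ = p` and `σ` maps `ini n k` onto `D` (equal cardinalities, `p ∉ D`).  Substitute `π := π * σ` (`Equiv.sum_comp (Equiv.mulRight σ)`): `(π σ) k = π p`, `im (π σ) (ini n k) = im π D`.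
(2) the same without the point. (3) `card (ini n k) = k` for `k ≤ n`. -/
def S_AVG : Prop := ∀ (n k : ℕ),
  (∀ (hk : k < n) (φ : Fin n → Finset (Fin n) → ℝ) (p : Fin n) (D : Finset (Fin n)), p ∉ D →
    D.card = k → ∑ π : Perm (Fin n), φ (π p) (im π D) =
      ∑ π : Perm (Fin n), φ (π ⟨k, hk⟩) (im π (ini n k))) ∧
  (∀ (ψ : Finset (Fin n) → ℝ) (D : Finset (Fin n)), D.card = k →
    ∑ π : Perm (Fin n), ψ (im π D) = ∑ π : Perm (Fin n), ψ (im π (ini n k))) ∧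
  (k ≤ n → (ini n k).card = k)

/-- **VP** (properties of the restricted entropies).  May assume S_L2, S_L3C, S_L4, S_AVG.
Proof. (1) `res (insert p D) h` and `(h p, res D h)` determine each other, so `HD ν (insert p D) = ent (h p, res D h)` (L2 twice).  (2) from (1): conditional entropies are `≥ 0` (L2) and `≤ log n` (L3C with `s = univ`).
(3) L4 with `Y = res D'`, `Z = res D`: `(res D' h, res D h)` and `res D' h` determine each other.  (4) `ini n (k+1) = insert ⟨k,hk⟩ (ini n k)`, so `im π` of it is `insert (π k) (im π (ini n k))`.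
(5) `0 ≤ VV ≤ 1` from (4), (2); antitone: for `k + 1 < n`, `FF ν (π (k+1)) (im π (ini n (k+1))) ≤ FF ν (π (k+1)) (im π (ini n k))` and the average of the right side over `π` is `VV ν k` by AVG (`p = k+1`, `D = ini n k`); for `k + 1 = n` the left side is `0`.
(6) `res ∅` is constant; for `k ≥ n`, `ini n k = univ`, `res univ h` determines `h`. (7) telescoping. -/
def S_VP : Prop := ∀ (n : ℕ) (ν : Perm (Fin n) → ℝ), 2 ≤ n → IsLaw ν →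
  (∀ p D, FF ν p D = cent ν (fun h => h p) (res D) / Real.log n) ∧
  (∀ p D, 0 ≤ FF ν p D ∧ FF ν p D ≤ 1) ∧
  (∀ p D D', D ⊆ D' → FF ν p D' ≤ FF ν p D) ∧
  (∀ k, VV ν k = avF (FF ν) k) ∧
  (∀ k, 0 ≤ VV ν k ∧ VV ν k ≤ 1 ∧ VV ν (k + 1) ≤ VV ν k) ∧
  (AA ν 0 = 0 ∧ ∀ k, n ≤ k → AA ν k = H ν ∧ VV ν k = 0) ∧
  (∀ k, AA ν k = Real.log n * ∑ i ∈ Finset.range k, VV ν i)

/-- **VC** (convolution increases the increments).  May assume S_L2, S_L4, S_L5, S_L7, S_AVG, S_VP.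
Proof. `conv ν ν` is the law of `f h`, `f, h` independent with law `ν`.  `cent (conv ν ν) (· p) (res D) = cent (prd ν ν) (f (h p)) (res D (f h)) ≥ cent (prd ν ν) (f (h p)) (res D (f h), h)` (L4) and, given `h`,
`res D (f h)` and `res (im h D) f` determine each other, so this is `∑_h ν h cent ν (· (h p)) (res (im h D)) = log n ∑_h ν h FF ν (h p) (im h D)` (L7).  Average over `π` (`p = π k`, `D = im π (ini n k)`; substitute `π := h⁻¹ π`): `VV ν k ≤ VV (conv ν ν) k`.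
(2) sum over `k` (VP (7)). -/
def S_VC : Prop := ∀ (n : ℕ) (ν : Perm (Fin n) → ℝ), 2 ≤ n → IsLaw ν →
  (∀ k, VV ν k ≤ VV (conv ν ν) k) ∧ (∀ k, AA ν k ≤ AA (conv ν ν) k) ∧
  (∀ (p : Fin n) (D : Finset (Fin n)), ∑ h, ν h * FF ν (h p) (im h D) ≤ FF (conv ν ν) p D)

/-- **FW** (near invariance of the conditional entropies).  May assume S_L2, S_L5, S_L9, S_VP.
Proof. Let `ν_w g = ν (g w⁻¹)` (the law of `h w`, `h` with law `ν`).  `cent ν_w (· p) (res D) = cent ν (h (w p)) (res D (h w)) = cent ν (· (w p)) (res (im w D))` because `res D (h w)` and `res (im w D) h` determine each other (L5, L2).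
`∑ |ν_w - ν| ≤ θ`, so L9 with `t = θ/2`, `N = n`, `s = univ` in both directions gives `|FF ν (w p) (im w D) - FF ν p D| ≤ (θ/2) + 2 √(θ/2) / log n ≤ θ + 2 √θ` (`1 ≤ log n` as `3 ≤ n`; `Real.exp 1 < 3`).
(2) `law (prd ν ν) (z.1 * w * z.2) = conv ν_w ν` and `∑ |conv ν_w ν - conv ν ν| ≤ θ`; L9 again, with `cent (prd ν ν) (z.1 (w (z.2 p))) (res D (z.1 * w * z.2)) = cent (law …) (· p) (res D)`. -/
def S_FW : Prop := ∀ (n : ℕ) (ν : Perm (Fin n) → ℝ) (w : Perm (Fin n)) (θ : ℝ), 3 ≤ n →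
  IsLaw ν → ∑ g, |ν (g * w⁻¹) - ν g| ≤ θ → ∀ (p : Fin n) (D : Finset (Fin n)),
  |FF ν (w p) (im w D) - FF ν p D| ≤ θ + 2 * √θ ∧
  cent (prd ν ν) (fun z => z.1 (w (z.2 p))) (fun z => res D (z.1 * w * z.2)) ≤
    Real.log n * (FF (conv ν ν) p D + (θ + 2 * √θ))

/-- **S1F** (two channels, one position).  May assume S_L2, S_L3, S_L4, S_L7.
Proof. Space: `(h, f₁, f₂)` independent with law `ν`.  `q = h p`, `C = (res D₁ h, res D₂ h, res (im (w₁ h) D₁) f₁, res (im (w₂ h) D₂) f₂)`, `b_i = f_i (w_i (h p))`.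
(a) `cent ν (· p) (res (D₁ ∪ D₂)) = cent q (res (D₁ ∪ D₂) h, f₁, f₂) ≤ cent q C` (independence; `C` is a function of the former).
(b) `cent q C = cent q (C, b₁, b₂) + ent-difference`: `cent q C = cent (b₁,b₂) C - cent (b₁,b₂) (C,q) + cent q (C,b₁,b₂)` (definition).  (c) `cent (b₁,b₂) C ≤ cent b₁ C + cent b₂ C`, and `C` determines `res D_i (f_i w_i h)` (for `x ∈ D_i` the value `f_i (w_i (h x))` is read off `res D_i h` and `res (im (w_i h) D_i) f_i`), so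
`cent b_i C ≤ cent b_i (res D_i (f_i w_i h))`, which is the first term (`z = (f_i, h)`).  (d) `cent (b₁,b₂) (C,q) ≥ cent (b₁,b₂) (C, h)` and given `h` the two pairs are independent: `= ∑_h ν h (cent ν (· (w₁ (h p))) (res (im (w₁ h) D₁)) + the same with 2)`.
(e) Gibbs (L3) for `cent q (C, b₁, b₂)` with the kernel `Q v = κ₁(v) κ₂(v) / ∑_u κ₁(u) κ₂(u)`, `κ_i(v) = kern ν (im (w_i h) D_i) f_i b_i (w_i v)`, a function of `(C, b₁, b₂)` (it depends on `f_i` only through `res (im (w_i h) D_i) f_i`; `im (w_i h) D_i` is a function of `res D_i h`);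
`κ_i(q) > 0` when `ν f_i > 0`.  `-log Q(q)` is the logarithm in the statement. -/
def S_S1F : Prop := ∀ (n : ℕ) (ν : Perm (Fin n) → ℝ) (p : Fin n) (D₁ D₂ : Finset (Fin n))
  (w₁ w₂ : Perm (Fin n)), IsLaw ν →
  cent ν (fun h => h p) (res (D₁ ∪ D₂)) ≤
    (cent (prd ν ν) (fun z => z.1 (w₁ (z.2 p))) (fun z => res D₁ (z.1 * w₁ * z.2)) -
      ∑ h, ν h * cent ν (fun f => f (w₁ (h p))) (res (im (w₁ * h) D₁))) +
    (cent (prd ν ν) (fun z => z.1 (w₂ (z.2 p))) (fun z => res D₂ (z.1 * w₂ * z.2)) -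
      ∑ h, ν h * cent ν (fun f => f (w₂ (h p))) (res (im (w₂ * h) D₂))) +
    ∑ h, ∑ f₁, ∑ f₂, ν h * ν f₁ * ν f₂ *
      Real.log ((∑ v, kern ν (im (w₁ * h) D₁) f₁ (f₁ (w₁ (h p))) (w₁ v) *
          kern ν (im (w₂ * h) D₂) f₂ (f₂ (w₂ (h p))) (w₂ v)) /
        (kern ν (im (w₁ * h) D₁) f₁ (f₁ (w₁ (h p))) (w₁ (h p)) *
          kern ν (im (w₂ * h) D₂) f₂ (f₂ (w₂ (h p))) (w₂ (h p))))

/-- one- and two-point mixing -/
structure Mix2 {n : ℕ} (ω : Perm (Fin n) → ℝ) : Prop where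
  up1 : ∀ a b : Fin n, ∑ w, (if w a = b then ω w else 0) ≤ 2 / n
  lo1 : ∀ a b : Fin n, 1 / (2 * n) ≤ ∑ w, (if w a = b then ω w else 0)
  up2 : ∀ a a' b b' : Fin n, a ≠ a' → b ≠ b' →
    ∑ w, (if w a = b ∧ w a' = b' then ω w else 0) ≤ 2 / (n * (n - 1))

/-- **JEN** (Jensen).
Proof. `m(w₁,w₂) = ω w₁ ω w₂` if `w₁⁻¹ p₁ = w₂⁻¹ p₂` and `0` otherwise; total mass `m₀ = ∑_q P(w₁ q = p₁) P(w₂ q = p₂)`, so `1/(4n) ≤ m₀ ≤ (2/n) ∑_q P(w₂ q = p₂) = 2/n` (for fixed `w₂` exactly one `q` has `w₂ q = p₂`).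
For `m(w₁,w₂) ≠ 0` let `q = w₁⁻¹ p₁`; the fraction is `1 + ∑_{v ≠ q} k₁ (w₁ v) k₂ (w₂ v) / (k₁ p₁ k₂ p₂)`.  `∑_{w₁,w₂} m ∑_{v ≠ q} k₁(w₁ v) k₂(w₂ v) = ∑_q ∑_{v ≠ q} (∑_{u ≠ p₁} k₁ u P(w₁ q = p₁, w₁ v = u)) (∑_{u ≠ p₂} k₂ u P(w₂ q = p₂, w₂ v = u))
≤ n (n-1) (2/(n(n-1)))² = 4/(n(n-1))`.  Jensen (concavity of `log`; `Real.concaveOn_log`/`log t ≤ log t₀ + (t - t₀)/t₀`): the left side is at most `m₀ log (1 + (4/(n(n-1)))/(m₀ k₁ p₁ k₂ p₂)) ≤ (2/n) log (1 + 16/((n-1) k₁ p₁ k₂ p₂))` and `16/(n-1) ≤ 32/n`. -/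
def S_JEN : Prop := ∀ (n : ℕ) (ω : Perm (Fin n) → ℝ) (k₁ k₂ : Fin n → ℝ) (p₁ p₂ : Fin n),
  2 ≤ n → IsLaw ω → Mix2 ω → (∀ u, 0 ≤ k₁ u) → (∀ u, 0 ≤ k₂ u) → ∑ u, k₁ u ≤ 1 →
  ∑ u, k₂ u ≤ 1 → 0 < k₁ p₁ → 0 < k₂ p₂ →
  ∑ w₁ : Perm (Fin n), ∑ w₂ : Perm (Fin n),
    (if w₁⁻¹ p₁ = w₂⁻¹ p₂ then ω w₁ * ω w₂ else 0) *
      Real.log ((∑ v, k₁ (w₁ v) * k₂ (w₂ v)) / (k₁ p₁ * k₂ p₂)) ≤
    2 / n * Real.log (1 + 32 / (n * (k₁ p₁ * k₂ p₂)))

/-- **S1** (the recursion for the increments, before the numbers).  May assume S_AVG, S_VP, S_FW, S_S1F, S_JEN.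
Proof. If `n ≤ 2k` the left side is `0` and all terms on the right are `≥ 0` (VC).  Put `pos π = (π ⟨k,hk⟩, im π (ini n k))`.  Average S1F over all pairs `(π₁, π₂)` with `π₁ k = π₂ k =: p` (there are `n! (n-1)!`), `D_i = im π_i (ini n k)`, and over `w₁, w₂` with weights `ω w₁ ω w₂`.
Left side: with `θ = π₁⁻¹ π₂` (fixing the point `k`), `D₁ ∪ D₂ = im π₁ (ini n k ∪ im θ (ini n k))`, a set of size `j ≤ 2k` not containing `k`; the average over `π₁` is `log n · VV ν j ≥ log n · VV ν (2k)` (AVG, VP).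
First bracket: it depends only on `π₁, w₁`; by FW (2) the first term averages to at most `log n (VV (conv ν ν) k + θ + 2 √θ)` and the second (substitute `π₁ := (w₁ h)⁻¹ π₁`) to `log n VV ν k`; the same for the second bracket.
Logarithmic term: it depends on `h, π₁, π₂` only through `h π₁, h π₂`; so it is `(n! (n-1)!)⁻¹ ∑_{σ₁ k = σ₂ k} ∑_{w₁,w₂} ω ω ∑_{f₁,f₂} ν f₁ ν f₂ log (∑_v κ₁(w₁ v) κ₂(w₂ v) / (κ₁ (w₁ σ₁ k) κ₂ (w₂ σ₂ k)))`, `κ_i u = kern ν (im (w_i σ_i) (ini n k)) f_i (f_i (w_i σ_i k)) u`.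
Substitute `τ_i = w_i σ_i`: the condition becomes `w₁⁻¹ (τ₁ k) = w₂⁻¹ (τ₂ k)`, and `κ_i` depends only on `τ_i, f_i`: JEN with `k_i = κ_i`, `p_i = τ_i k` (`k_i p_i = kap ν k hk τ_i f_i`, positive if `ν f_i > 0`; `∑_u κ_i u ≤ 1` since each `g` takes the value `b` at only one `u`) bounds it by
`(n! (n-1)!)⁻¹ ∑_{τ₁,τ₂} ∑_{f₁,f₂} ν f₁ ν f₂ (2/n) log (1 + 32/(n kap kap))`, and `n! (n-1)! n = (n!)²`.  Divide by `log n`. -/
def S_S1 : Prop := ∀ (n k : ℕ) (hk : k < n) (ν ω : Perm (Fin n) → ℝ) (θ : ℝ), 3 ≤ n →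
  IsLaw ν → IsLaw ω → (∀ w, 0 < ω w → ∑ g, |ν (g * w⁻¹) - ν g| ≤ θ) → Mix2 ω →
  VV ν (2 * k) ≤ 2 * (VV (conv ν ν) k - VV ν k) + 2 * (θ + 2 * √θ) +
    2 * (((n.factorial : ℝ)⁻¹ ^ 2 * ∑ σ₁ : Perm (Fin n), ∑ σ₂ : Perm (Fin n),
      ∑ f₁, ∑ f₂, ν f₁ * ν f₂ *
        Real.log (1 + 32 / (n * (kap ν k hk σ₁ f₁ * kap ν k hk σ₂ f₂)))) / Real.log n)

/-- **S2A** (the information content).  May assume S_VP.
Proof. (1) If `ν f > 0` the numerator of `kern` contains the term `ν f`.  (2) For fixed `π`, `p = π k`, `D = im π (ini n k)`: `kern ν D f (f p) p = law ν (h p, res D h) (…) / law ν (res D h) (…)`, so `-∑_f ν f log kap = cent ν (· p) (res D) = log n · FF ν p D`; average (VP (4)).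
(3) For fixed `π` and a fixed value of `res D f` the numbers `p_v = kern ν D f v p` (`v : Fin n`) sum to one, and `∑_f ν f φ(kap) = ∑ (classes) P(class) ∑_v p_v φ(p_v)`.  With `φ(t) = max (-log t/log n - 1) 0`: if `n^(-1-ϵ) ≤ p_v ≤ n^(-1)` then `φ ≤ ϵ`, and the
`p_v ≤ n^(-1)` contribute at most `ϵ P(ι ≥ 1) ≤ ϵ E ι` (`ι = -log kap/log n ≥ 0`); if `0 < p_v < n^(-1-ϵ)` then `p_v φ(p_v) ≤ n^(-1-ϵ) ϵ` because `t (-log t / log n - 1)` is increasing for `-log t/log n ≥ 1 + 1/log n` and `ϵ log n ≥ 1`; there are at most `n` such `v`.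
(4) `kap ≤ 1[n^(-s) ≤ kap] + n^(-s)` pointwise. -/
def S_S2A : Prop := ∀ (n k : ℕ) (hk : k < n) (ν : Perm (Fin n) → ℝ), 3 ≤ n → IsLaw ν →
  (∀ π f, 0 < ν f → 0 < kap ν k hk π f ∧ kap ν k hk π f ≤ 1) ∧
  ((n.factorial : ℝ)⁻¹ * ∑ π : Perm (Fin n), ∑ f, ν f * (-Real.log (kap ν k hk π f)) =
    Real.log n * VV ν k) ∧
  (∀ ϵ : ℝ, 0 < ϵ → 1 ≤ ϵ * Real.log n →
    (n.factorial : ℝ)⁻¹ * ∑ π : Perm (Fin n), ∑ f, ν f *
      max (-Real.log (kap ν k hk π f) / Real.log n - 1) 0 ≤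
      ϵ * VV ν k + ϵ * (n : ℝ) ^ (-ϵ)) ∧
  (∀ s : ℝ, 0 ≤ s → (n.factorial : ℝ)⁻¹ * ∑ π : Perm (Fin n), ∑ f, ν f * kap ν k hk π f ≤
    (n.factorial : ℝ)⁻¹ * ∑ π : Perm (Fin n), ∑ f,
      (if (n : ℝ) ^ (-s) ≤ kap ν k hk π f then ν f else 0) + (n : ℝ) ^ (-s))

/-- **S2B** (numbers).
Proof. Pointwise, with `s = ι ω + ι ω'`: `log (1 + 32 exp (L (s-1))) / L ≤ max (s-1) 0 + (log 33/L) 1[s > 1/2] + 32 exp (-L/2)`: for `s ≥ 1`, `1 + 32 e^(L(s-1)) ≤ 33 e^(L(s-1))`; for `1/2 < s < 1`, `≤ log 33`; for `s ≤ 1/2`, `log (1+t) ≤ t` and `1 ≤ L`.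
`max (a+b-1) 0 ≤ min a 1 * min b 1 + max (a-1) 0 + max (b-1) 0` for `a, b ≥ 0` (`(1-a')(1-b') ≥ 0`).  `1[s > 1/2] ≤ 1[ι ω > 1/4] + 1[ι ω' > 1/4] ≤ 4 ι ω + 4 ι ω'`.  Average with the weights `P ω P ω'`; `∑ P min ι 1 ≤ v`. -/
def S_S2B : Prop := ∀ (Ω : Type) [Fintype Ω] (P ι : Ω → ℝ) (L v e : ℝ), IsLaw P →
  (∀ ω, 0 ≤ ι ω) → 1 ≤ L → ∑ ω, P ω * ι ω = v → ∑ ω, P ω * max (ι ω - 1) 0 ≤ e →
  (∑ ω, ∑ ω', P ω * P ω' * Real.log (1 + 32 * Real.exp (L * (ι ω + ι ω' - 1)))) / L ≤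
    v ^ 2 + 2 * e + 8 * v * Real.log 33 / L + 32 * Real.exp (-(L / 2))

/-- **REC** (the recursion).  May assume S_VP, S_VC, S_S1, S_S2A, S_S2B.
Proof. `k ≥ n`: the left side is `0` (VP) and the right side is `≥ 0`.  `k < n`: S1; the double average is `∑_{ω,ω'} P P' log (1 + 32 exp (L (ι + ι' - 1)))` for `Ω = Perm × Perm`, `P (σ,f) = ν f / n!`, `ι (σ,f) = -log (kap ν k hk σ f)/log n` if `ν f > 0` and `0` otherwise, `L = log n`, since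
`32/(n kap kap') = 32 exp (L (ι + ι' - 1))`; S2B with `v = VV ν k` and `e = ϵ VV ν k + ϵ n^(-ϵ)` (S2A); `exp (-L/2) = n^(-1/2)`. -/
def S_REC : Prop := ∀ (n k : ℕ) (ν ω : Perm (Fin n) → ℝ) (θ ϵ : ℝ), 3 ≤ n →
  IsLaw ν → IsLaw ω → 0 ≤ θ → (∀ w, 0 < ω w → ∑ g, |ν (g * w⁻¹) - ν g| ≤ θ) → Mix2 ω →
  0 < ϵ → 1 ≤ ϵ * Real.log n →
  VV ν (2 * k) ≤ 2 * VV ν k ^ 2 + (4 * ϵ + 16 * Real.log 33 / Real.log n) * VV ν k +
    2 * (VV (conv ν ν) k - VV ν k) +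
    (2 * (θ + 2 * √θ) + 4 * ϵ * (n : ℝ) ^ (-ϵ) + 64 * (n : ℝ) ^ (-(1 / 2 : ℝ)))

/-- **TAIL** (the tail is small).  An abstract statement on sequences.
Proof. `V kC ≤ K / kC ≤ 1/C` (antitone, `kC ≥ C K`; if `K = 0` then `V = 0`).  `∑_{k ≥ 2 kC} V k ≤ ∑_{k ≥ kC} (V (2k) + V (2k+1)) ≤ 2 ∑_{k ≥ kC} V (2k)`, sums over `k < n`, and for `k ≥ kC`: `V (2k) ≤ 2 V k / C + a V k + 2 W k + b`.  So the tail is at most
`2 ((2/C + a) K + 2 τ K + n b)`. -/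
def S_TAIL : Prop := ∀ (n kC : ℕ) (V W : ℕ → ℝ) (K C τ a b : ℝ), 0 < C → 0 ≤ a → 0 ≤ b →
  (∀ k, 0 ≤ V k ∧ V k ≤ 1 ∧ V (k + 1) ≤ V k) → (∀ k, n ≤ k → V k = 0) →
  K = ∑ k ∈ Finset.range n, V k → (∀ k, 0 ≤ W k) → ∑ k ∈ Finset.range n, W k ≤ τ * K →
  C * K ≤ kC → 1 ≤ kC →
  (∀ k, V (2 * k) ≤ 2 * V k ^ 2 + a * V k + 2 * W k + b) →
  K - ∑ k ∈ Finset.range (2 * kC), V k ≤ (4 / C + 2 * a + 4 * τ) * K + 2 * n * b

/-- **SEL** (selection of the position).  An abstract statement on sequences.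
Proof. `T k = K - ∑_{i<k} V i`, antitone, `T 0 = K`, `T B ≤ η K`, steps at most `1`.  Let `a` be the least `k` with `T k ≤ 2 η K` (`a ≤ B`) and `b` the least `k` with `T k ≤ η K`, `a ≤ b ≤ B`.  `T a ≥ 2 η K - 1` (minimality and steps `≤ 1`; if `a = 0` then `T 0 = K ≥ 2 η K` as `η ≤ 1/2`).
So `∑_{a ≤ i < b} V i = T a - T b ≥ η K - 1 ≥ (7/8) η K`.  The `i ∈ [a,b)` with `V i < η/(8 C)` form a final segment `[c, b)` and contribute at most `3 C K η/(8C) = (3/8) η K`; hence `∑_{a ≤ i < c} V i ≥ η K/2` and `c - a ≥ η K/2`.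
The number of `i ∈ [a,c)` with `W i > 4 τ/η` is less than `η K/4` (`τ > 0`); the number with `V i - V (i+L) > 4 L/(η K)` is less than `η K/4` since `∑_{a ≤ i < c} (V i - V (i+L)) ≤ ∑_{a ≤ i < a+L} V i ≤ L`.  So some `k ∈ [a, c)` has neither. -/
def S_SEL : Prop := ∀ (n B L : ℕ) (V W : ℕ → ℝ) (K C τ η : ℝ), 0 < C → 0 < η → η ≤ 1 / 2 →
  0 < τ → 1 ≤ L → 8 ≤ η * K →
  (∀ k, 0 ≤ V k ∧ V k ≤ 1 ∧ V (k + 1) ≤ V k) → (∀ k, n ≤ k → V k = 0) →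
  K = ∑ k ∈ Finset.range n, V k → (∀ k, 0 ≤ W k) → ∑ k ∈ Finset.range n, W k ≤ τ * K →
  (∀ k, n ≤ k → W k = 0) →
  K - ∑ k ∈ Finset.range B, V k ≤ η * K → (B : ℝ) ≤ 3 * C * K →
  ∃ k < B, k < n ∧ K - ∑ i ∈ Finset.range k, V i ≤ 2 * η * K ∧ η / (8 * C) ≤ V k ∧
    W k ≤ 4 * τ / η ∧ V k - V (k + L) ≤ 4 * L / (η * K)

/-- **PLAN** (a function with small differences is nearly constant, from Plancherel).
Proof. For `i : Fin F.c` let `Φ̂ = ∑_π Φ(π) • F.ρ i π` (complex matrix).  Plancherel: `∑_π Φ(π)² = |G|⁻¹ ∑_i D_i tr (Φ̂ᴴ Φ̂)`, because `∑_i D_i tr (F.ρ i g) = |G| 1[g = 1]` (`F.col` with `h = 1`), applied to `g = π⁻¹ π'`.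
The function `π ↦ Φ(w π)` has transform `ρ(w)⁻¹ Φ̂`, `π ↦ Φ(π σ)` has `Φ̂ ρ(σ)⁻¹`; so `(1/2) ∑_π ∑_w ω w (Φ(wπ) - Φ π)² = ∑_π Φ π (Φ π - ∑_w ω w Φ(w π)) = |G|⁻¹ ∑_i D_i tr (Φ̂ᴴ (1 - W_i) Φ̂)`, `W_i = wop ρ_i ω`, and the analogous identity
with `tr (Φ̂ (1 - N_i) Φ̂ᴴ)` for `κ`.  Both `1 - W_i` and `1 - N_i` are positive semidefinite (`one_sub_wop`), and for `i` nontrivial on `Alt n` one of them is `≥ 1/2`; for `i` trivial on `Alt n`, `Φ̂ = 0`: `∑ Φ = 0` and `∑ sign Φ = 0` give that the sums of `Φ` over the even and over the odd permutations vanish,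
and `ρ` is constant on the even permutations and on the odd permutations.  So `∑ Φ² ≤ 2 |G|⁻¹ ∑_i D_i (tr (Φ̂ᴴ (1-W_i) Φ̂) + tr (Φ̂ (1-N_i) Φ̂ᴴ))`. -/
def S_PLAN : Prop := ∀ (n : ℕ) (F : PW (Perm (Fin n))) (Φ ω κ : Perm (Fin n) → ℝ), 2 ≤ n →
  IsSP (Set.univ) ω → IsSP (Set.univ) κ →
  (∀ i, ¬ Triv (F.ρ i) (Alt n) →
    ((1 / 2 : ℝ) • (1 : Matrix (Fin (F.D i)) (Fin (F.D i)) ℂ) - wop (F.ρ i) ω).PosSemidef ∨
    ((1 / 2 : ℝ) • (1 : Matrix (Fin (F.D i)) (Fin (F.D i)) ℂ) - wop (F.ρ i) κ).PosSemidef) →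
  ∑ π, Φ π = 0 → ∑ π : Perm (Fin n), ((Perm.sign π : ℤ) : ℝ) * Φ π = 0 →
  ∑ π, Φ π ^ 2 ≤ ∑ π, ∑ w, ω w * (Φ (w * π) - Φ π) ^ 2 + ∑ π, ∑ σ, κ σ * (Φ (π * σ) - Φ π) ^ 2

/-- the law of `α τ α⁻¹`, `α` uniform, `τ` a uniform even permutation of the last `r` points -/
noncomputable def nse (n r : ℕ) : Perm (Fin n) → ℝ :=
  law (prd (unif (Perm (Fin n))) (unif (stab n (n - r)))) (fun z => z.1 * (z.2 : Perm (Fin n)) * z.1⁻¹)

/-- **NSE** (the noise has spectral radius at most one half on the high levels).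
Proof. `m = ⌊√n⌋`, `r = 8 m`.  Schur (`IsIrr.schur` with `M = psum ρ (stab n (n-r))`): `wop ρ (nse n r) = (tr psum / (|stab| D)) • 1`, and `tr psum/|stab|` is the dimension of the space of vectors fixed by `stab n (n-r)` (`psum/|stab|` is the orthogonal projection onto it), i.e. of `altfix` of the last `r` points
(`toV` in CharMat.lean passes from matrices to linear maps).  `altfix_le`: `altfix ρ C ≤ fixS ρ C ⊔ fixS (tw ρ) C`, and `finrank_fixS_le` (Helper17/RelDim.lean) for `ρ` and `tw ρ` with its `r := m`, `lam := m + 1`, `T = C`, `|C| = 8 m > 2 m + 3` gives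
`≤ 2 (1 - (6m-3)/(n-2m-3))^(m+1) D ≤ 2 exp (-(6m-3)(m+1)/n) D ≤ D/2` for large `n` (`(m+1)² > n`, so the exponent tends to at least `6`).  The hypothesis of `finrank_fixS_le` is obtained from `¬ HasFix ρ (stab n m)` as in `finrank_altfix_le` (`altfix_eq_bot`).  Compare the proof of `finrank_altfix_le` and its use in `char_bound_mat`.
IsSP: symmetric since `stab` is closed under inverses. -/
def S_NSE : Prop := ∀ᶠ n : ℕ in atTop, IsSP (Set.univ) (nse n (8 * Nat.sqrt n)) ∧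
  ∀ (D : ℕ) (ρ : Perm (Fin n) →* Matrix (Fin D) (Fin D) ℂ), IsIrr ρ →
  ¬ HasFix ρ (stab n (Nat.sqrt n)) →
  ((1 / 2 : ℝ) • (1 : Matrix (Fin D) (Fin D) ℂ) - wop ρ (nse n (8 * Nat.sqrt n))).PosSemidef

/-- **HOMC** (the noise changes a position only a little).  May assume S_AVG.
Proof. `σ = α τ α⁻¹`, `R = α (last r points)`; `τ` moves only the last `r` points.  Fix `σ` and average over `π`.  (a) If `σ k ≠ k` then `k ∈ R`: probability (over `α`) `r/n`; the difference is at most `1`.  (b) Let `σ k = k`, `D₀ = ini n k`, `D₁ = im σ D₀`, `D = D₀ ∪ D₁`, `|D| ≤ k + |R ∩ D₀|` (the points of `D₁ \ D₀` are images of points of `R ∩ D₀`), `k ∉ D`.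
If `|R ∩ D₀| > L` use `1`: probability at most `E |R ∩ D₀| / L = k r/(n L)` (Markov).  Otherwise `|F(π k, im π D₁) - F(π k, im π D₀)| ≤ (F(π k, im π D₀) - F(π k, im π D)) + (F(π k, im π D₁) - F(π k, im π D))` (antitone) and the average over `π` is `2 (v_k - v_{|D|})` by AVG, `|D| ≤ k + L`, and `v` is antitone (AVG), with
`v_j = 0` for `j ≥ n` (if `k + L ≥ n` the bound `2 v_k` is trivial by `0 ≤ F`). -/
def S_HOMC : Prop := ∀ (n k L r : ℕ) (hk : k < n) (F : Fin n → Finset (Fin n) → ℝ), 1 ≤ L →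
  r ≤ n → (∀ p D, 0 ≤ F p D ∧ F p D ≤ 1) → (∀ p D D', D ⊆ D' → F p D' ≤ F p D) →
  (n.factorial : ℝ)⁻¹ * ∑ π : Perm (Fin n), ∑ σ : Perm (Fin n), nse n r σ *
    |F ((π * σ) ⟨k, hk⟩) (im (π * σ) (ini n k)) - F (π ⟨k, hk⟩) (im π (ini n k))| ≤
    r / n + k * r / (n * L) + 2 * (avF F k - avF F (k + L))

/-- **HOM** (the conditional entropies are nearly the same at all positions).  May assume S_AVG, S_PLAN, S_NSE, S_HOMC.
Proof. `Φ π = F(π k, im π (ini n k)) - avF F k` has sum zero; it is unchanged when `π` is multiplied on the right by the transposition of the points `k+1, k+2` (`k + 3 ≤ n`), so `∑ sign Φ = 0`.  PLAN with `ω`, `κ = nse n (8 √n)`, `F := ` any `PW` (`exists_pw`): for `i` nontrivial on `Alt n` either `HasFix (stab n √n)` (then `hω`) or not (NSE).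
The first sum is at most `n! e²` (im (w π) = im w ∘ im π), the second at most `∑ ∑ κ |Φ(πσ) - Φ π|` (differences are at most `1`), HOMC with `r = 8 √n`: `r/n ≤ 8/√n`. -/
def S_HOM : Prop := ∀ᶠ n : ℕ in atTop, ∀ (k L : ℕ) (hk : k < n) (F : Fin n → Finset (Fin n) → ℝ)
  (ω : Perm (Fin n) → ℝ) (e : ℝ), k + 3 ≤ n → 1 ≤ L → IsSP (Set.univ) ω → 0 ≤ e →
  (∀ (D : ℕ) (ρ : Perm (Fin n) →* Matrix (Fin D) (Fin D) ℂ), IsIrr ρ → ¬ Triv ρ (Alt n) →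
    HasFix ρ (stab n (Nat.sqrt n)) →
    ((1 / 2 : ℝ) • (1 : Matrix (Fin D) (Fin D) ℂ) - wop ρ ω).PosSemidef) →
  (∀ p D, 0 ≤ F p D ∧ F p D ≤ 1) → (∀ p D D', D ⊆ D' → F p D' ≤ F p D) →
  (∀ w, 0 < ω w → ∀ p D, |F (w p) (im w D) - F p D| ≤ e) →
  (n.factorial : ℝ)⁻¹ * ∑ π : Perm (Fin n), (F (π ⟨k, hk⟩) (im π (ini n k)) - avF F k) ^ 2 ≤
    e ^ 2 + 2 * (avF F k - avF F (k + L)) + 8 / √n + 8 * k / (L * √n)

/-- **HEAVY** (heavy values are rare).  May assume S_L2, S_L3, S_L4, S_L7, S_AVG, S_VP.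
Proof. Fix `π`, `p = π k`, `D = im π (ini n k)`.  On `(f, h)` independent with law `ν`: `q = h p`, `C = (res D h, res (im h D) f)`, `b = f (h p)`.  As in S1F: `cent ν (· p) (res D) ≤ cent q C = cent b C - cent b (C,q) + cent q (C,b)`, `cent b C ≤ cent (prd ν ν) (z.1 (z.2 p)) (res D (z.1 * z.2)) = log n FF (conv ν ν) p D`,
`cent b (C,q) ≥ cent b (C,h) = log n ∑_h ν h FF ν (h p) (im h D)`.  Averaging over `π` these two give `log n (VV (conv ν ν) k - VV ν k)`.  Gibbs for `cent q (C,b)` with `Q v = (1/2) 1[v ∈ A]/|A| + (1/2) kern ν (im h D) f b v`, `A = {v : n^(-s) ≤ kern ν D h v p}` (a function of `res D h`, `|A| ≤ n^s`; omit the first summand if `A = ∅`):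
`-log Q(q) ≤ log 2 + s log n` if `q ∈ A` and `≤ log 2 - log kern ν (im h D) f (f q) q` otherwise; and `∑_f ν f (-log kern ν (im h D) f (f (h p)) (h p)) = log n FF ν (h p) (im h D)`.  So after averaging
`VV ν k ≤ (VV (conv ν ν) k - VV ν k) + log 2/log n + a s + (n!)⁻¹ ∑_π ∑_h ν h 1[h p ∉ A] FF ν (h p) (im h D)`, and the last term is `≤ (1-a) VV ν k + σ` (`|FF - VV|` averaged over `π` for fixed `h` is `≤ σ`, substituting `π := h⁻¹ π`; `h p ∈ A` iff `n^(-s) ≤ kap ν k hk π h`). -/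
def S_HEAVY : Prop := ∀ (n k : ℕ) (hk : k < n) (ν : Perm (Fin n) → ℝ) (σ s : ℝ), 3 ≤ n →
  IsLaw ν → 0 ≤ s →
  (n.factorial : ℝ)⁻¹ * ∑ π : Perm (Fin n), |FF ν (π ⟨k, hk⟩) (im π (ini n k)) - VV ν k| ≤ σ →
  ((n.factorial : ℝ)⁻¹ * ∑ π : Perm (Fin n), ∑ f,
    (if (n : ℝ) ^ (-s) ≤ kap ν k hk π f then ν f else 0)) * (VV ν k - s) ≤
    (VV (conv ν ν) k - VV ν k) + σ + Real.log 2 / Real.log n

/-- **COL** (few fixed points).  May assume S_L5, S_L8, S_AVG.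
Proof. `p` is fixed by `h₀⁻¹ h₁` iff `h₀ p = h₁ p`.  For fixed `π` and `D = im π (ini n k)` the `k` points of `D` are always fixed; for `p ∉ D`, `P(h₀ p = h₁ p) = ∑_h ν h kern ν D h (h p) p` (given `h₀ = h` the conditional law of `h₁` is `ν` conditioned on `res D h₁ = res D h`).
`∑_{p ∉ im π (ini n k)} = ∑_{j ≥ k} (p = π j)`, and for each `j ≥ k` the average over `π` is the same as for `j = k` (AVG with `p = j`, `D = ini n k`).  `fixc σ = ∑_p 1[σ p = p]`. -/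
def S_COL : Prop := ∀ (n k : ℕ) (hk : k < n) (ν : Perm (Fin n) → ℝ), IsLaw ν →
  IsLaw (chi ν k) ∧ ∑ σ, chi ν k σ * (fixc σ : ℝ) ≤
    k + n * ((n.factorial : ℝ)⁻¹ * ∑ π : Perm (Fin n), ∑ f, ν f * kap ν k hk π f)

/-- **Z** (conjugates of `h₀⁻¹ h₁` have small entropy).  May assume S_L2, S_L3C, S_L4, S_L5, S_L7, S_L8, S_L9H, S_CV, S_AVG.
Proof. Space: `π` uniform, `(h₀, h₁)` with law `ccp ν (res (im π (ini n k)))` given `π`, and `w, g, E` independent with laws `ω, ν, ν`.  `u_i = h_i w g⁻¹`, `T_i = E u_i`, `Δ = im (g w⁻¹ π) (ini n k)`, `z = u₀⁻¹ u₁ = T₀⁻¹ T₁ = g w⁻¹ h₀⁻¹ h₁ w g⁻¹`, whose law is `cjr ν (cjl ω (chi ν k))`.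
Submodularity (conditionally on `Δ`): `cent z Δ + cent (T₀,T₁,u₀,u₁) Δ ≤ cent (T₀,T₁) Δ + cent (u₀,u₁) Δ`; `(T₀,T₁,u₀,u₁)` and `(E,u₀,u₁)` determine each other and `E` is independent of `(u₀,u₁,Δ)`: `cent z Δ ≤ cent (T₀,T₁) Δ - H ν`.
`T₀` and `T₁` agree on `Δ` (as `h₀ = h₁` on `im π (ini n k)`), so `cent (T₀,T₁) Δ ≤ cent T₀ Δ + cent T₁ (res Δ T₁, Δ) = cent T₀ Δ + cent T₁ Δ - cent (res Δ T₁) Δ`, and `(T₁, Δ)`, `(T₀, Δ)` have the same law (L8); so `cent z Δ ≤ 2 ent T₀ - cent (res Δ T₀) Δ - H ν`.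
`cent (res Δ T₀) Δ ≥ cent (res Δ T₀) (Δ, u₀) = ` (given `u₀, Δ` it is equivalent to `res (im u₀ Δ) E`, `im u₀ Δ = im (h₀ π) (ini n k)`) `E HD ν (im (h₀ π) (ini n k)) = AA ν k` (`h₀` is independent of `π`).
`ent T₀`: the law of `E h₀ w g⁻¹` for fixed `w` is within `θ` (sum of absolute values) of the law of `E h₀ g⁻¹`, which is `conv (conv ν ν) ν` (`ν` symmetric); average over `w` and L9H with `t = θ/2`: `ent T₀ ≤ H (conv (conv ν ν) ν) + (θ/2) log n! + 2 √θ`.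
Finally `H z ≤ cent z Δ + ent Δ ≤ cent z Δ + log (n.choose k)` (L3C; `Δ` is a set of `k` points).  `AA ν k ≤ H ν` is not needed: `2 H₃ - AA - H ν = 2 (H₃ - H ν) + (H ν - AA)`. -/
def S_Z : Prop := ∀ (n k : ℕ) (ν ω : Perm (Fin n) → ℝ) (θ : ℝ), 1 ≤ n → k ≤ n → IsLaw ν →
  IsLaw ω → (∀ g, ν g⁻¹ = ν g) → (∀ w, 0 < ω w → ∑ g, |ν (g * w⁻¹) - ν g| ≤ θ) →
  H (cjr ν (cjl ω (chi ν k))) ≤ Real.log (n.choose k) +
    2 * (H (conv (conv ν ν) ν) - H ν) + (H ν - AA ν k) +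
    θ * Real.log n.factorial + 4 * √θ

end Pool.Agent.Helper6.NX
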