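import Mathlib

/-! Project NX: two limits. -/

namespace Pool.Agent.Helper6.NX

open Filter Topology

theorem tendsto_rpow_nat {a : ℝ} (ha : 0 < a) :
    Tendsto (fun n : ℕ => (n : ℝ) ^ a) atTop atTop :=
  (tendsto_rpow_atTop ha).comp tendsto_natCast_atTop_atTop

/-- `n ^ a * log n` is eventually at most `c * n ^ b` for `a < b` -/
theorem ev_pow_log {a b c : ℝ} (hab : a < b) (hc : 0 < c) : ∀ᶠ n : ℕ in atTop,
    (n : ℝ) ^ a * Real.log n ≤ c * (n : ℝ) ^ b := by
  have h1 : Tendsto (fun x : ℝ => Real.log x / x ^ (b - a)) atTop (𝓝 0) :=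
    (isLittleO_log_rpow_atTop (by linarith)).tendsto_div_nhds_zero
  have h2 : ∀ᶠ x : ℝ in atTop, Real.log x / x ^ (b - a) < c := h1.eventually_lt_const hc
  filter_upwards [tendsto_natCast_atTop_atTop.eventually h2, eventually_ge_atTop 1] with n hn h1n
  have hn0 : (0 : ℝ) < n := by exact_mod_cast h1n
  rw [div_lt_iff₀ (Real.rpow_pos_of_pos hn0 _)] at hn
  calc (n : ℝ) ^ a * Real.log n ≤ (n : ℝ) ^ a * (c * (n : ℝ) ^ (b - a)) := by gcongr
    _ = c * ((n : ℝ) ^ a * (n : ℝ) ^ (b - a)) := by ring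
    _ = c * (n : ℝ) ^ b := by rw [← Real.rpow_add hn0]; congr 2; ring

end Pool.Agent.Helper6.NX
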