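import Pool.Agent.Helper6.NX.GoalsB2
import Pool.Agent.Helper6.NX.Ev

/-! Project NX: assembly of CORE from its parts. -/

set_option linter.unusedVariables false

namespace Pool.Agent.Helper6.NX

open Matrix Equiv Filter Topology Pool.Agent.Helper15.An
open scoped ComplexOrder

theorem isLaw_cjl (hl5 : S_L5) (hl7 : S_L7) {n : ℕ} {ω χ : Perm (Fin n) → ℝ} (hω : IsLaw ω)
    (hχ : IsLaw χ) : IsLaw (cjl ω χ) := by
  have h1 : IsLaw (prd ω χ) :=
    ((hl7 (Perm (Fin n)) (Perm (Fin n)) Unit Unit Unit ω (fun _ => χ) (fun _ _ => ())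
      (fun _ _ => ()) (fun _ => ()) hω (fun _ => hχ)).2.2.2.2 χ (fun _ => ()) hχ).1
  exact (hl5 (Perm (Fin n) × Perm (Fin n)) (Perm (Fin n)) Unit (prd ω χ)
    (fun z => z.1⁻¹ * z.2 * z.1) (fun _ => ()) h1).1

theorem core (hl5 : S_L5) (hl7 : S_L7) (hcol : S_COL) (hsmo : S_SMO) (hfin : S_FIN)
    (hA : S_COREA) (hB : S_COREB) (hC : S_COREC) : S_CORE := by
  refine ⟨1 / 10 ^ 17, 1 / 10 ^ 12, 1 / 50000, by norm_num, by norm_num, by norm_num, ?_⟩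
  intro δ hδ hδ1
  set τ : ℝ := 1 / 10 ^ 17 with hτ
  set c₀ : ℝ := 1 / 10 ^ 12 with hc₀
  set lam : ℝ := (1 / 10 ^ 17) ^ 2 with hlam
  have hlam0 : 0 < lam := by rw [hlam]; positivity
  have hsl : √lam = 1 / 10 ^ 17 := by rw [hlam]; exact Real.sqrt_sq (by norm_num)
  have hd1 : 0 < 1 / 2 - δ := by linarith
  have hd2 : 0 < 1 - 2 * δ := by linarith
  filter_upwards [hA δ lam τ c₀ hδ hδ1 hlam0 (by rw [hlam]; norm_num) (by rw [hτ]; norm_num)
      (by rw [hτ]; norm_num) (by rw [hc₀]; norm_num),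
    hB δ lam τ c₀ hδ hδ1 hlam0 (by rw [hlam]; norm_num) (by rw [hτ]; norm_num)
      (by rw [hc₀]; norm_num) (by rw [hc₀]; norm_num),
    hC δ τ c₀ hδ hδ1 (by rw [hτ]; norm_num) (by rw [hτ]; norm_num)
      (by rw [hc₀]; norm_num) (by rw [hc₀]; norm_num),
    eventually_ge_atTop 3, (tendsto_rpow_nat hd1).eventually_ge_atTop (170000 : ℝ),
    (tendsto_rpow_nat hd2).eventually_ge_atTop (1156 : ℝ)]
    with n a1 a2 a3 hn3 a5 a6
  intro ν ω hyp
  obtain ⟨B, L, k, hL, hB1, hB2, hkB, hkn, hk1, hV, hW, hVL, hLL⟩ := a1 ν ω hyp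
  have hn0 : (0 : ℝ) < n := by
    have : 0 < n := by omega
    exact_mod_cast this
  have hn1 : (1 : ℝ) ≤ n := by
    have : 1 ≤ n := by omega
    exact_mod_cast this
  have hlog : 0 < Real.log n := Real.log_pos (by
    have : (3 : ℝ) ≤ n := by exact_mod_cast hn3
    linarith)
  set K : ℝ := H ν / Real.log n with hK
  have hHK : H ν = K * Real.log n := by rw [hK]; field_simp
  have hKlo : (n : ℝ) ^ (1 - δ) ≤ K := by
    rw [hK, le_div_iff₀ hlog]; exact hyp.lo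
  have hKpos : 0 < K := lt_of_lt_of_le (Real.rpow_pos_of_pos hn0 _) hKlo
  have hKhi : K ≤ c₀ * n := by
    rw [hK, div_le_iff₀ hlog]; exact hyp.hi
  have hHpos : 0 < H ν := by rw [hHK]; positivity
  have hnd : (1 : ℝ) ≤ (n : ℝ) ^ δ := Real.one_le_rpow hn1 hδ.le
  have hnK : (n : ℝ) / K ≤ (n : ℝ) ^ δ := by
    rw [div_le_iff₀ hKpos]
    calc (n : ℝ) = (n : ℝ) ^ δ * (n : ℝ) ^ (1 - δ) := by
          rw [← Real.rpow_add hn0]; simp
      _ ≤ (n : ℝ) ^ δ * K := by gcongr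
  have hk1200 : (k : ℝ) ≤ 1200 * K := by
    have : (k : ℝ) ≤ B := by exact_mod_cast hkB.le
    linarith
  have hfix := a2 ν ω L k hyp hL hk1200 hkn hV hW hVL hLL
  have hent := a3 ν ω k hyp hk1200 hkn hk1
  -- the number of points in small orbits
  set J : ℕ := ⌈16 * (n : ℝ) / K⌉₊ with hJ
  have hJlo : 16 * (n : ℝ) / K ≤ J := Nat.le_ceil _
  have hJhi : (J : ℝ) ≤ 17 * (n : ℝ) ^ δ := by
    have h1 : (J : ℝ) < 16 * (n : ℝ) / K + 1 := Nat.ceil_lt_add_one (by positivity)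
    have h2 : 16 * (n : ℝ) / K = 16 * ((n : ℝ) / K) := by ring
    rw [h2] at h1
    linarith
  have hJpos : 1 ≤ J := by
    rw [hJ]
    exact Nat.one_le_iff_ne_zero.2 (Nat.ceil_pos.2 (by positivity)).ne'
  have hJ4 : 4 * J ^ 2 ≤ n := by
    have h1 : (4 * (J : ℝ) ^ 2) ≤ n := by
      have h2 : (J : ℝ) ^ 2 ≤ (17 * (n : ℝ) ^ δ) ^ 2 := by gcongr
      have h3 : (17 * (n : ℝ) ^ δ) ^ 2 = 289 * (n : ℝ) ^ (2 * δ) := by
        have h5 : (n : ℝ) ^ (2 * δ) = (n : ℝ) ^ δ * (n : ℝ) ^ δ := by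
          rw [← Real.rpow_add hn0]; congr 1; ring
        rw [h5]; ring
      have h4 : 1156 * (n : ℝ) ^ (2 * δ) ≤ n := by
        calc 1156 * (n : ℝ) ^ (2 * δ) ≤ (n : ℝ) ^ (1 - 2 * δ) * (n : ℝ) ^ (2 * δ) := by gcongr
          _ = n := by rw [← Real.rpow_add hn0]; simp
      linarith
    exact_mod_cast h1
  have hJs : (J : ℝ) / √(n : ℝ) ≤ 1 / 10000 := by
    rw [div_le_iff₀ (Real.sqrt_pos.2 hn0)]
    have h1 : 170000 * (n : ℝ) ^ δ ≤ √(n : ℝ) := by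
      calc 170000 * (n : ℝ) ^ δ ≤ (n : ℝ) ^ (1 / 2 - δ) * (n : ℝ) ^ δ := by gcongr
        _ = √(n : ℝ) := by
          rw [← Real.rpow_add hn0, Real.sqrt_eq_rpow]; congr 1; ring
    linarith
  have hJ20 : ∀ r ≤ J, ∀ a b : Fin r ↪ Fin n, prT ω a b ≤ 2 / (n.descFactorial r : ℝ) := by
    intro r hr a b
    refine hyp.mix r ?_ a b
    have : (r : ℝ) ≤ J := by exact_mod_cast hr
    linarith
  have hωlaw : IsLaw ω := ⟨hyp.hω.nonneg, hyp.hω.sum⟩
  have hchi : IsLaw (chi ν k) := (hcol n k hkn ν hyp.hν).1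
  set e : ℝ := 1300 * c₀ + 320000 * (200 * τ + 32 * √lam) with he
  have hsmo1 := hsmo n J (chi ν k) ω (1 / 5000) e hωlaw hchi (by norm_num) hJ4 (by omega)
    (by linarith) hfix hJ20
  set κ : ℝ := 3 * e / (1 / 5000) + 512 * (1 / 5000 + (J : ℝ) / √(n : ℝ)) ^ 2 with hκ
  have hκ1 : κ ≤ 1 / 10000 := by
    have h1 : (1 / 5000 + (J : ℝ) / √(n : ℝ)) ^ 2 ≤ (1 / 5000 + 1 / 10000) ^ 2 := by
      have : 0 ≤ (J : ℝ) / √(n : ℝ) := by positivity
      gcongr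
    rw [hκ, he, hsl, hτ, hc₀]
    norm_num at h1 ⊢
    linarith
  have hBn : B ≤ n := by
    have h1 : (B : ℝ) ≤ n := by
      have h2 : 1200 * K ≤ n := by
        have h3 : 1200 * K ≤ 1200 * (c₀ * n) := by linarith
        have h4 : 1200 * (c₀ * n) ≤ n := by rw [hc₀]; nlinarith
        linarith
      linarith
    exact_mod_cast h1
  have hfin1 := hfin n J B ν (cjl ω (chi ν k)) (1 / 10) κ (by omega) hJpos hBn hyp.hν
    (isLaw_cjl hl5 hl7 hωlaw hchi) hent hsmo1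
  have hnJ : (n : ℝ) / J ≤ K / 16 := by
    have hJr : (0 : ℝ) < J := by exact_mod_cast hJpos
    rw [div_le_iff₀ hJr]
    have h1 := (div_le_iff₀ hKpos).1 hJlo
    nlinarith
  have hBκ : (B : ℝ) * κ ≤ 12 / 100 * K := by
    have h0 : (0 : ℝ) ≤ B := Nat.cast_nonneg _
    calc (B : ℝ) * κ ≤ B * (1 / 10000) := by gcongr
      _ ≤ 1200 * K * (1 / 10000) := by gcongr
      _ = 12 / 100 * K := by ring
  have h7 : ((n : ℝ) / J + B * κ) * Real.log n ≤ (K / 16 + 12 / 100 * K) * Real.log n := by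
    gcongr
  have h8 : (K / 16 + 12 / 100 * K) * Real.log n = (1 / 16 + 12 / 100) * H ν := by
    rw [hHK]; ring
  linarith

end Pool.Agent.Helper6.NX
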