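import Pool.Agent.Helper6.NX.GoalsC
import Pool.Agent.Helper6.NX.Core
import Pool.Agent.Helper6.NX.Ev

/-! Project NX: part B (nearly invariant laws have large entropy) from its parts. -/

set_option linter.unusedVariables false

namespace Pool.Agent.Helper6.NX

open Matrix Equiv Filter Topology Pool.Agent.Helper15.An
open scoped ComplexOrder
open Pool.Agent.Helper3.AK (lazyLaw)

theorem NI.mono {G : Type} [Group G] [Fintype G] {k : ℕ} {x : Fin k → G} {μ : G → ℝ} {a b : ℝ}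
    (h : NI x μ a) (hab : a ≤ b) : NI x μ b := fun i => (h i).trans hab

theorem partB (hM0 : S_M0) (hM0S : S_M0S) (hWIN : S_WIN) (hM1A : S_M1A) (hM1B : S_M1B)
    (hCORE : S_CORE) (hWW : S_WW) : S_B := by
  obtain ⟨τ, c, δ₀, hτ, hc, hδ₀, hcore⟩ := hCORE
  have h25 : 0 < τ / 25 := by positivity
  refine ⟨min (τ / 25) (1 / 20), min (c / 2) 1, min (20 * δ₀) 1, lt_min h25 (by norm_num),
    min_le_right _ _, lt_min (by positivity) one_pos, min_le_right _ _,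
    lt_min (by positivity) one_pos, min_le_right _ _, ?_⟩
  set τ₁ : ℝ := min (τ / 25) (1 / 20) with hτ₁
  set c₀ : ℝ := min (c / 2) 1 with hc₀
  have ht0 : 0 < τ₁ := lt_min h25 (by norm_num)
  have ht1 : τ₁ ≤ 1 / 20 := min_le_right _ _
  have ht2 : 25 * τ₁ ≤ τ := by
    have := min_le_left (τ / 25) (1 / 20 : ℝ)
    rw [← hτ₁] at this
    linarith
  have hc0 : 0 < c₀ := lt_min (by positivity) one_pos
  have hc1 : c₀ ≤ 1 := min_le_right _ _
  have hc2 : 2 * c₀ ≤ c := by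
    have := min_le_left (c / 2) (1 : ℝ)
    rw [← hc₀] at this
    linarith
  intro k γ α ε hk hγ hγ₀ hε hε1 hα1 hα2 hαγ hα3
  have hγ1 : γ ≤ 1 := hγ₀.trans (min_le_right _ _)
  set δ : ℝ := γ / 20 with hδ
  have hδ0 : 0 < δ := by positivity
  have hδ1 : δ ≤ δ₀ := by
    have : γ ≤ 20 * δ₀ := hγ₀.trans (min_le_left _ _)
    rw [hδ]; linarith
  have hk0 : (1 : ℝ) ≤ k := by exact_mod_cast hk
  set M : ℝ := 2 * k / τ₁ with hM
  have hM40 : 40 ≤ M := by
    rw [hM, le_div_iff₀ ht0]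
    nlinarith
  have hM1 : 1 < M := by linarith
  have hlM : 0 < Real.log M := Real.log_pos hM1
  set β : ℝ := τ₁ * γ / (2 * Real.log M) with hβ
  have hβ1 : 1 - α < β := by
    rw [hβ, lt_div_iff₀ (by positivity)]
    nlinarith
  have e1 := ev_pow_log (a := 1 - β) (b := α) (c := 1 / 16) (by linarith) (by norm_num)
  have e2 := ev_pow_log (a := 1 - δ) (b := α) (c := 1 / 8) (by rw [hδ]; linarith) (by norm_num)
  have hg2 : 0 < γ / 2 := by positivity
  filter_upwards [hcore δ hδ0 hδ1, hWW k α ε δ hk hα1 hα2 hε hε1 hδ0 (by rw [hδ]; linarith),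
    e1, e2, (tendsto_rpow_nat hg2).eventually_ge_atTop (1 / ε),
    (tendsto_rpow_nat (show 0 < α by linarith)).eventually_ge_atTop (15 : ℝ),
    (tendsto_rpow_nat (show 0 < 5 * δ by positivity)).eventually_ge_atTop (2 : ℝ),
    eventually_ge_atTop 3]
    with n a1 a2 a3 a4 a5 a6 a7 hn3
  intro x hgap hsm μ₀ hμ₀ hni₀
  by_contra hlt
  push Not at hlt
  obtain ⟨b1, b2, b3, b4, b5⟩ := a2 x hgap
  have hn3' : (3 : ℝ) ≤ n := by exact_mod_cast hn3
  have hn0 : (0 : ℝ) < n := by linarith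
  have hn1 : (1 : ℝ) ≤ n := by linarith
  have hlog : 0 < Real.log n := Real.log_pos (by linarith)
  set e₀ : ℝ := (n : ℝ) ^ (-(γ / 2)) with he₀
  have he0 : 0 < e₀ := Real.rpow_pos_of_pos hn0 _
  have heε : e₀ ≤ ε := by
    rw [he₀, Real.rpow_neg hn0.le]
    rw [inv_le_comm₀ (by positivity) hε]
    simpa using a5
  have hlog100 : Real.log 100 ≤ 5 := by
    have h1 : Real.log 100 = 2 * Real.log 10 := by
      rw [show (100 : ℝ) = 10 ^ 2 by norm_num, Real.log_pow]; norm_num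
    have h2 : Real.log 10 ≤ 5 / 2 := by
      rw [Real.log_le_iff_le_exp (by norm_num)]
      have h3 : (2.7 : ℝ) < Real.exp 1 := lt_trans (by norm_num) Real.exp_one_gt_d9
      have h4 : Real.exp (5 / 2) = Real.exp 1 ^ 2 * Real.exp (1 / 2) := by
        rw [← Real.exp_nat_mul, ← Real.exp_add]; norm_num
      have h5 : (3 / 2 : ℝ) ≤ Real.exp (1 / 2) := by
        have := Real.add_one_le_exp (1 / 2 : ℝ)
        linarith
      rw [h4]
      nlinarith
    rw [h1]; linarith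
  have hA : (100 : ℝ) ≤ Real.exp ((n : ℝ) ^ α) := by
    rw [← Real.log_le_iff_le_exp (by norm_num)]
    linarith
  -- entropy of the `e₀`-invariant laws
  have hHm : ∀ μ : Perm (Fin n) → ℝ, IsLaw μ → NI (cX x) μ e₀ → (n : ℝ) ^ α / 4 ≤ H μ := by
    intro μ hμ hni
    have h1 := hM0 (Perm (Fin n)) k (cX x) (Real.exp ((n : ℝ) ^ α)) ε μ hk hA hε
      (hM0S n k x _ ε (by omega) hk hsm) hμ (hni.mono heε)
    rw [Real.log_exp] at h1
    linarith
  set I : ℕ := ⌊γ / 2 * Real.log n / Real.log M⌋₊ with hI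
  have hIle : (I : ℝ) ≤ γ / 2 * Real.log n / Real.log M := Nat.floor_le (by positivity)
  have hIlt : γ / 2 * Real.log n / Real.log M < I + 1 := Nat.lt_floor_add_one _
  have hMI : (n : ℝ) ^ (-γ) ≤ e₀ / M ^ I := by
    rw [le_div_iff₀ (by positivity)]
    have h1 : M ^ I ≤ (n : ℝ) ^ (γ / 2) := by
      rw [← Real.rpow_natCast, Real.rpow_def_of_pos (by linarith), Real.rpow_def_of_pos hn0]
      apply Real.exp_le_exp.2
      rw [le_div_iff₀ hlM] at hIle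
      nlinarith
    calc (n : ℝ) ^ (-γ) * M ^ I ≤ (n : ℝ) ^ (-γ) * (n : ℝ) ^ (γ / 2) := by gcongr
      _ = e₀ := by rw [← Real.rpow_add hn0, he₀]; congr 1; ring
  have hdec : (1 - τ₁) ^ I * (c₀ * n * Real.log n) < (n : ℝ) ^ α / 4 := by
    have h1 : (1 - τ₁) ^ I ≤ Real.exp (-(τ₁ * I)) := by
      have h2 : 1 - τ₁ ≤ Real.exp (-τ₁) := by
        have := Real.add_one_le_exp (-τ₁)
        linarith
      calc (1 - τ₁) ^ I ≤ Real.exp (-τ₁) ^ I := pow_le_pow_left₀ (by linarith) h2 I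
        _ = Real.exp (-(τ₁ * I)) := by rw [← Real.exp_nat_mul]; congr 1; ring
    have h3 : Real.exp (-(τ₁ * I)) ≤ 2 * (n : ℝ) ^ (-β) := by
      have h4 : -(τ₁ * I) ≤ τ₁ + Real.log n * (-β) := by
        have h5 : τ₁ * (γ / 2 * Real.log n / Real.log M) = Real.log n * β := by
          rw [hβ]; field_simp
        nlinarith
      calc Real.exp (-(τ₁ * I)) ≤ Real.exp (τ₁ + Real.log n * (-β)) := Real.exp_le_exp.2 h4
        _ = Real.exp τ₁ * (n : ℝ) ^ (-β) := by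
            rw [Real.exp_add, Real.rpow_def_of_pos hn0]
        _ ≤ 2 * (n : ℝ) ^ (-β) := by
            have h6 : Real.exp τ₁ ≤ 2 := by
              have h7 : Real.exp τ₁ ≤ Real.exp (1 / 2) := Real.exp_le_exp.2 (by linarith)
              have h8 : Real.exp (1 / 2) ≤ 2 := by
                have h9 : Real.exp (1 / 2) ^ 2 = Real.exp 1 := by
                  rw [← Real.exp_nat_mul]; norm_num
                have h10 : Real.exp 1 < 2.8 := lt_trans Real.exp_one_lt_d9 (by norm_num)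
                nlinarith [Real.exp_pos (1 / 2 : ℝ)]
              linarith
            gcongr
    have h5 : (n : ℝ) ^ (-β) * n = (n : ℝ) ^ (1 - β) := by
      nth_rewrite 2 [← Real.rpow_one (n : ℝ)]
      rw [← Real.rpow_add hn0]; congr 1; ring
    have h6 : 0 < (n : ℝ) ^ α := Real.rpow_pos_of_pos hn0 _
    calc (1 - τ₁) ^ I * (c₀ * n * Real.log n) ≤ 2 * (n : ℝ) ^ (-β) * (1 * n * Real.log n) := by
          have h9 := h1.trans h3
          gcongr
      _ = 2 * ((n : ℝ) ^ (1 - β) * Real.log n) := by rw [← h5]; ring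
      _ ≤ 2 * (1 / 16 * (n : ℝ) ^ α) := by gcongr
      _ < (n : ℝ) ^ α / 4 := by linarith
  obtain ⟨μ, ε', hμ, hε', hMε, hniμ, hHμ, hwin⟩ := hWIN (Perm (Fin n)) k I (cX x) M τ₁ e₀
    (c₀ * n * Real.log n) ((n : ℝ) ^ α / 4) hM1.le ht0 (by linarith) he0
    ⟨μ₀, hμ₀, hni₀.mono hMI, hlt.le⟩ hdec hHm
  obtain ⟨hν, hsym, hniν, hHc⟩ := hM1A (Perm (Fin n)) k (cX x) τ₁ ε' μ hk ht0 ht1 hε' hμ hniμ hwin
  obtain ⟨hup, htri⟩ := hM1B (Perm (Fin n)) μ _ hμ rfl
  set ν := hlaw μ with hνdef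
  set Hc := cent (prd μ μ) (fun a => a.1) (fun a => a.2 * a.1⁻¹) with hHcdef
  have h2M : 2 * ε' ≤ M * ε' := by nlinarith
  have hlow : (1 - τ₁) * H μ ≤ H ν := hwin ν hν (hniν.mono h2M)
  have hμlow : (n : ℝ) ^ α / 4 ≤ H μ := hHm μ hμ (hniμ.mono (by nlinarith))
  have hHμ0 : 0 ≤ H μ := le_trans (by positivity) hμlow
  refine a1 ν (lazyLaw x ⌈(n : ℝ) ^ (2 * δ)⌉₊) ⟨hν, hsym, ?_, ?_, ?_, b1, ?_, b2, b3, b4⟩
  · -- lo
    have h1 : (1 / 2 : ℝ) * H μ ≤ (1 - τ₁) * H μ := by gcongr; linarith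
    linarith
  · -- hi
    have h1 : H ν ≤ 2 * H μ := by
      have : Hc ≥ (1 - 2 * τ₁) * H μ := hHc
      nlinarith
    have h2 : 2 * H μ ≤ 2 * (c₀ * n * Real.log n) := by linarith
    have h3 : 2 * (c₀ * n * Real.log n) = 2 * c₀ * n * Real.log n := by ring
    have h4 : 2 * c₀ * n * Real.log n ≤ c * n * Real.log n := by gcongr
    linarith
  · -- tri
    have h1 : H (conv (conv ν ν) ν) ≤ (1 + 10 * τ₁) * H μ := by nlinarith
    have h2 : (1 + 10 * τ₁) * H μ ≤ (1 + 25 * τ₁) * ((1 - τ₁) * H μ) := by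
      have h3 : (1 + 10 * τ₁) ≤ (1 + 25 * τ₁) * (1 - τ₁) := by nlinarith
      nlinarith
    have h4 : (1 + 25 * τ₁) * ((1 - τ₁) * H μ) ≤ (1 + 25 * τ₁) * H ν := by gcongr
    have h5 : 0 ≤ H ν := le_trans (by
      have : 0 ≤ 1 - τ₁ := by linarith
      positivity) hlow
    have h6 : (1 + 25 * τ₁) * H ν ≤ (1 + τ) * H ν := by gcongr
    linarith
  · -- near
    intro w hw
    have h1 := b5 ν (2 * ε') hniν w hw
    have h2 : (⌈(n : ℝ) ^ (2 * δ)⌉₊ : ℝ) ≤ 2 * (n : ℝ) ^ (2 * δ) := by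
      have h3 : (⌈(n : ℝ) ^ (2 * δ)⌉₊ : ℝ) < (n : ℝ) ^ (2 * δ) + 1 :=
        Nat.ceil_lt_add_one (by positivity)
      have h4 : (1 : ℝ) ≤ (n : ℝ) ^ (2 * δ) := Real.one_le_rpow hn1 (by positivity)
      linarith
    have h5 : 2 * ε' ≤ e₀ := h2M.trans hMε
    have h6 : (⌈(n : ℝ) ^ (2 * δ)⌉₊ : ℝ) * (2 * ε') ≤ 2 * (n : ℝ) ^ (2 * δ) * e₀ := by
      gcongr
    have h7 : 2 * (n : ℝ) ^ (2 * δ) * e₀ ≤ (n : ℝ) ^ (-(3 * δ)) := by
      calc 2 * (n : ℝ) ^ (2 * δ) * e₀ ≤ (n : ℝ) ^ (5 * δ) * (n : ℝ) ^ (2 * δ) * e₀ := by gcongr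
        _ = (n : ℝ) ^ (-(3 * δ)) := by
          rw [he₀, ← Real.rpow_add hn0, ← Real.rpow_add hn0]
          congr 1
          rw [hδ]; ring
    linarith

end Pool.Agent.Helper6.NX
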