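import Pool.Agent.Helper15.An.Fam

/-! Project NX: a fixed family of irreducible representations. -/

namespace Pool.Agent.Helper6.NX

open Matrix Equiv Filter Topology Pool.Agent.Helper15.An
open scoped ComplexOrder

/-- a fixed family of irreducible representations -/
noncomputable def pwn (n : ℕ) : PW (Perm (Fin n)) := Classical.choice (exists_pw _)

end Pool.Agent.Helper6.NX
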