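import Pool.Agent.Helper6.NX.GoalsE
import Pool.Agent.Helper6.NX.PartB
import Pool.Agent.Helper6.GP.LZW
import Pool.Agent.Helper56.GP.TGR
import Pool.Agent.Helper6.NX.Pwn
import Pool.Agent.Helper6.GP.SmallMain

/-! Project NX: assembly of the main theorem. -/

set_option linter.unusedVariables false
set_option linter.unusedSectionVars false

namespace Pool.Agent.Helper6.NX

open Matrix Equiv Filter Topology Pool.Agent.Helper15.An
open scoped ComplexOrder
open Pool.Agent.Helper3.AK (lazyLaw)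

section count
variable {A : Type} [Fintype A] [Nonempty A]

open Classical in
/-- counting by blocks of coordinates -/
theorem card_blocks (a b m : ℕ) (P : (Fin a → A) → Prop) (Q : (Fin a → A) → (Fin b → A) → Prop) :
    (Nat.card {x : Fin (a + b + m) → A // P (fun i => x (Fin.castAdd m (Fin.castAdd b i))) ∧
      Q (fun i => x (Fin.castAdd m (Fin.castAdd b i)))
        (fun i => x (Fin.castAdd m (Fin.natAdd a i)))} : ℝ) =
    (∑ z : Fin a → A, if P z then (Nat.card {y : Fin b → A // Q z y} : ℝ) else 0) *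
      (Fintype.card A : ℝ) ^ m := by
  have e1 : {x : Fin (a + b + m) → A // P (fun i => x (Fin.castAdd m (Fin.castAdd b i))) ∧
      Q (fun i => x (Fin.castAdd m (Fin.castAdd b i)))
        (fun i => x (Fin.castAdd m (Fin.natAdd a i)))} ≃
      {u : ((Fin a → A) × (Fin b → A)) // P u.1 ∧ Q u.1 u.2} × (Fin m → A) :=
    { toFun := fun x => (⟨(fun i => x.1 (Fin.castAdd m (Fin.castAdd b i)),
        fun i => x.1 (Fin.castAdd m (Fin.natAdd a i))), x.2⟩, fun i => x.1 (Fin.natAdd (a + b) i))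
      invFun := fun u => ⟨Fin.append (Fin.append u.1.1.1 u.1.1.2) u.2, by
        simpa [Fin.append_left, Fin.append_right] using u.1.2⟩
      left_inv := by
        intro x
        apply Subtype.ext
        funext i
        refine Fin.addCases (fun j => ?_) (fun j => ?_) i
        · refine Fin.addCases (fun l => ?_) (fun l => ?_) j
          · simp [Fin.append_left]
          · simp [Fin.append_left, Fin.append_right]
        · simp [Fin.append_right]
      right_inv := by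
        rintro ⟨⟨⟨z, y⟩, h⟩, w⟩
        simp only [Prod.mk.injEq]
        refine ⟨?_, ?_⟩
        · apply Subtype.ext
          simp [Fin.append_left, Fin.append_right]
        · funext i
          simp [Fin.append_right] }
  rw [Nat.card_congr e1, Nat.card_prod, Nat.card_eq_fintype_card (α := Fin m → A)]
  push_cast
  rw [Fintype.card_fun, Fintype.card_fin]
  push_cast
  congr 1
  rw [Nat.card_eq_fintype_card, Fintype.card_subtype, Finset.card_filter, Fintype.sum_prod_type]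
  push_cast
  refine Finset.sum_congr rfl fun z _ => ?_
  by_cases hz : P z
  · rw [if_pos hz, Nat.card_eq_fintype_card, Fintype.card_subtype, Finset.card_filter]
    push_cast
    refine Finset.sum_congr rfl fun y _ => ?_
    simp [hz]
  · simp [hz]

open Classical in
/-- if all good `z` have few bad `y` then most `x` are good -/
theorem frac_blocks (a b m : ℕ) (hA : 0 < Fintype.card A) (P : (Fin a → A) → Prop)
    (Q : (Fin a → A) → (Fin b → A) → Prop) (c : ℝ) (hc : 0 ≤ c)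
    (hQ : ∀ z, P z → (Nat.card {y : Fin b → A // ¬ Q z y} : ℝ) ≤ c * (Fintype.card A : ℝ) ^ b) :
    (Nat.card {z : Fin a → A // P z} : ℝ) / Nat.card (Fin a → A) - c ≤
    (Nat.card {x : Fin (a + b + m) → A // P (fun i => x (Fin.castAdd m (Fin.castAdd b i))) ∧
      Q (fun i => x (Fin.castAdd m (Fin.castAdd b i)))
        (fun i => x (Fin.castAdd m (Fin.natAdd a i)))} : ℝ) / Nat.card (Fin (a + b + m) → A) := by
  set N : ℝ := (Fintype.card A : ℝ) with hN
  have hN0 : 0 < N := by rw [hN]; exact_mod_cast hA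
  have hca : (Nat.card (Fin a → A) : ℝ) = N ^ a := by
    rw [Nat.card_eq_fintype_card, Fintype.card_fun, Fintype.card_fin]; push_cast; rfl
  have hcm : (Nat.card (Fin (a + b + m) → A) : ℝ) = N ^ a * N ^ b * N ^ m := by
    rw [Nat.card_eq_fintype_card, Fintype.card_fun, Fintype.card_fin]; push_cast
    rw [pow_add, pow_add]
  rw [card_blocks, hca, hcm, ← hN]
  have h1 : ∀ z, P z → (1 - c) * N ^ b ≤ (Nat.card {y : Fin b → A // Q z y} : ℝ) := by
    intro z hz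
    have h2 := hQ z hz
    have h3 : (Nat.card {y : Fin b → A // Q z y} : ℝ) + Nat.card {y : Fin b → A // ¬ Q z y} =
        N ^ b := by
      have h4 : Fintype.card {y : Fin b → A // Q z y} +
          Fintype.card {y : Fin b → A // ¬ Q z y} = Fintype.card (Fin b → A) := by
        rw [Fintype.card_subtype_compl]
        have := Fintype.card_subtype_le (fun y : Fin b → A => Q z y)
        omega
      rw [Nat.card_eq_fintype_card, Nat.card_eq_fintype_card]
      rw [Fintype.card_fun, Fintype.card_fin] at h4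
      rw [hN]
      exact_mod_cast h4
    linarith
  have h5 : (Nat.card {z : Fin a → A // P z} : ℝ) * ((1 - c) * N ^ b) ≤
      ∑ z : Fin a → A, if P z then (Nat.card {y : Fin b → A // Q z y} : ℝ) else 0 := by
    rw [Nat.card_eq_fintype_card, Fintype.card_subtype, Finset.card_filter]
    push_cast
    rw [Finset.sum_mul]
    refine Finset.sum_le_sum fun z _ => ?_
    by_cases hz : P z
    · simp only [if_pos hz, one_mul]; exact h1 z hz
    · simp [hz]
  have h6 : (Nat.card {z : Fin a → A // P z} : ℝ) ≤ N ^ a := by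
    rw [← hca]
    exact_mod_cast Nat.card_le_card_of_injective _ Subtype.val_injective
  have hNa : 0 < N ^ a := by positivity
  have hNb : 0 < N ^ b := by positivity
  have hNm : 0 < N ^ m := by positivity
  rw [le_div_iff₀ (by positivity)]
  set g : ℝ := (Nat.card {z : Fin a → A // P z} : ℝ) with hg
  have hg0 : 0 ≤ g := Nat.cast_nonneg _
  have h7 : (g / N ^ a - c) * (N ^ a * N ^ b * N ^ m) = (g - c * N ^ a) * N ^ b * N ^ m := by
    field_simp
  rw [h7]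
  have h8 : (g - c * N ^ a) * N ^ b ≤ g * ((1 - c) * N ^ b) := by
    have : c * g ≤ c * N ^ a := by gcongr
    nlinarith
  calc (g - c * N ^ a) * N ^ b * N ^ m ≤ g * ((1 - c) * N ^ b) * N ^ m := by gcongr
    _ ≤ _ := by gcongr

end count

theorem psd_mono {D : ℕ} {W : Matrix (Fin D) (Fin D) ℂ} {a b : ℝ} (hab : b ≤ a)
    (h : ((1 - a) • (1 : Matrix (Fin D) (Fin D) ℂ) - W).PosSemidef) :
    ((1 - b) • (1 : Matrix (Fin D) (Fin D) ℂ) - W).PosSemidef := by
  have h2 : ((1 - b) • (1 : Matrix (Fin D) (Fin D) ℂ) - W) =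
      ((1 - a) • (1 : Matrix (Fin D) (Fin D) ℂ) - W) +
        (a - b) • (1 : Matrix (Fin D) (Fin D) ℂ) := by
    have h3 : (1 - b) = (1 - a) + (a - b) := by ring
    rw [h3, add_smul]
    abel
  rw [h2]
  exact h.add ((PosSemidef.one).smul (sub_nonneg.2 hab))

/-- the properties of the first block of generators -/
def GZ {n k : ℕ} (z : Fin k → Alt n) (α ε : ℝ) : Prop :=
  (∀ r : ℕ, (r : ℝ) ≤ (n : ℝ) ^ α → Pool.Agent.Helper3.AK.GroupGap z r ε ∧
    Pool.Agent.Helper3.AK.TupleGap z r ε) ∧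
    Pool.Agent.Helper6.GP.SmallSupp z (Real.exp ((n : ℝ) ^ α)) ε

/-- the chain of fresh generators has not failed -/
def QZ {n k J : ℕ} (g : ℝ) (z : Fin k → Alt n) (y : Fin J → Alt n) : Prop :=
  ∀ i, 4 * (n : ℝ) * (pwn n).c *
      (dd (pwn n) (Fin.append z y) i (g / (256 * ((k : ℝ) + J)) ^ J) : ℝ) ≤
    ((pwn n).D i : ℝ) * (4 * (n : ℝ) * (pwn n).c * (dd (pwn n) z i g : ℝ) / (pwn n).D i) ^ (2 ^ J)

/-- the deterministic part -/
theorem det (hBCD : S_BCD) (hE3 : S_E3) (hSPEC : S_SPEC) (hLT : S_LT) (hTOPZ : S_TOPZ)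
    (hSUBT : S_SUBT) (hNUM : S_NUM) (γ : ℝ) (hγ : 0 < γ) :
    ∃ (k₁ J : ℕ) (α ε g : ℝ), 2 ≤ k₁ ∧ α < 1 ∧ 0 < ε ∧ 0 < g ∧
      Pool.Agent.Helper6.GP.EUS k₁ α ε ∧ ∀ m : ℕ, ∀ᶠ n : ℕ in atTop,
      ∀ x : Fin (k₁ + J + m) → Alt n,
      GZ (fun i : Fin k₁ => x (Fin.castAdd m (Fin.castAdd J i))) α ε →
      QZ ((n : ℝ) ^ (-g)) (fun i : Fin k₁ => x (Fin.castAdd m (Fin.castAdd J i)))
        (fun i : Fin J => x (Fin.castAdd m (Fin.natAdd k₁ i))) →
      Good (pwn n) (tupW x) n ((n : ℝ) ^ (-γ)) := by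
  obtain ⟨τ₁, ξ, γ₀, hτ₁, hτ₂, hξ, hξ4, hγ₀, hγ₀1, hbcd⟩ := hBCD
  -- parameters
  set γ₁ : ℝ := min γ₀ (min (γ / 8) (1 / 2)) with hγ₁
  set γ' : ℝ := min (γ / 64) (1 / 40) with hγ'
  have g1 : 0 < γ₁ := lt_min hγ₀ (lt_min (by positivity) (by norm_num))
  have g2 : γ₁ ≤ γ₀ := min_le_left _ _
  have g3 : γ₁ ≤ γ / 8 := (min_le_right _ _).trans (min_le_left _ _)
  have g4 : γ₁ ≤ 1 / 2 := (min_le_right _ _).trans (min_le_right _ _)
  have g5 : 0 < γ' := lt_min (by positivity) (by norm_num)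
  have g6 : γ' ≤ γ / 64 := min_le_left _ _
  have g7 : γ' ≤ 1 / 40 := min_le_right _ _
  -- the number of generators in the first block
  have hlim1 : Tendsto (fun k : ℕ => ((1 : ℝ) / 2) ^ k) atTop (𝓝 0) :=
    tendsto_pow_atTop_nhds_zero_of_lt_one (by norm_num) (by norm_num)
  have hlim2 : Tendsto (fun k : ℕ => (k : ℝ) * ((1 : ℝ) / 2) ^ k) atTop (𝓝 0) :=
    tendsto_self_mul_const_pow_of_lt_one (by norm_num) (by norm_num)
  have hthr : 0 < τ₁ * γ₁ * τ₁ / 32 := by positivity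
  obtain ⟨j, hj1, hj2, hj3, hj4, hj5⟩ : ∃ j : ℕ, 2 ≤ j ∧ ((1 : ℝ) / 2) ^ j < γ₁ / 20 ∧
      ((1 : ℝ) / 2) ^ j < γ' ∧ ((1 : ℝ) / 2) ^ j < 1 / 2 ∧
      (j : ℝ) * ((1 : ℝ) / 2) ^ j < τ₁ * γ₁ * τ₁ / 32 := by
    have := ((eventually_ge_atTop 2).and ((hlim1.eventually_lt_const
      (show (0 : ℝ) < γ₁ / 20 by positivity)).and ((hlim1.eventually_lt_const g5).and
      ((hlim1.eventually_lt_const (show (0 : ℝ) < 1 / 2 by norm_num)).and
      (hlim2.eventually_lt_const hthr))))).exists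
    exact this
  set k₁ : ℕ := j + 2 with hk₁
  set a : ℝ := ((1 : ℝ) / 2) ^ j with ha
  have ha0 : 0 < a := by rw [ha]; positivity
  set α : ℝ := 1 - a with hα
  have hα1 : 1 / 2 < α := by rw [hα]; linarith
  have hα2 : α < 1 := by rw [hα]; linarith
  have hα3 : 1 - γ₁ / 20 < α := by rw [hα]; linarith
  have hα4 : 1 - γ' < α := by rw [hα]; linarith
  have hk10 : (0 : ℝ) < k₁ := by rw [hk₁]; positivity
  have hα5 : 2 * (1 - α) * Real.log (2 * k₁ / τ₁) < τ₁ * γ₁ := by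
    have h1 : Real.log (2 * k₁ / τ₁) ≤ 2 * k₁ / τ₁ := by
      have := Real.log_le_sub_one_of_pos (show (0 : ℝ) < 2 * k₁ / τ₁ by positivity)
      linarith
    have h2 : (1 - α) = a := by rw [hα]; ring
    rw [h2]
    have h3 : (k₁ : ℝ) ≤ 2 * j := by
      rw [hk₁]; push_cast
      have : (2 : ℝ) ≤ j := by exact_mod_cast hj1
      linarith
    calc 2 * a * Real.log (2 * k₁ / τ₁) ≤ 2 * a * (2 * k₁ / τ₁) := by gcongr
      _ ≤ 2 * a * (2 * (2 * j) / τ₁) := by gcongr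
      _ = 8 * (j * a) / τ₁ := by ring
      _ < 8 * (τ₁ * γ₁ * τ₁ / 32) / τ₁ := by gcongr
      _ = τ₁ * γ₁ / 4 := by field_simp; ring
      _ ≤ τ₁ * γ₁ := by
        have : 0 < τ₁ * γ₁ := by positivity
        linarith
  obtain ⟨ε₁, hε₁, hsu⟩ := Pool.Agent.Helper6.GP.small_uniform
    Pool.Agent.Helper6.GP.lzw_all α hα2
  have heus := hsu k₁ (by omega) (by
    have h1 : k₁ - 2 = j := by omega
    rw [h1, hα, ha]
    have h2 : (2 : ℝ) / 3 / 2 ^ j = 2 / 3 * ((1 : ℝ) / 2) ^ j := by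
      rw [one_div, inv_pow]; ring
    rw [h2]
    have : 0 < ((1 : ℝ) / 2) ^ j := by positivity
    linarith)
  obtain ⟨J₀, hJ₀⟩ := hE3 ξ γ' α hξ hξ4 g5 (by linarith) hα4 hα2
  obtain ⟨J, hJ⟩ := hSPEC ξ γ' J₀ hξ (by linarith) g5 (by linarith)
  refine ⟨k₁, J, α, ε₁, 2 * γ₁ + 7 * γ', by omega, hα2, hε₁, by positivity, heus, fun m => ?_⟩
  set ε : ℝ := min ε₁ 1 with hε
  have hε0 : 0 < ε := lt_min hε₁ one_pos
  have hε1 : ε ≤ 1 := min_le_right _ _
  have hεε : ε ≤ ε₁ := min_le_left _ _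
  set k : ℕ := k₁ + J + m with hk
  have hkr : (0 : ℝ) < k := by rw [hk]; push_cast; positivity
  set R : ℝ := (256 * ((k₁ : ℝ) + J)) ^ J with hR
  have hR0 : 0 < R := by rw [hR]; positivity
  have hp1 : 0 < γ := hγ
  have hp2 : 0 < γ - (2 * γ₁ + 7 * γ') := by linarith
  have hp3 : 0 < α - (1 - γ') := by linarith
  filter_upwards [hbcd k₁ γ₁ γ' α ε (by omega) g1 g2 g5 (by linarith) hε0 hε1 hα1 hα2 hα3 hα5,
    hJ₀, hJ, hNUM γ₁ γ' J g1 (by linarith) g5 (by linarith),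
    Pool.Agent.Helper3.AK.ev_add_two_le hα2,
    (tendsto_rpow_nat hp1).eventually_ge_atTop (k / (k₁ * ε)),
    (tendsto_rpow_nat hp2).eventually_ge_atTop (k * R / (k₁ + J)),
    (tendsto_rpow_nat hp3).eventually_ge_atTop (2 : ℝ), eventually_ge_atTop 2]
    with n a1 a2 a3 a4 a5 a6 a7 a8 hn2
  intro x hgz hqz i htriv _
  have hn0 : (0 : ℝ) < n := by
    have : 0 < n := by omega
    exact_mod_cast this
  have hn1 : (1 : ℝ) ≤ n := by
    have : 1 ≤ n := by omega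
    exact_mod_cast this
  set z : Fin k₁ → Alt n := fun i : Fin k₁ => x (Fin.castAdd m (Fin.castAdd J i)) with hz
  set y : Fin J → Alt n := fun i : Fin J => x (Fin.castAdd m (Fin.natAdd k₁ i)) with hy
  have htg : ∀ r : ℕ, (r : ℝ) ≤ (n : ℝ) ^ α → Pool.Agent.Helper3.AK.TupleGap z r ε :=
    fun r hr => Pool.Agent.Helper3.AK.TupleGap.mono_eps hεε (hgz.1 r hr).2
  have hss : Pool.Agent.Helper6.GP.SmallSupp z (Real.exp ((n : ℝ) ^ α)) ε := by
    intro f hf
    refine (hgz.2 f hf).trans ?_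
    have : 0 ≤ ∑ g, f g ^ 2 := Finset.sum_nonneg fun _ _ => sq_nonneg _
    gcongr
  set T : ℕ := ⌈(n : ℝ) ^ (1 + 2 * γ₁ + 5 * γ')⌉₊ with hT
  set κ : Perm (Fin n) → ℝ := lazyLaw z (2 * T) with hκ
  have hlz := Pool.Agent.Helper6.GP.lzw_all n k₁ (2 * T) z (by omega)
  have hκlaw : IsLaw κ := ⟨hlz.2.2.2.1, hlz.2.2.2.2⟩
  have hκalt : ∀ g : Perm (Fin n), g ∉ Alt n → κ g = 0 := hlz.2.1
  obtain ⟨b1, b2⟩ := a1 z htg hss
  have b3 := a2 κ hκlaw b1 b2
  have hLTi : ∀ i : Fin (pwn n).c,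
      (((trace (wop ((pwn n).ρ i) κ)).re : ℝ) : ℂ) = trace (wop ((pwn n).ρ i) κ) ∧
      0 ≤ (trace (wop ((pwn n).ρ i) κ)).re ∧ (trace (wop ((pwn n).ρ i) κ)).re ≤ (pwn n).D i ∧
      ∀ (hT : (wop ((pwn n).ρ i) (tupW z)).IsHermitian) (g : ℝ), 0 ≤ g → g ≤ 1 →
        (Fintype.card (TopIdx hT (1 - g)) : ℝ) * (1 - g / 2) ^ (2 * T) ≤
          (trace (wop ((pwn n).ρ i) κ)).re := fun i =>
    hLT n k₁ _ T z ((pwn n).ρ i) (by omega) ((pwn n).irr i).unit
  have hunit := ((pwn n).irr i).unit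
  by_cases hfix : HasFix ((pwn n).ρ i) (stab n ⌈(n : ℝ) ^ (1 - γ')⌉₊)
  · -- low level
    have hm1 : ((⌈(n : ℝ) ^ (1 - γ')⌉₊ : ℕ) : ℝ) ≤ (n : ℝ) ^ α := by
      have h1 : (⌈(n : ℝ) ^ (1 - γ')⌉₊ : ℝ) < (n : ℝ) ^ (1 - γ') + 1 :=
        Nat.ceil_lt_add_one (by positivity)
      have h2 : (1 : ℝ) ≤ (n : ℝ) ^ (1 - γ') := Real.one_le_rpow hn1 (by linarith)
      have h3 : 2 * (n : ℝ) ^ (1 - γ') ≤ (n : ℝ) ^ α := by
        calc 2 * (n : ℝ) ^ (1 - γ') ≤ (n : ℝ) ^ (α - (1 - γ')) * (n : ℝ) ^ (1 - γ') := by gcongr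
          _ = (n : ℝ) ^ α := by rw [← Real.rpow_add hn0]; congr 1; ring
      linarith
    have h1 := Pool.Agent.Helper56.GP.TGR.thm n k₁ ⌈(n : ℝ) ^ (1 - γ')⌉₊ _ z ε (by omega)
      (a5 _ hm1) (htg _ hm1) ((pwn n).ρ i) ((pwn n).irr i) htriv hfix
    have h2 := hSUBT n k₁ k _ (by omega) x ((pwn n).ρ i) ε (by omega) hunit h1
    refine psd_mono ?_ h2
    rw [Real.rpow_neg hn0.le, inv_le_comm₀ (Real.rpow_pos_of_pos hn0 _) (by positivity)]
    refine le_trans (le_of_eq ?_) a6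
    field_simp
  · -- high level
    have hg0 : 0 ≤ (n : ℝ) ^ (-(2 * γ₁ + 7 * γ')) := (Real.rpow_pos_of_pos hn0 _).le
    have hg1 : (n : ℝ) ^ (-(2 * γ₁ + 7 * γ')) ≤ 1 :=
      Real.rpow_le_one_of_one_le_of_nonpos hn1 (by linarith)
    have hHerm : (wop ((pwn n).ρ i) (tupW z)).IsHermitian :=
      wop_isHermitian ((pwn n).ρ i) hunit (tupW_isSP (by omega) z)
    have h1 := (hLTi i).2.2.2 hHerm _ hg0 hg1
    have h2 : (Fintype.card (TopIdx hHerm (1 - (n : ℝ) ^ (-(2 * γ₁ + 7 * γ')))) : ℝ) =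
        (dd (pwn n) z i ((n : ℝ) ^ (-(2 * γ₁ + 7 * γ'))) : ℝ) := by
      unfold dd
      rw [dif_pos hHerm]
    rw [h2] at h1
    have h3 := a3 κ hκlaw hκalt b1 b3 (pwn n)
      (fun i => ⟨(hLTi i).1, (hLTi i).2.1, (hLTi i).2.2.1⟩) i hfix
    have h4 := a4 (pwn n) i _ _ _ (hLTi i).2.1 h1 h3 (hqz i)
    have h5 := hTOPZ n (k₁ + J) (Fin.append z y) (pwn n) i _ (by omega) h4
    have hxe : (fun j => x (Fin.castLE (show k₁ + J ≤ k by omega) j)) = Fin.append z y := by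
      funext j
      refine Fin.addCases (fun l => ?_) (fun l => ?_) j
      · rw [Fin.append_left]; rfl
      · rw [Fin.append_right]; rfl
    have h6 := hSUBT n (k₁ + J) k _ (by omega) x ((pwn n).ρ i) _ (by omega) hunit (by
      rw [hxe]; exact h5)
    refine psd_mono ?_ h6
    push_cast
    rw [← hR]
    have h7 : (n : ℝ) ^ (-γ) * (n : ℝ) ^ (γ - (2 * γ₁ + 7 * γ')) =
        (n : ℝ) ^ (-(2 * γ₁ + 7 * γ')) := by
      rw [← Real.rpow_add hn0]; congr 1; ring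
    have hkJ : (0 : ℝ) < (k₁ : ℝ) + J := by positivity
    have h8 : (n : ℝ) ^ (-γ) * (k * R / (k₁ + J)) ≤ (n : ℝ) ^ (-(2 * γ₁ + 7 * γ')) := by
      rw [← h7]
      have : 0 < (n : ℝ) ^ (-γ) := Real.rpow_pos_of_pos hn0 _
      gcongr
    have h9 : (n : ℝ) ^ (-γ) * (k * R) ≤
        (n : ℝ) ^ (-(2 * γ₁ + 7 * γ')) * ((k₁ : ℝ) + J) := by
      rw [mul_div_assoc', div_le_iff₀ hkJ] at h8
      exact h8
    have h10 : ((k₁ : ℝ) + J) / k * ((n : ℝ) ^ (-(2 * γ₁ + 7 * γ')) / R) =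
        ((n : ℝ) ^ (-(2 * γ₁ + 7 * γ')) * ((k₁ : ℝ) + J)) / (k * R) := by
      field_simp
    rw [h10, le_div_iff₀ (by positivity)]
    exact h9

/-- **MAIN** -/
theorem main (hBCD : S_BCD) (hE3 : S_E3) (hSPEC : S_SPEC) (hLT : S_LT) (hCHN : S_CHN)
    (hTOPZ : S_TOPZ) (hSUBT : S_SUBT) (hNUM : S_NUM) (γ : ℝ) (hγ : 0 < γ) :
    ∃ k₀ : ℕ, 2 ≤ k₀ ∧ ∀ k : ℕ, k₀ ≤ k →
    Tendsto (fun n : ℕ => (Nat.card {x : Fin k → Alt n // ∃ F : PW (Perm (Fin n)),
      Good F (tupW x) n ((n : ℝ) ^ (-γ))} : ℝ) / Nat.card (Fin k → Alt n)) atTop (𝓝 1) := by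
  obtain ⟨k₁, J, α, ε, g, hk₁, hα, hε, hg, heus, hdet⟩ :=
    det hBCD hE3 hSPEC hLT hTOPZ hSUBT hNUM γ hγ
  refine ⟨k₁ + J, by omega, fun k hk => ?_⟩
  obtain ⟨m, rfl⟩ := Nat.exists_eq_add_of_le hk
  have hlim : Tendsto (fun n : ℕ => (Nat.card {z : Fin k₁ → Alt n // GZ z α ε} : ℝ) /
      Nat.card (Fin k₁ → Alt n) - (J : ℝ) / n) atTop (𝓝 (1 - 0)) := by
    refine Tendsto.sub heus ?_
    exact tendsto_const_div_atTop_nhds_zero_nat (J : ℝ)
  rw [sub_zero] at hlim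
  refine tendsto_of_tendsto_of_tendsto_of_le_of_le' hlim tendsto_const_nhds ?_ ?_
  · filter_upwards [hdet m, eventually_ge_atTop 2] with n a1 hn2
    have hn0 : (0 : ℝ) < n := by
      have : 0 < n := by omega
      exact_mod_cast this
    have hn1 : (1 : ℝ) ≤ n := by
      have : 1 ≤ n := by omega
      exact_mod_cast this
    have h1 := frac_blocks (A := Alt n) k₁ J m Fintype.card_pos (fun z => GZ z α ε)
      (fun z y => QZ ((n : ℝ) ^ (-g)) z y) ((J : ℝ) / n) (by positivity) (fun z _ => by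
        have h2 := hCHN n k₁ J z (pwn n) ((n : ℝ) ^ (-g)) (by omega) hn2
          (Real.rpow_pos_of_pos hn0 _)
          (Real.rpow_le_one_of_one_le_of_nonpos hn1 (by linarith))
        have h3 : (Nat.card {y : Fin J → Alt n // ¬ QZ ((n : ℝ) ^ (-g)) z y} : ℝ) =
            (Nat.card {y : Fin J → Alt n // ∃ i, ((pwn n).D i : ℝ) *
              (4 * (n : ℝ) * (pwn n).c * (dd (pwn n) z i ((n : ℝ) ^ (-g)) : ℝ) /
                (pwn n).D i) ^ (2 ^ J) < 4 * (n : ℝ) * (pwn n).c *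
              (dd (pwn n) (Fin.append z y) i
                ((n : ℝ) ^ (-g) / (256 * ((k₁ : ℝ) + J)) ^ J) : ℝ)} : ℝ) := by
          congr 1
          refine Nat.card_congr (Equiv.subtypeEquivRight fun y => ?_)
          unfold QZ
          push Not
          rfl
        rw [h3, div_mul_eq_mul_div, le_div_iff₀ hn0]
        exact h2)
    refine h1.trans ?_
    refine div_le_div_of_nonneg_right ?_ (Nat.cast_nonneg _)
    refine Nat.cast_le.2 (Nat.card_le_card_of_injective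
      (fun x => ⟨x.1, ⟨pwn n, a1 x.1 x.2.1 x.2.2⟩⟩) ?_)
    intro u v huv
    exact Subtype.ext (by simpa using congrArg Subtype.val huv)
  · filter_upwards with n
    apply div_le_one_of_le₀ _ (Nat.cast_nonneg _)
    exact_mod_cast Nat.card_le_card_of_injective _ Subtype.val_injective

end Pool.Agent.Helper6.NX
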