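import Pool.Agent.Helper1.NX.CHN
import Pool.Agent.Helper1.NX.OV
import Pool.Agent.Helper1.NX.STEP
import Pool.Agent.Helper1.NX.TOPZ
import Pool.Agent.Helper10.NX.FIN
import Pool.Agent.Helper11.NX.C2
import Pool.Agent.Helper13.NX.HOMC
import Pool.Agent.Helper15.NX.KEYC
import Pool.Agent.Helper2.NX.JEN
import Pool.Agent.Helper20.NX.SEL
import Pool.Agent.Helper22.NX.D
import Pool.Agent.Helper24.NX.L1
import Pool.Agent.Helper26.NX.CMP1
import Pool.Agent.Helper27.NX.AVG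
import Pool.Agent.Helper28.NX.CB
import Pool.Agent.Helper28.NX.IT
import Pool.Agent.Helper28.NX.KEYA
import Pool.Agent.Helper3.NX.CMP2
import Pool.Agent.Helper3.NX.L9H
import Pool.Agent.Helper30.NX.IS2
import Pool.Agent.Helper31.NX.CV
import Pool.Agent.Helper33.NX.KEYB
import Pool.Agent.Helper34.NX.F1
import Pool.Agent.Helper35.NX.F3
import Pool.Agent.Helper35.NX.NUM
import Pool.Agent.Helper38.NX.C3
import Pool.Agent.Helper39.NX.E1
import Pool.Agent.Helper40.NX.MX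
import Pool.Agent.Helper40.NX.PAIRA
import Pool.Agent.Helper45.NX.C1
import Pool.Agent.Helper46.NX.L8
import Pool.Agent.Helper48.NX.C
import Pool.Agent.Helper49.NX.COREB
import Pool.Agent.Helper5.NX.WW
import Pool.Agent.Helper50.NX.SPEC
import Pool.Agent.Helper51.NX.L7
import Pool.Agent.Helper51.NX.SMO
import Pool.Agent.Helper51.NX.VC
import Pool.Agent.Helper51.NX.WIN
import Pool.Agent.Helper55.NX.S2B
import Pool.Agent.Helper56.NX.MIXT
import Pool.Agent.Helper57.NX.CMP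
import Pool.Agent.Helper57.NX.COREC
import Pool.Agent.Helper57.NX.REC
import Pool.Agent.Helper59.NX.VP
import Pool.Agent.Helper6.NX.Core
import Pool.Agent.Helper6.NX.Main
import Pool.Agent.Helper6.NX.PartB
import Pool.Agent.Helper60.NX.COREA
import Pool.Agent.Helper60.NX.L9
import Pool.Agent.Helper60.NX.LT
import Pool.Agent.Helper61.NX.L4
import Pool.Agent.Helper61.NX.L5
import Pool.Agent.Helper62.NX.S2A
import Pool.Agent.Helper69.NX.M1A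
import Pool.Agent.Helper7.NX.PLAN
import Pool.Agent.Helper71.NX.CNT
import Pool.Agent.Helper71.NX.COL
import Pool.Agent.Helper71.NX.MOMT
import Pool.Agent.Helper73.NX.E3
import Pool.Agent.Helper75.NX.L3
import Pool.Agent.Helper76.NX.BCD
import Pool.Agent.Helper76.NX.E2
import Pool.Agent.Helper77.NX.HOM
import Pool.Agent.Helper77.NX.NSE
import Pool.Agent.Helper79.NX.F2
import Pool.Agent.Helper81.NX.PAIRB
import Pool.Agent.Helper82.NX.IS1
import Pool.Agent.Helper83.NX.FW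
import Pool.Agent.Helper86.NX.L3C
import Pool.Agent.Helper87.NX.S1F
import Pool.Agent.Helper88.NX.L2
import Pool.Agent.Helper89.NX.M0S
import Pool.Agent.Helper89.NX.MOM0
import Pool.Agent.Helper89.NX.TAIL
import Pool.Agent.Helper9.NX.HEAVY
import Pool.Agent.Helper90.NX.M0
import Pool.Agent.Helper93.NX.S1
import Pool.Agent.Helper94.NX.EDG
import Pool.Agent.Helper95.NX.KEY
import Pool.Agent.Helper96.NX.Z
import Pool.Agent.Helper97.NX.M1B

/-! Project NX: all the parts together. -/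

namespace Pool.Agent.Helper6.NX

open Filter Topology Pool.Agent.Helper15.An

theorem f_M0 : S_M0 := Pool.Agent.Helper90.NX.thmM0
theorem f_M0S : S_M0S := Pool.Agent.Helper89.NX.thmM0S
theorem f_WIN : S_WIN := Pool.Agent.Helper51.NX.thmWIN
theorem f_L1 : S_L1 := Pool.Agent.Helper24.NX.thmL1
theorem f_L7 : S_L7 := Pool.Agent.Helper51.NX.thmL7
theorem f_L8 : S_L8 := Pool.Agent.Helper46.NX.thmL8
theorem f_M1A : S_M1A := Pool.Agent.Helper69.NX.thmM1A f_L1 f_L7 f_L8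
theorem f_L2 : S_L2 := Pool.Agent.Helper88.NX.thmL2
theorem f_L3 : S_L3 := Pool.Agent.Helper75.NX.thmL3
theorem f_L4 : S_L4 := Pool.Agent.Helper61.NX.thmL4 f_L3
theorem f_L5 : S_L5 := Pool.Agent.Helper61.NX.thmL5
theorem f_M1B : S_M1B := Pool.Agent.Helper97.NX.thmM1B f_L2 f_L4 f_L5 f_L7 f_L8
theorem f_AVG : S_AVG := Pool.Agent.Helper27.NX.thmAVG
theorem f_COL : S_COL := Pool.Agent.Helper71.NX.thmCOL f_L5 f_L8 f_AVG
theorem f_CNT : S_CNT := Pool.Agent.Helper71.NX.thmCNT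
theorem f_EDG : S_EDG := Pool.Agent.Helper94.NX.thmEDG
theorem f_CMP1 : S_CMP1 := Pool.Agent.Helper26.NX.thmCMP1 f_EDG
theorem f_CMP2 : S_CMP2 := Pool.Agent.Helper3.NX.thmCMP2
theorem f_CMP : S_CMP := Pool.Agent.Helper57.NX.thmCMP f_CNT f_CMP1 f_CMP2
theorem f_SMO : S_SMO := Pool.Agent.Helper51.NX.thmSMO f_L5 f_L7 f_CMP
theorem f_L3C : S_L3C := Pool.Agent.Helper86.NX.thmL3C f_L3
theorem f_FIN : S_FIN := Pool.Agent.Helper10.NX.FIN.thmFIN f_L2 f_L3C f_L4 f_L5 f_L7 f_L8 f_AVG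
theorem f_VP : S_VP := Pool.Agent.Helper59.NX.thmVP f_L2 f_L3C f_L4 f_AVG
theorem f_VC : S_VC := Pool.Agent.Helper51.NX.thmVC f_L2 f_L4 f_L5 f_L7 f_AVG f_VP
theorem f_CV : S_CV := Pool.Agent.Helper31.NX.thmCV f_L2 f_L4 f_L5 f_L7
theorem f_L9 : S_L9 := Pool.Agent.Helper60.NX.thmL9 f_L2 f_L3C f_L4 f_L7
theorem f_FW : S_FW := Pool.Agent.Helper83.NX.thmFW f_L2 f_L5 f_L9 f_VP
theorem f_S1F : S_S1F := Pool.Agent.Helper87.NX.thmS1F f_L2 f_L3 f_L4 f_L7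
theorem f_JEN : S_JEN := Pool.Agent.Helper2.NX.thmJEN
theorem f_S1 : S_S1 := Pool.Agent.Helper93.NX.thmS1 f_AVG f_VP f_VC f_FW f_S1F f_JEN
theorem f_S2A : S_S2A := Pool.Agent.Helper62.NX.thmS2A f_VP
theorem f_S2B : S_S2B := Pool.Agent.Helper55.NX.thmS2B
theorem f_REC : S_REC := Pool.Agent.Helper57.NX.thmREC f_VP f_VC f_S1 f_S2A f_S2B
theorem f_TAIL : S_TAIL := Pool.Agent.Helper89.NX.thmTAIL
theorem f_SEL : S_SEL := Pool.Agent.Helper20.NX.thmSEL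
theorem f_COREA : S_COREA := Pool.Agent.Helper60.NX.thmCOREA f_VP f_VC f_CV f_REC f_TAIL f_SEL
theorem f_PLAN : S_PLAN := Pool.Agent.Helper7.NX.thmPLAN
theorem f_NSE : S_NSE := Pool.Agent.Helper77.NX.thmNSE
theorem f_HOMC : S_HOMC := Pool.Agent.Helper13.NX.thmHOMC f_AVG
theorem f_HOM : S_HOM := Pool.Agent.Helper77.NX.thmHOM f_AVG f_PLAN f_NSE f_HOMC
theorem f_HEAVY : S_HEAVY := Pool.Agent.Helper9.NX.thmHEAVY f_L2 f_L3 f_L4 f_L7 f_AVG f_VP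
theorem f_COREB : S_COREB := Pool.Agent.Helper49.NX.thmCOREB f_VP f_FW f_HOM f_HEAVY f_S2A f_COL
theorem f_L9H : S_L9H := Pool.Agent.Helper3.NX.thmL9H f_L3C f_L9
theorem f_Z : S_Z := Pool.Agent.Helper96.NX.thmZ f_L2 f_L3C f_L4 f_L5 f_L7 f_L8 f_L9H f_CV f_AVG
theorem f_COREC : S_COREC := Pool.Agent.Helper57.NX.thmCOREC f_Z
theorem f_CORE : S_CORE := Pool.Agent.Helper6.NX.core f_L5 f_L7 f_COL f_SMO f_FIN f_COREA f_COREB f_COREC
theorem f_WW : S_WW := Pool.Agent.Helper5.NX.thmWW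
theorem f_B : S_B := Pool.Agent.Helper6.NX.partB f_M0 f_M0S f_WIN f_M1A f_M1B f_CORE f_WW
theorem f_C1 : S_C1 := Pool.Agent.Helper45.NX.thmC1
theorem f_C2 : S_C2 := Pool.Agent.Helper11.NX.thmC2 f_L1 f_L2 f_L3C f_L7
theorem f_C3 : S_C3 := Pool.Agent.Helper38.NX.thmC3 f_L2 f_L3 f_L3C f_L4
theorem f_C : S_C := Pool.Agent.Helper48.NX.thmC f_C1 f_C2 f_C3 f_WW
theorem f_D : S_D := Pool.Agent.Helper22.NX.dD
theorem f_MOM0 : S_MOM0 := Pool.Agent.Helper89.NX.thmMOM0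
theorem f_BCD : S_BCD := Pool.Agent.Helper76.NX.BCD.thmBCD f_B f_C f_D f_MOM0
theorem f_MX : S_MX := Pool.Agent.Helper40.NX.thmMX f_L5
theorem f_PAIRA : S_PAIRA := Pool.Agent.Helper40.NX.thmPAIRA
theorem f_PAIRB : S_PAIRB := Pool.Agent.Helper81.NX.thmPAIRB f_PAIRA
theorem f_IS1 : S_IS1 := Pool.Agent.Helper82.NX.thmIS1
theorem f_E1 : S_E1 := Pool.Agent.Helper39.NX.thmE1 f_MX f_PAIRB f_IS1
theorem f_IS2 : S_IS2 := Pool.Agent.Helper30.NX.thmIS2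
theorem f_KEYA : S_KEYA := Pool.Agent.Helper28.NX.keya_all
theorem f_KEYB : S_KEYB := Pool.Agent.Helper33.NX.thmKEYB
theorem f_KEYC : S_KEYC := Pool.Agent.Helper15.NX.thmKEYC
theorem f_KEY : S_KEY := Pool.Agent.Helper95.NX.thmKEY f_KEYA f_KEYB f_KEYC
theorem f_MOMT : S_MOMT := Pool.Agent.Helper71.NX.thmMOMT
theorem f_E2 : S_E2 := Pool.Agent.Helper76.NX.E2.thmE2 f_MX f_PAIRB f_IS2 f_KEY f_MOMT
theorem f_E3 : S_E3 := Pool.Agent.Helper73.NX.thmE3 f_MOM0 f_MX f_E1 f_E2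
theorem f_F1 : S_F1 := Pool.Agent.Helper34.NX.thmF1
theorem f_CB : S_CB := Pool.Agent.Helper28.NX.cb_all
theorem f_F2 : S_F2 := Pool.Agent.Helper79.NX.thmF2 f_CB
theorem f_F3 : S_F3 := Pool.Agent.Helper35.NX.thmF3
theorem f_IT : S_IT := Pool.Agent.Helper28.NX.it_of f_MX
theorem f_SPEC : S_SPEC := Pool.Agent.Helper50.NX.thmSPEC f_F1 f_F2 f_F3 f_IT f_MX
theorem f_LT : S_LT := Pool.Agent.Helper60.NX.thmLT
theorem f_OV : S_OV := Pool.Agent.Helper1.NX.OV.thm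
theorem f_STEP : S_STEP := Pool.Agent.Helper1.NX.STEP.thm f_OV
theorem f_CHN : S_CHN := Pool.Agent.Helper1.NX.CHN.thm f_STEP
theorem f_TOPZ : S_TOPZ := Pool.Agent.Helper1.NX.TOPZ.thm
theorem f_SUBT : S_SUBT := Pool.Agent.Helper1.NX.TOPZ.thmSUBT
theorem f_NUM : S_NUM := Pool.Agent.Helper35.NX.thmNUM
theorem f_MIXT : S_MIXT := Pool.Agent.Helper56.NX.thmMIXT

/-- the main theorem of the project -/
theorem main_all (γ : ℝ) (hγ : 0 < γ) : ∃ k₀ : ℕ, 2 ≤ k₀ ∧ ∀ k : ℕ, k₀ ≤ k →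
    Tendsto (fun n : ℕ => (Nat.card {x : Fin k → Alt n // ∃ F : PW (Equiv.Perm (Fin n)),
      Good F (tupW x) n ((n : ℝ) ^ (-γ))} : ℝ) / Nat.card (Fin k → Alt n)) atTop (𝓝 1) :=
  main f_BCD f_E3 f_SPEC f_LT f_CHN f_TOPZ f_SUBT f_NUM γ hγ

theorem mixt : S_MIXT := f_MIXT

end Pool.Agent.Helper6.NX
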