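import Mathlib

/-! Project NX (MP_75608d_al), definitions: near expansion of bounded numbers of random elements.
Entropies of random variables on finite probability spaces, near invariance, restricted
entropies of random permutations. -/

set_option linter.unusedVariables false

namespace Pool.Agent.Helper6.NX

open Equiv Filter Topology

/-! ### Finite probability spaces -/

/-- nonnegative weights of total mass one -/
def IsLaw {Ω : Type} [Fintype Ω] (P : Ω → ℝ) : Prop := (∀ ω, 0 ≤ P ω) ∧ ∑ ω, P ω = 1

/-- the law of `X` under the weights `P` -/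
noncomputable def law {Ω α : Type} [Fintype Ω] (P : Ω → ℝ) (X : Ω → α) (a : α) : ℝ := by
  classical exact ∑ ω, if X ω = a then P ω else 0

/-- the Shannon entropy of `X` under the weights `P` -/
noncomputable def ent {Ω α : Type} [Fintype Ω] (P : Ω → ℝ) (X : Ω → α) : ℝ :=
  -∑ ω, P ω * Real.log (law P X (X ω))

/-- the conditional entropy of `X` given `Y` -/
noncomputable def cent {Ω α β : Type} [Fintype Ω] (P : Ω → ℝ) (X : Ω → α) (Y : Ω → β) : ℝ :=
  ent P (fun ω => (X ω, Y ω)) - ent P Y

/-- product of two weights -/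
def prd {Ω Ω' : Type} (P : Ω → ℝ) (Q : Ω' → ℝ) : Ω × Ω' → ℝ := fun z => P z.1 * Q z.2

/-- mixture: first `i` with weight `p i`, then `ω` with weight `Q i ω` -/
def mixl {I Ω : Type} (p : I → ℝ) (Q : I → Ω → ℝ) : I × Ω → ℝ := fun z => p z.1 * Q z.1 z.2

/-- two copies of `ω`, conditionally independent given `Y` -/
noncomputable def ccp {Ω β : Type} [Fintype Ω] (P : Ω → ℝ) (Y : Ω → β) : Ω × Ω → ℝ := by
  classical exact fun z => if Y z.1 = Y z.2 then P z.1 * P z.2 / law P Y (Y z.1) else 0

/-- the uniform weights -/
noncomputable def unif (Ω : Type) [Fintype Ω] : Ω → ℝ := fun _ => (Fintype.card Ω : ℝ)⁻¹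

/-! ### Weights on groups -/

section group
variable {G : Type} [Group G] [Fintype G]

/-- entropy of a weight on a finite set -/
noncomputable def H {Ω : Type} [Fintype Ω] (μ : Ω → ℝ) : ℝ := ent μ (fun g => g)

/-- the law of the product of two independent elements -/
noncomputable def conv (μ ν : G → ℝ) : G → ℝ := law (prd μ ν) (fun z => z.1 * z.2)

/-- near invariance under right multiplication by the `x i` -/
def NI {k : ℕ} (x : Fin k → G) (μ : G → ℝ) (ε : ℝ) : Prop :=
  ∀ i, ∑ g, |μ (g * (x i)⁻¹) - μ g| ≤ ε

end group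

/-! ### Restricted entropies of random permutations -/

variable {n : ℕ}

/-- the restriction of `h` to `D` -/
def res (D : Finset (Fin n)) (h : Perm (Fin n)) : Fin n → Option (Fin n) :=
  fun p => if p ∈ D then some (h p) else none

/-- entropy of the restriction to `D` -/
noncomputable def HD (ν : Perm (Fin n) → ℝ) (D : Finset (Fin n)) : ℝ := ent ν (res D)

/-- the first `k` points -/
def ini (n k : ℕ) : Finset (Fin n) := Finset.univ.filter fun i : Fin n => (i : ℕ) < k

/-- image of a set under a permutation -/
def im (π : Perm (Fin n)) (D : Finset (Fin n)) : Finset (Fin n) := D.image π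

/-- average entropy of the restriction to a random set of `k` points -/
noncomputable def AA (ν : Perm (Fin n) → ℝ) (k : ℕ) : ℝ :=
  (n.factorial : ℝ)⁻¹ * ∑ π : Perm (Fin n), HD ν (im π (ini n k))

/-- the normalized increments of `AA` -/
noncomputable def VV (ν : Perm (Fin n) → ℝ) (k : ℕ) : ℝ := (AA ν (k + 1) - AA ν k) / Real.log n

/-- the normalized conditional entropy of `h p` given the restriction of `h` to `D` -/
noncomputable def FF (ν : Perm (Fin n) → ℝ) (p : Fin n) (D : Finset (Fin n)) : ℝ :=
  (HD ν (insert p D) - HD ν D) / Real.log n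

/-- average of a function of a point and a set over all positions with `k` points in the set -/
noncomputable def avF (F : Fin n → Finset (Fin n) → ℝ) (k : ℕ) : ℝ :=
  if h : k < n then (n.factorial : ℝ)⁻¹ * ∑ π : Perm (Fin n), F (π ⟨k, h⟩) (im π (ini n k))
  else 0

/-- `P (g u = b | g = f on D)` for `g` with law `ν` -/
noncomputable def kern (ν : Perm (Fin n) → ℝ) (D : Finset (Fin n)) (f : Perm (Fin n))
    (b u : Fin n) : ℝ := by
  classical exact (∑ g : Perm (Fin n), if (∀ x ∈ D, g x = f x) ∧ g u = b then ν g else 0) /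
    (∑ g : Perm (Fin n), if (∀ x ∈ D, g x = f x) then ν g else 0)

/-- the conditional probability of the value actually taken at the point `π k` given the values on
the points `π i`, `i < k` -/
noncomputable def kap (ν : Perm (Fin n) → ℝ) (k : ℕ) (hk : k < n) (π f : Perm (Fin n)) : ℝ :=
  kern ν (im π (ini n k)) f (f (π ⟨k, hk⟩)) (π ⟨k, hk⟩)

/-- probability under `ω` that the tuple `a` is moved to the tuple `b` -/
noncomputable def prT {r : ℕ} (ω : Perm (Fin n) → ℝ) (a b : Fin r ↪ Fin n) : ℝ :=
  ∑ g ∈ Finset.univ.filter (fun g : Perm (Fin n) => ∀ i, g (a i) = b i), ω g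

/-- the law of `h₀⁻¹ h₁`, where `h₀, h₁` are conditionally independent given their common
restriction to a random set of `k` points -/
noncomputable def chi (ν : Perm (Fin n) → ℝ) (k : ℕ) : Perm (Fin n) → ℝ := fun σ =>
  (n.factorial : ℝ)⁻¹ * ∑ π : Perm (Fin n),
    law (ccp ν (res (im π (ini n k)))) (fun z => z.1⁻¹ * z.2) σ

/-- the law of `w⁻¹ c w` for independent `c, w` with laws `χ, ω` -/
noncomputable def cjl (ω χ : Perm (Fin n) → ℝ) : Perm (Fin n) → ℝ :=
  law (prd ω χ) (fun z => z.1⁻¹ * z.2 * z.1)

/-- the law of `g c g⁻¹` for independent `c, g` with laws `χ, ν` -/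
noncomputable def cjr (ν χ : Perm (Fin n) → ℝ) : Perm (Fin n) → ℝ :=
  law (prd ν χ) (fun z => z.1 * z.2 * z.1⁻¹)

/-- the orbit of `p` under the group generated by the `y i` -/
noncomputable def orb {m : ℕ} (y : Fin m → Perm (Fin n)) (p : Fin n) : Finset (Fin n) := by
  classical exact Finset.univ.filter fun q => ∃ g ∈ Subgroup.closure (Set.range y), g p = q

end Pool.Agent.Helper6.NX
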