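import Pool.Agent.Helper6.NX.Final

/-! Project NX: the explicit form of the main theorem.  The number of mixing steps of E3 and SPEC
does not depend on `α`, `γ'`. -/

set_option linter.unusedVariables false

namespace Pool.Agent.Helper6.NX

open Matrix Equiv Filter Topology Pool.Agent.Helper15.An
open scoped ComplexOrder
open Pool.Agent.Helper3.AK (lazyLaw)

/-- E3 with the number of steps depending on `ξ` only -/
def S_E3U : Prop := ∀ ξ : ℝ, 0 < ξ → ξ ≤ 1 / 4 → ∃ J : ℕ, ∀ γ' α : ℝ, 0 < γ' → γ' < 1 / 20 →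
  1 - γ' < α → α < 1 → ∀ᶠ n : ℕ in atTop, ∀ κ : Perm (Fin n) → ℝ, IsLaw κ →
  (∀ f : ℕ, f ≤ n → (n : ℝ) ^ (1 - γ') ≤ f → mom κ f ≤ (n : ℝ) ^ ((1 - ξ) * f)) →
  (∀ j : ℕ, (j : ℝ) ≤ (n : ℝ) ^ α → ∀ a b : Fin j ↪ Fin n,
    prT κ a b ≤ 2 / (n.descFactorial j : ℝ)) →
  ∀ f : ℕ, 1 ≤ f → f ≤ n → mom (itm κ J) f ≤ Real.exp (40 * f)

/-- SPEC with the number of steps depending on `J` only -/
def S_SPECU : Prop := ∀ J : ℕ, ∃ J' : ℕ, ∀ ξ γ' : ℝ, 0 < ξ → ξ ≤ 1 → 0 < γ' → γ' < 1 →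
  ∀ᶠ n : ℕ in atTop, ∀ κ : Perm (Fin n) → ℝ, IsLaw κ → (∀ g, g ∉ Alt n → κ g = 0) →
  (∀ f : ℕ, f ≤ n → (n : ℝ) ^ (1 - γ') ≤ f → mom κ f ≤ (n : ℝ) ^ ((1 - ξ) * f)) →
  (∀ f : ℕ, 1 ≤ f → f ≤ n → mom (itm κ J) f ≤ Real.exp (40 * f)) →
  ∀ F : PW (Perm (Fin n)),
  (∀ i, (((trace (wop (F.ρ i) κ)).re : ℝ) : ℂ) = trace (wop (F.ρ i) κ) ∧
    0 ≤ (trace (wop (F.ρ i) κ)).re ∧ (trace (wop (F.ρ i) κ)).re ≤ F.D i) →
  ∀ i, ¬ HasFix (F.ρ i) (stab n ⌈(n : ℝ) ^ (1 - γ')⌉₊) →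
    (F.D i : ℝ) * ((trace (wop (F.ρ i) κ)).re / F.D i) ^ (2 ^ J') ≤
      Real.exp (-((n : ℝ) ^ (1 - γ')))

theorem e3u (hmom0 : S_MOM0) (hmx : S_MX) (he1 : S_E1) (he2 : S_E2) : S_E3U := by
  intro ξ hξ hξ4
  -- the number of steps
  obtain ⟨J₁, hJ₁⟩ : ∃ J : ℕ, 3 / 10 ≤ (3 / 2 : ℝ) ^ J * ξ := by
    obtain ⟨J, hJ⟩ := pow_unbounded_of_one_lt (3 / 10 / ξ) (show (1 : ℝ) < 3 / 2 by norm_num)
    refine ⟨J, ?_⟩
    rw [div_lt_iff₀ hξ] at hJ
    exact hJ.le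
  refine ⟨J₁ + 2, fun γ' α hγ hγ20 hα hα1 => ?_⟩
  have hlog : ∀ᶠ n : ℕ in atTop, 16 / ξ ≤ Real.log n :=
    (Real.tendsto_log_atTop.comp tendsto_natCast_atTop_atTop).eventually_ge_atTop _
  have hpow : ∀ᶠ n : ℕ in atTop, (12 : ℝ) ≤ (n : ℝ) ^ (1 / 20 - γ') :=
    ((tendsto_rpow_atTop (by linarith : 0 < 1 / 20 - γ')).comp
      tendsto_natCast_atTop_atTop).eventually_ge_atTop _
  filter_upwards [hlog, hpow, eventually_ge_atTop 2] with n hlog hpow hn κ hκ hbig hsmall f hf1 hfn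
  have hn0 : (0 : ℝ) < n := by
    have : (2 : ℝ) ≤ n := by exact_mod_cast hn
    linarith
  have hn1 : (1 : ℝ) ≤ n := by
    have : (2 : ℝ) ≤ n := by exact_mod_cast hn
    linarith
  have hlogpos : 0 < Real.log n := lt_of_lt_of_le (by positivity) hlog
  set f₀ : ℕ := ⌈(n : ℝ) ^ (1 - γ')⌉₊ with hf₀
  have hf₀big : 12 * (n : ℝ) ^ (19 / 20 : ℝ) ≤ f₀ := by
    have h1 : (n : ℝ) ^ (1 - γ') = (n : ℝ) ^ (1 / 20 - γ') * (n : ℝ) ^ (19 / 20 : ℝ) := by
      rw [← Real.rpow_add hn0]; congr 1; ring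
    calc 12 * (n : ℝ) ^ (19 / 20 : ℝ) ≤ (n : ℝ) ^ (1 / 20 - γ') * (n : ℝ) ^ (19 / 20 : ℝ) :=
          mul_le_mul_of_nonneg_right hpow (by positivity)
      _ = (n : ℝ) ^ (1 - γ') := h1.symm
      _ ≤ f₀ := Nat.le_ceil _
  have hmom2 : ∀ i j : ℕ, j < f₀ → mom (itm κ i) j ≤ 2 := by
    intro i j hj
    have hj' : (j : ℝ) ≤ (n : ℝ) ^ α :=
      (Nat.lt_ceil.1 hj).le.trans (Real.rpow_le_rpow_of_exponent_le hn1 hα.le)
    exact Pool.Agent.Helper73.NX.mom_le_two hmom0 ((Pool.Agent.Helper73.NX.itm_props hmx hκ i).2 j _ (hsmall j hj'))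
  -- the losses
  have hL : 8 / Real.log n ≤ ξ / 2 := by
    rw [div_le_iff₀ hlogpos]
    rw [div_le_iff₀ hξ] at hlog
    linarith
  have hmain : ∀ i : ℕ, ∀ j : ℕ, f₀ ≤ j → j ≤ n →
      mom (itm κ i) j ≤ (n : ℝ) ^ ((1 - min ((3 / 2 : ℝ) ^ i * ξ) (3 / 10)) * j) := by
    intro i
    induction i with
    | zero =>
      intro j hj hjn
      have h1 : min ((3 / 2 : ℝ) ^ 0 * ξ) (3 / 10) = ξ := by
        rw [pow_zero, one_mul]; exact min_eq_left (by linarith)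
      rw [h1]
      refine hbig j hjn ?_
      exact (Nat.le_ceil _).trans (by exact_mod_cast hj)
    | succ i ih =>
      intro j hj hjn
      set x := min ((3 / 2 : ℝ) ^ i * ξ) (3 / 10) with hx
      have hp1 : (1 : ℝ) ≤ (3 / 2 : ℝ) ^ i := one_le_pow₀ (by norm_num)
      have hxξ : ξ ≤ x := by
        refine le_min ?_ (by linarith)
        nlinarith
      have hx1 : x ≤ (3 / 2 : ℝ) ^ i * ξ := min_le_left _ _
      have hx2 : x ≤ 3 / 10 := min_le_right _ _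
      have h1 := he1 n f₀ (itm κ i) x (by omega) (Pool.Agent.Helper73.NX.itm_props hmx hκ i).1 (by linarith)
        (hmom2 i) ih j hjn
      have h2 : Real.exp (8 * j) = (n : ℝ) ^ (8 / Real.log n * j) := by
        rw [Real.rpow_def_of_pos hn0]
        congr 1
        field_simp
      rw [h2, ← Real.rpow_add hn0] at h1
      refine h1.trans (Real.rpow_le_rpow_of_exponent_le hn1 ?_)
      rw [← add_mul]
      refine mul_le_mul_of_nonneg_right ?_ (Nat.cast_nonneg j)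
      have h3 : (3 / 2 : ℝ) * x = min ((3 / 2 : ℝ) ^ (i + 1) * ξ) (9 / 20) := by
        rw [hx, mul_min_of_nonneg _ _ (by norm_num : (0 : ℝ) ≤ 3 / 2)]
        congr 1
        · ring
        · norm_num
      have h4 : min ((3 / 2 : ℝ) ^ (i + 1) * ξ) (3 / 10) ≤ 3 / 2 * x := by
        rw [h3]; exact min_le_min le_rfl (by norm_num)
      have h5 : min ((3 / 2 : ℝ) ^ (i + 1) * ξ) (3 / 10) ≤ 3 / 10 := min_le_right _ _
      have h6 : max (1 - 2 * x) (1 / 2) ≤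
          1 - min ((3 / 2 : ℝ) ^ (i + 1) * ξ) (3 / 10) - 8 / Real.log n := by
        refine max_le ?_ ?_ <;> linarith
      linarith
  have hlast : ∀ j : ℕ, f₀ ≤ j → j ≤ n →
      mom (itm κ J₁) j ≤ (n : ℝ) ^ ((7 / 10 : ℝ) * j) := by
    intro j hj hjn
    have h := hmain J₁ j hj hjn
    rw [min_eq_right hJ₁] at h
    have h7 : (1 - 3 / 10 : ℝ) = 7 / 10 := by norm_num
    rwa [h7] at h
  exact he2 n f₀ (itm κ J₁) (by omega) (Pool.Agent.Helper73.NX.itm_props hmx hκ J₁).1 hf₀big (hmom2 J₁) hlast f hf1 hfn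

theorem specu (hf1 : S_F1) (hf2 : S_F2) (hf3 : S_F3) (hit : S_IT) (hmx : S_MX) : S_SPECU := by
  intro J
  set c : ℝ := 1 / (4 * Real.exp 84) with hc
  have hE : (8 : ℝ) ≤ Real.exp 84 :=
    Pool.Agent.Helper50.NX.eight_le_exp_three.trans (Real.exp_le_exp.mpr (by norm_num))
  have hEpos : 0 < Real.exp 84 := Real.exp_pos _
  have hc0 : 0 < c := by positivity
  have hc32 : c ≤ 1 / 32 := by
    rw [hc]
    apply one_div_le_one_div_of_le (by norm_num)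
    linarith
  obtain ⟨c₇, hc7, hF2⟩ := hf2 c hc0 hc32
  obtain ⟨J2, hJ2⟩ : ∃ J2 : ℕ, 42 ≤ 2 ^ J2 * c₇ := by
    obtain ⟨N, hN⟩ := exists_nat_ge (42 / c₇)
    refine ⟨N, ?_⟩
    have h1 : (N : ℝ) ≤ 2 ^ N := by exact_mod_cast (Nat.lt_two_pow_self (n := N)).le
    have h2 : 42 / c₇ ≤ 2 ^ N := hN.trans h1
    rwa [div_le_iff₀ hc7] at h2
  refine ⟨max (J + 1) J2, fun ξ γ' hξ0 hξ1 hγ0 hγ1 => ?_⟩
  have hlarge : ∀ᶠ n : ℕ in atTop, (40 : ℝ) ≤ (n : ℝ) ^ γ' :=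
    ((tendsto_rpow_atTop hγ0).comp tendsto_natCast_atTop_atTop).eventually_ge_atTop 40
  filter_upwards [hF2 ξ hξ0 hξ1, hlarge, eventually_ge_atTop 1] with n hn2 hn40 hn1
  intro κ hκ hs H1 H2 F H3 i hi
  have hn1' : (1 : ℝ) ≤ n := by exact_mod_cast hn1
  have hn0 : (0 : ℝ) < n := by linarith
  have hD : 0 < F.D i := (F.irr i).pos
  have hD' : (0 : ℝ) < F.D i := by exact_mod_cast hD
  set D : ℝ := ((F.D i : ℕ) : ℝ) with hDdef
  set τ : ℝ := (trace (wop (F.ρ i) κ)).re / D with hτ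
  have hτ0 : 0 ≤ τ := div_nonneg (H3 i).2.1 hD'.le
  have hτ1 : τ ≤ 1 := by
    rw [hτ, div_le_one hD']
    exact (H3 i).2.2
  -- the traces of the iterated mixture
  have hlaw := Pool.Agent.Helper50.NX.itm_law hmx κ hκ hs J
  have htr : ∀ i', (trace (wop (F.ρ i') (itm κ J))).re =
      F.D i' * ((trace (wop (F.ρ i') κ)).re / F.D i') ^ (2 ^ J) :=
    fun i' => hit n (F.D i') J (F.ρ i') κ (F.irr i') hκ (H3 i').1
  have hpos : ∀ i', 0 ≤ (trace (wop (F.ρ i') (itm κ J))).re := by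
    intro i'
    rw [htr i']
    exact mul_nonneg (Nat.cast_nonneg _)
      (pow_nonneg (div_nonneg (H3 i').2.1 (Nat.cast_nonneg _)) _)
  obtain ⟨hA, hB⟩ := hf1 n F (itm κ J) hlaw.1 hlaw.2 hpos
  -- larger exponents are harmless
  have hmono : ∀ a b : ℕ, a ≤ b → D * τ ^ b ≤ D * τ ^ a := fun a b hab =>
    mul_le_mul_of_nonneg_left (pow_le_pow_of_le_one hτ0 hτ1 hab) hD'.le
  have hpn : (n : ℝ) ^ (1 - γ') ≤ n := by
    calc (n : ℝ) ^ (1 - γ') ≤ (n : ℝ) ^ (1 : ℝ) :=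
          Real.rpow_le_rpow_of_exponent_le hn1' (by linarith)
      _ = n := Real.rpow_one _
  have hen : Real.exp (-(n : ℝ)) ≤ Real.exp (-((n : ℝ) ^ (1 - γ'))) :=
    Real.exp_le_exp.mpr (by linarith)
  -- the level
  classical
  have hex : ∃ r, HasFix (F.ρ i) (stab n r) := ⟨n, hasFix_top hD (F.ρ i)⟩
  set r := Nat.find hex with hr
  have hrfix : HasFix (F.ρ i) (stab n r) := Nat.find_spec hex
  have hrn : r ≤ n := Nat.find_min' hex (hasFix_top hD (F.ρ i))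
  have hlt : ∀ s, s < r → ¬ HasFix (F.ρ i) (stab n s) := fun s hs' => Nat.find_min hex hs'
  have hmr : ⌈(n : ℝ) ^ (1 - γ')⌉₊ < r := by
    by_contra hcon
    push Not at hcon
    exact hi (hrfix.mono hcon)
  have hpr : (n : ℝ) ^ (1 - γ') ≤ r := by
    calc (n : ℝ) ^ (1 - γ') ≤ (⌈(n : ℝ) ^ (1 - γ')⌉₊ : ℝ) := Nat.le_ceil _
      _ ≤ r := by exact_mod_cast hmr.le
  have hr1 : 1 ≤ r := by omega
  have hr1' : (1 : ℝ) ≤ r := by exact_mod_cast hr1
  by_cases hcase : (r : ℝ) ≤ c * n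
  · -- case (a)
    have hbig : 4 * Real.exp 84 * r ≤ n := by
      rw [hc, div_mul_eq_mul_div, one_mul, le_div_iff₀ (by positivity)] at hcase
      linarith
    have h32 : 32 * (r : ℝ) ≤ n := by nlinarith
    have h32' : 32 * r ≤ n := by exact_mod_cast h32
    have e1 := hf3 n r (F.D i) (F.ρ i) hr1 (by omega) (F.irr i).unit hrfix
      (hlt (r - 1) (by omega))
    have e2 : Real.exp (84 * r) ≤ 2 * D := by
      refine le_trans ?_ e1
      rw [mul_comm, Real.exp_nat_mul]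
      refine pow_le_pow_left₀ hEpos.le ?_ r
      rw [le_div_iff₀ (by linarith)]
      nlinarith
    have e3 : D * τ ^ (2 ^ J) ≤ 2 * Real.exp (40 * r) := by
      have h1 := hA r hrn i hrfix
      rw [htr i] at h1
      have h2 := H2 r hr1 hrn
      linarith
    have e4 := Pool.Agent.Helper50.NX.case_a (2 ^ J) hD' hτ0 hr1' e3 e2
    rw [← pow_succ] at e4
    calc D * τ ^ (2 ^ max (J + 1) J2) ≤ D * τ ^ (2 ^ (J + 1)) :=
          hmono _ _ (Nat.pow_le_pow_right (by norm_num) (le_max_left _ _))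
      _ ≤ Real.exp (-(r : ℝ)) := e4
      _ ≤ Real.exp (-((n : ℝ) ^ (1 - γ'))) := Real.exp_le_exp.mpr (by linarith)
  · push Not at hcase
    refine le_trans ?_ hen
    by_cases hDn : D ≤ Real.exp (41 * n)
    · -- case (b)
      have hfl : ⌊c * (n : ℝ)⌋₊ < r := by
        rw [Nat.floor_lt (by positivity)]
        exact hcase
      have h1 := hn2 κ hκ (fun f hf hf40 => by
        refine H1 f hf ?_
        have h2 : (n : ℝ) ^ (1 - γ') * (n : ℝ) ^ γ' = n := by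
          rw [← Real.rpow_add hn0]
          simp
        have h3 : (n : ℝ) ≤ 40 * f := by exact_mod_cast hf40
        have h4 : 0 ≤ (n : ℝ) ^ (1 - γ') := by positivity
        nlinarith) (F.D i) (F.ρ i) (F.irr i).unit (hlt _ hfl)
      have h2 : τ ≤ Real.exp (-(c₇ * n)) := by
        rw [hτ, div_le_iff₀ hD']
        exact h1
      calc D * τ ^ (2 ^ max (J + 1) J2) ≤ D * τ ^ (2 ^ J2) :=
            hmono _ _ (Nat.pow_le_pow_right (by norm_num) (le_max_right _ _))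
        _ ≤ Real.exp (41 * n) * Real.exp (-(c₇ * n)) ^ (2 ^ J2) :=
            mul_le_mul hDn (pow_le_pow_left₀ hτ0 h2 _) (by positivity) (Real.exp_pos _).le
        _ = Real.exp (41 * n + ((2 ^ J2 : ℕ) : ℝ) * (-(c₇ * n))) := by
            rw [Real.exp_add, ← Real.exp_nat_mul]
        _ ≤ Real.exp (-(n : ℝ)) := by
            apply Real.exp_le_exp.mpr
            push_cast
            nlinarith
    · -- case (c)
      push Not at hDn
      have h1 := hB i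
      rw [htr i] at h1
      have h2 := H2 n hn1 le_rfl
      have h3 : D * (D * τ ^ (2 ^ J)) ≤ Real.exp (40 * n) := h1.trans h2
      have h4 : D * τ ^ (2 ^ J) ≤ Real.exp (-(n : ℝ)) := by
        have h5 : Real.exp (40 * n) = Real.exp (41 * n) * Real.exp (-(n : ℝ)) := by
          rw [← Real.exp_add]; ring_nf
        have h6 : Real.exp (41 * n) * Real.exp (-(n : ℝ)) ≤ D * Real.exp (-(n : ℝ)) :=
          mul_le_mul_of_nonneg_right hDn.le (Real.exp_pos _).le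
        rw [h5] at h3
        exact le_of_mul_le_mul_left (h3.trans h6) hD'
      calc D * τ ^ (2 ^ max (J + 1) J2) ≤ D * τ ^ (2 ^ J) :=
            hmono _ _ (Nat.pow_le_pow_right (by norm_num)
              ((Nat.le_succ J).trans (le_max_left _ _)))
        _ ≤ Real.exp (-(n : ℝ)) := h4

end Pool.Agent.Helper6.NX
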