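import Pool.Agent.Helper6.NX.Defs
import Pool.Agent.Helper6.GP.SmallSupp

/-! Project NX, goals A: entropies of random variables on finite probability spaces, and the
passage from nearly invariant measures of small entropy to measures of small tripling. -/

set_option linter.unusedVariables false

namespace Pool.Agent.Helper6.NX

open Equiv Filter Topology

/-- **L1** (basics).
Proof. `law P X a` is a sum of nonnegative terms, one of which is `P ω` for `a = X ω`; it is at most `∑ P = 1`.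
Each term `- P ω log (law P X (X ω))` is `≥ 0` because `law ≤ 1` (`Real.log_nonpos`). (4) `∑_ω φ (X ω) P ω` over a finset `s` of values containing all
`X ω`: `∑_ω P ω φ(X ω) = ∑_{a ∈ s} law P X a * φ a` (`Finset.sum_comm`). -/
def S_L1 : Prop := ∀ (Ω α : Type) [Fintype Ω] (P : Ω → ℝ) (X : Ω → α), IsLaw P →
  (∀ a, 0 ≤ law P X a) ∧ (∀ ω, P ω ≤ law P X (X ω)) ∧ (∀ a, law P X a ≤ 1) ∧ 0 ≤ ent P X ∧
  (∀ (s : Finset α) (φ : α → ℝ), (∀ ω, 0 < P ω → X ω ∈ s) →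
    ∑ ω, P ω * φ (X ω) = ∑ a ∈ s, law P X a * φ a)

/-- **L2** (the entropy is monotone in the information).
Proof. If `0 < P ω` then `law P X (X ω) ≤ law P Y (Y ω)`: every `ω'` with `X ω' = X ω` and `P ω' ≠ 0` has `Y ω' = Y ω`, so the sum defining the left side is termwise
at most the sum defining the right side. `Real.log_le_log` (the left side is `≥ P ω > 0`); terms with `P ω = 0` are `0`. -/
def S_L2 : Prop := ∀ (Ω α β : Type) [Fintype Ω] (P : Ω → ℝ) (X : Ω → α) (Y : Ω → β), IsLaw P →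
  (∀ ω ω', 0 < P ω → 0 < P ω' → X ω = X ω' → Y ω = Y ω') → ent P Y ≤ ent P X

/-- **L3** (Gibbs' inequality, conditional form).
Proof. For `0 < P ω` put `l ω = law P (X,Y) (X ω, Y ω) / law P Y (Y ω) > 0`.  The claim is `∑_ω P ω log (q (Y ω) (X ω) / l ω) ≤ 0`; by `log t ≤ t - 1` it is enough that
`∑_{P ω > 0} P ω q (Y ω) (X ω) / l ω ≤ 1`.  Group the `ω` with `P ω > 0` by the value `(X ω, Y ω) = (a, b)`: the group contributes `law P (X,Y) (a,b) * q b a * law P Y b / law P (X,Y) (a,b) = law P Y b * q b a`;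
sum over `a` (in the finset of values `X ω`) with `∑_a q b a ≤ 1` and then over `b` in the finset of values `Y ω`: at most `∑_b law P Y b = 1`. -/
def S_L3 : Prop := ∀ (Ω α β : Type) [Fintype Ω] (P : Ω → ℝ) (X : Ω → α) (Y : Ω → β)
  (q : β → α → ℝ), IsLaw P → (∀ b a, 0 ≤ q b a) → (∀ b, ∀ s : Finset α, ∑ a ∈ s, q b a ≤ 1) →
  (∀ ω, 0 < P ω → 0 < q (Y ω) (X ω)) →
  cent P X Y ≤ -∑ ω, P ω * Real.log (q (Y ω) (X ω))

/-- **L3C** (counting).  May assume S_L3.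
Proof. (1) S_L3 with `q b a = 1 / (s b).card` for `a ∈ s b` and `0` otherwise.  (2) the same with `Y` constant (`β = Unit`; `ent P` of a constant is `0`, and `ent P (fun ω => (X ω, ())) = ent P X`: the laws agree).
(3) from (2) with `s = Finset.univ.image X` or `Finset.univ`. -/
def S_L3C : Prop := ∀ (Ω α β : Type) [Fintype Ω] (P : Ω → ℝ) (X : Ω → α) (Y : Ω → β), IsLaw P →
  (∀ s : β → Finset α, (∀ ω, 0 < P ω → X ω ∈ s (Y ω)) →
    cent P X Y ≤ ∑ ω, P ω * Real.log ((s (Y ω)).card : ℝ)) ∧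
  (∀ s : Finset α, (∀ ω, 0 < P ω → X ω ∈ s) → ent P X ≤ Real.log (s.card : ℝ)) ∧
  ent P (fun _ => ()) = 0 ∧ H P ≤ Real.log (Fintype.card Ω : ℝ)

/-- **L4** (submodularity).  May assume S_L3.
Proof. `cent P X (Y, Z) ≤ cent P X Z`: S_L3 with the conditioning variable `(Y, Z)` and the kernel `q (b, c) a = law P (X,Z) (a,c) / law P Z c` (`0` if the denominator is `0`; for fixed `c` the sum over `a ∈ s` of
`law P (X,Z) (a,c)` is at most `law P Z c`, because the events are disjoint): the right side `-∑ P log q` is `cent P X Z`. -/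
def S_L4 : Prop := ∀ (Ω α β γ : Type) [Fintype Ω] (P : Ω → ℝ) (X : Ω → α) (Y : Ω → β) (Z : Ω → γ),
  IsLaw P → cent P X (fun ω => (Y ω, Z ω)) ≤ cent P X Z ∧
  ent P (fun ω => (X ω, Y ω, Z ω)) + ent P Z ≤
    ent P (fun ω => (X ω, Z ω)) + ent P (fun ω => (Y ω, Z ω))

/-- **L5** (transport).
Proof. `law (law P f) X a = ∑_{ω'} 1[X ω' = a] ∑_ω 1[f ω = ω'] P ω = law P (X ∘ f) a`; (2) and (4) in the same way. -/
def S_L5 : Prop := ∀ (Ω Ω' α : Type) [Fintype Ω] [Fintype Ω'] (P : Ω → ℝ) (f : Ω → Ω')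
  (X : Ω' → α), IsLaw P → IsLaw (law P f) ∧ (∀ a, law (law P f) X a = law P (fun ω => X (f ω)) a) ∧
  ent (law P f) X = ent P (fun ω => X (f ω)) ∧
  ∀ φ : Ω' → ℝ, ∑ ω', law P f ω' * φ ω' = ∑ ω, P ω * φ (f ω)

/-- **L7** (mixtures and products).
Proof. `law (mixl p Q) ((X,Y),i) ((a,b),i) = p i * law (Q i) (X i, Y i) (a,b)`, `law (mixl p Q) (Y,i) (b,i) = p i * law (Q i) (Y i) b`; so in the difference of the two entropies the `log (p i)` cancel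
(for `p i > 0` and `Q i ω > 0`).  Products are the mixtures with constant `Q`; `ent (prd P Q) (X z.1, Y z.2) = ent P X + ent Q Y` since `law (prd P Q) _ (a,b) = law P X a * law Q Y b`.
The remaining claims are sums over a product. -/
def S_L7 : Prop := ∀ (I Ω α β γ : Type) [Fintype I] [Fintype Ω] (p : I → ℝ) (Q : I → Ω → ℝ)
  (X : I → Ω → α) (Y : I → Ω → β) (Z : I → γ), IsLaw p → (∀ i, IsLaw (Q i)) →
  IsLaw (mixl p Q) ∧
  cent (mixl p Q) (fun z => X z.1 z.2) (fun z => (Y z.1 z.2, z.1)) =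
    ∑ i, p i * cent (Q i) (X i) (Y i) ∧
  cent (mixl p Q) (fun z => X z.1 z.2) (fun z => z.1) = ∑ i, p i * ent (Q i) (X i) ∧
  ent (mixl p Q) (fun z => Z z.1) = ent p Z ∧
  ∀ (R : Ω → ℝ) (X' : Ω → α), IsLaw R → IsLaw (prd p R) ∧
    ent (prd p R) (fun z => (Z z.1, X' z.2)) = ent p Z + ent R X' ∧
    ent (prd p R) (fun z => Z z.1) = ent p Z ∧ ent (prd p R) (fun z => X' z.2) = ent R X'

/-- **L8** (conditionally independent copies).
Proof. `∑_{z} ccp P Y z = ∑_b (law P Y b)² / law P Y b = 1` over the values `b` of `Y` with positive probability; the marginal at `ω` is `P ω * law P Y (Y ω) / law P Y (Y ω) = P ω` (if `law P Y (Y ω) = 0` then `P ω = 0`).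
For the entropy: for `ccp z > 0`: `law (ccp) ((X z.1, X' z.2), Y z.1) ((a,a'),b) = law P (X,Y) (a,b) * law P (X',Y) (a',b) / law P Y b`, and `law (ccp) (Y z.1) b = law P Y b`; take logarithms and use the two marginals. -/
def S_L8 : Prop := ∀ (Ω α α' β : Type) [Fintype Ω] (P : Ω → ℝ) (X : Ω → α) (X' : Ω → α')
  (Y : Ω → β), IsLaw P → IsLaw (ccp P Y) ∧ law (ccp P Y) Prod.fst = P ∧
  law (ccp P Y) Prod.snd = P ∧ (∀ z, ccp P Y (z.2, z.1) = ccp P Y z) ∧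
  (∀ z, 0 < ccp P Y z → Y z.1 = Y z.2) ∧
  cent (ccp P Y) (fun z => (X z.1, X' z.2)) (fun z => Y z.1) = cent P X Y + cent P X' Y

/-- **L9** (continuity of the conditional entropy in total variation).  May assume S_L1, S_L3C, S_L4, S_L7.
Proof. Let `t₀ = (1/2) ∑ |P - Q| ≤ min t 1`.  If `t₀ = 0` then `P = Q`.  If `t₀ = 1` then `t ≥ 1` and `cent P X Y ≤ log N ≤ t log N` (L3C, `1 ≤ N`), `cent Q X Y ≥ 0` (L2 or L3C).  Let `0 < t₀ < 1`, `R = min (P, Q) / (1 - t₀)`,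
`P' = (P - min (P,Q)) / t₀`, laws, `P = (1-t₀) R + t₀ P'`, and `Q' = (Q - min(P,Q))/t₀`.  On `Bool × Ω` let `M = mixl (1-t₀, t₀) (R, P')`; the projection to `Ω` has law `P`.  With `B` the first coordinate
`cent P X Y = cent M X Y ≤ cent M (X,B) Y = cent M X (Y,B) + cent M B Y ≤ (1-t₀) cent R X Y + t₀ cent P' X Y + ent M B` (L7) and `ent M B = h(t₀) = - t₀ log t₀ - (1-t₀) log (1-t₀) ≤ 2 √t₀`
(`- t log t ≤ (2/e) √t` from `log s ≤ s/e` with `s = t^(-1/2)`, and `-(1-t) log (1-t) ≤ t ≤ √t`), `cent P' X Y ≤ log N` (L3C).  In the same way `cent Q X Y ≥ cent M' X (Y,B) = (1-t₀) cent R X Y + t₀ cent Q' X Y ≥ (1-t₀) cent R X Y` (L4; conditional entropies are `≥ 0` by L2).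
Subtract; `t₀ ≤ t`. -/
def S_L9 : Prop := ∀ (Ω α β : Type) [Fintype Ω] (P Q : Ω → ℝ) (X : Ω → α) (Y : Ω → β) (t : ℝ)
  (N : ℕ) (s : β → Finset α), IsLaw P → IsLaw Q → ∑ ω, |P ω - Q ω| ≤ 2 * t → 1 ≤ N →
  (∀ b, (s b).card ≤ N) → (∀ ω, X ω ∈ s (Y ω)) →
  cent P X Y ≤ cent Q X Y + t * Real.log N + 2 * √t

/-- **L9H** (continuity of the entropy).  May assume S_L3C, S_L9.
Proof. S_L9 with `X = id`, `Y` constant, `s = Finset.univ`; `cent P (fun ω => ω) (fun _ => ()) = H P` (the entropy of a constant is `0`, and `ent P (fun ω => (ω, ())) = H P`). -/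
def S_L9H : Prop := ∀ (Ω : Type) [Fintype Ω] (P Q : Ω → ℝ) (t : ℝ), IsLaw P → IsLaw Q →
  ∑ ω, |P ω - Q ω| ≤ 2 * t → H P ≤ H Q + t * Real.log (Fintype.card Ω : ℝ) + 2 * √t

/-- **M0** (a nearly invariant measure has large entropy, from the gap on functions of small support).
Proof. `f g = max (√(μ g) - A^(-1/2)) 0`.  Its support is contained in `{μ g > 1/A}`, which has at most `A` elements.  `|max a 0 - max b 0| ≤ |a - b|`, and `(√a - √b)² ≤ |a - b|`, so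
`∑_g (f (g * x_i) - f g)² ≤ ∑_g |μ (g * x_i) - μ g| = ∑_g |μ g - μ (g * x_i⁻¹)| ≤ ε` (substitute `g := g * x_i⁻¹`).  The gap hypothesis, with `∑_g f g f (g x_i⁻¹) = ∑_g f (g x_i) f g`, reads
`2 k ε ∑ f² ≤ ∑_i ∑_g (f (g x_i) - f g)² ≤ k ε`: here `∑_g (f(g x_i) - f g)² = 2 ∑ f² - 2 ∑ f g f (g x_i)`.  So `∑ f² ≤ 1/2`.  If `μ g ≥ 100/A` then `A^(-1/2) ≤ √(μ g)/10`, so `f g ≥ (9/10) √(μ g)` and `f g² ≥ (81/100) μ g`.  Hence the set
`B = {μ g ≥ 100/A}` has `μ(B) ≤ 50/81 ≤ 5/8`, and `H μ = -∑ μ log μ ≥ -∑_{g ∉ B, μ g > 0} μ g log (μ g) ≥ (3/8) (log A - log 100)` (all terms `≥ 0`; `A ≥ 100` makes the bound meaningful, `μ g < 100/A`). -/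
def S_M0 : Prop := ∀ (G : Type) [Group G] [Fintype G] (k : ℕ) (x : Fin k → G) (A ε : ℝ)
  (μ : G → ℝ), 1 ≤ k → 100 ≤ A → 0 < ε →
  (∀ f : G → ℝ, (Nat.card {g : G // f g ≠ 0} : ℝ) ≤ A →
    ∑ g, f g * ((2 * (k : ℝ))⁻¹ * ∑ i, (f (g * x i) + f (g * (x i)⁻¹))) ≤
      (1 - ε) * ∑ g, f g ^ 2) →
  IsLaw μ → NI x μ ε → 3 / 8 * (Real.log A - Real.log 100) ≤ H μ

/-- **M0S** (the gap on functions of small support on the symmetric group from the alternating group).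
Proof. The support of `f : Perm (Fin n) → ℝ` splits into the two cosets of `Alt n`: `f₀ g = f g`, `f₁ g = f (τ g)` on `Alt n`, `τ` a fixed transposition (`2 ≤ n`); both have at most `A` nonzero values and right multiplication by
`x_i ∈ Alt n` preserves the cosets.  Add the two inequalities. (`walk` is `Pool.Agent.Helper6.FixK.walk`.) -/
def S_M0S : Prop := ∀ (n k : ℕ) (x : Fin k → Pool.Agent.Helper15.An.Alt n) (A ε : ℝ), 2 ≤ n →
  1 ≤ k → Pool.Agent.Helper6.GP.SmallSupp x A ε →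
  ∀ f : Perm (Fin n) → ℝ, (Nat.card {g : Perm (Fin n) // f g ≠ 0} : ℝ) ≤ A →
    ∑ g, f g * ((2 * (k : ℝ))⁻¹ * ∑ i, (f (g * (x i : Perm (Fin n))) +
      f (g * (x i : Perm (Fin n))⁻¹))) ≤ (1 - ε) * ∑ g, f g ^ 2

/-- **WIN** (a window of scales).
Proof. Suppose there is no such `μ, ε`.  Claim: for every `j ≤ I` there is a law `μ` with `NI x μ (e₀ / M^(I-j))` and `H μ ≤ (1-τ)^j H₀`.  `j = 0`: the hypothesis.  Step `j → j+1 ≤ I`: `ε = e₀ / M^(I-j)` satisfies `0 < ε`, `M ε = e₀/M^(I-j-1) ≤ e₀`, and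
`H μ ≤ (1-τ)^j H₀ ≤ H₀` (`0 ≤ H₀` since `0 ≤ H`), so by assumption there is a law `μ'` with `NI x μ' (M ε)` and `H μ' < (1-τ) H μ ≤ (1-τ)^(j+1) H₀`.  For `j = I`: `NI x μ e₀`, so `Hm ≤ H μ ≤ (1-τ)^I H₀ < Hm`, a contradiction. -/
def S_WIN : Prop := ∀ (G : Type) [Group G] [Fintype G] (k I : ℕ) (x : Fin k → G)
  (M τ e₀ H₀ Hm : ℝ), 1 ≤ M → 0 < τ → τ < 1 → 0 < e₀ →
  (∃ μ : G → ℝ, IsLaw μ ∧ NI x μ (e₀ / M ^ I) ∧ H μ ≤ H₀) → (1 - τ) ^ I * H₀ < Hm →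
  (∀ μ : G → ℝ, IsLaw μ → NI x μ e₀ → Hm ≤ H μ) →
  ∃ (μ : G → ℝ) (ε : ℝ), IsLaw μ ∧ 0 < ε ∧ M * ε ≤ e₀ ∧ NI x μ ε ∧ H μ ≤ H₀ ∧
    ∀ μ' : G → ℝ, IsLaw μ' → NI x μ' (M * ε) → (1 - τ) * H μ ≤ H μ'

/-- the space of `((a₀, a₁), (a', a₁'))` with `a₁ a₀⁻¹ = a₁' a'⁻¹`, conditionally independent given
this quotient -/
noncomputable def quad {G : Type} [Group G] [Fintype G] (μ : G → ℝ) : (G × G) × (G × G) → ℝ :=
  ccp (prd μ μ) (fun a => a.2 * a.1⁻¹)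

/-- the law of `h = a₀⁻¹ a'` -/
noncomputable def hlaw {G : Type} [Group G] [Fintype G] (μ : G → ℝ) : G → ℝ :=
  law (quad μ) (fun z => z.1.1⁻¹ * z.2.1)

/-- **M1A** (near invariance of `hlaw`, and the conditional entropy of `a₀`).  May assume S_L1, S_L7, S_L8.
Proof. Let `Y a = a.2 * a.1⁻¹`, `Z g = law (prd μ μ) Y g = ∑_a μ a μ (g a)`, `q_g a = μ a μ (g a) / Z g` (the conditional law of `a₀` given `g`).  `Y` is unchanged when both coordinates are multiplied on the right by `x_i`, so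
`∑_g Z g ∑_a |q_g (a x_i⁻¹) - q_g a| = ∑_g ∑_a |μ (a x_i⁻¹) μ (g a x_i⁻¹) - μ a μ (g a)| ≤ 2 ε` (triangle inequality, substitute `b = g a`).  (1) Symmetry: swap the two pairs.
(2) `hlaw μ h = ∑_g Z g ∑_a q_g a q_g (a h)`, so `∑_h |hlaw μ (h x_i⁻¹) - hlaw μ h| ≤ ∑_g Z g ∑_a q_g a ∑_b |q_g (b x_i⁻¹) - q_g b| ≤ 2 ε`.
(3) Markov: the total weight of the `g` with `∑_i ∑_a |q_g (a x_i⁻¹) - q_g a| > 2 k ε / τ` is at most `τ`; for the other `g` (with `Z g > 0`) the law `q_g` satisfies `NI x q_g (2k/τ ε)`, so `H q_g ≥ (1-τ) H μ`.  So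
`cent (prd μ μ) (a₀) Y = ∑_g Z g H q_g ≥ (1-τ)² H μ ≥ (1-2τ) H μ` (`0 ≤ H`). -/
def S_M1A : Prop := ∀ (G : Type) [Group G] [Fintype G] (k : ℕ) (x : Fin k → G) (τ ε : ℝ)
  (μ : G → ℝ), 1 ≤ k → 0 < τ → τ ≤ 1 / 20 → 0 < ε → IsLaw μ → NI x μ ε →
  (∀ μ' : G → ℝ, IsLaw μ' → NI x μ' (2 * k / τ * ε) → (1 - τ) * H μ ≤ H μ') →
  IsLaw (hlaw μ) ∧ (∀ h, hlaw μ h⁻¹ = hlaw μ h) ∧ NI x (hlaw μ) (2 * ε) ∧
  (1 - 2 * τ) * H μ ≤ cent (prd μ μ) (fun a => a.1) (fun a => a.2 * a.1⁻¹)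

/-- **M1B** (entropies).  May assume S_L2, S_L4, S_L5, S_L7, S_L8.
Proof. `S = H μ`, `Hc = cent (prd μ μ) (a₀) (a₁ a₀⁻¹)`.  `(a₀, a₁)` and `(a₀, g)` determine each other, so `ent g = 2 S - Hc`.  On `quad μ`: `a₀, a₁, a', a₁'` have law `μ` each; all four together determine and are determined by `(a₀, a', g)`, so their joint entropy
is `ent g + 2 Hc = 2 S + Hc` (L8).  `h = a₀⁻¹ a' = a₁⁻¹ a₁'` (as `a₁ = g a₀`, `a₁' = g a'`) is a function of `(a₀, a')` and of `(a₁, a₁')`; submodularity (L4 with `Z = h`): `ent (all) + ent h ≤ ent (a₀, a') + ent (a₁, a₁')`.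
(1) `≤ 4 S`, so `ent h ≤ 4 S - 2 S - Hc = 2 S - Hc`.  (2) with `ent (a₁, a₁') ≤ 2 S`: `ent (a₀, a') ≥ Hc + ent h`, i.e. `cent (a₀) (h) ≥ Hc` since `(a₀, a')` and `(a₀, h)` determine each other.
(3) Let `ν = hlaw μ`.  Take three independent copies `(b_i, b_i')`, `i = 1, 2, 3`, of `(a₀, a')` and `h_i = b_i⁻¹ b_i'`; `h₁ h₂ h₃ = b₁⁻¹ G₁ G₂ b₃'` with `G_i = b_i' b_{i+1}⁻¹`, and `h₁h₂h₃` has law `conv (conv ν ν) ν`.  `G₁` is a product `b₁' b₂⁻¹` of independent elements,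
`b₁'` and `b₂` with law `μ`, so `ent G₁ = ent g = 2 S - Hc`, the same for `G₂`.  Submodularity for the two variables `(b₁, G₁, G₂, b₃')` and `(h₁, h₂, h₃)`, which both determine `h₁h₂h₃` and together determine everything:
`ent (h₁h₂h₃) + 3 ent (a₀, a') ≤ (2 S + 2 (2 S - Hc)) + 3 ent h`, i.e. `ent (h₁h₂h₃) ≤ 6 S - 2 Hc - 3 cent (a₀) (h) ≤ 6 S - 5 Hc`. -/
def S_M1B : Prop := ∀ (G : Type) [Group G] [Fintype G] (μ : G → ℝ) (Hc : ℝ), IsLaw μ →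
  Hc = cent (prd μ μ) (fun a => a.1) (fun a => a.2 * a.1⁻¹) →
  H (hlaw μ) ≤ 2 * H μ - Hc ∧
  H (conv (conv (hlaw μ) (hlaw μ)) (hlaw μ)) ≤ 6 * H μ - 5 * Hc

/-- **CV** (convolutions).  May assume S_L2, S_L4, S_L5, S_L7.
Proof. L5 with `f z = z.1 * z.2`, L7.  `conv μ ν g = ∑_h μ (g h⁻¹) ν h`.  Associativity: both sides are the law of `a b c`.  (4) `H (conv μ ν) = ent (prd μ ν) (z.1 * z.2) ≥ cent (z.1 z.2) (z.1) = ` (given `z.1 = a` the product determines `z.2`) `H ν`; in the same way `≥ H μ`.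
(5) `∑_g |conv μ ν g - conv μ ν' g| ≤ ∑_g ∑_h μ (h) |ν (h⁻¹ g) - ν' (h⁻¹ g)| = ∑ |ν - ν'|`, the same for the left factor. -/
def S_CV : Prop := ∀ (G : Type) [Group G] [Fintype G] (μ ν κ ν' : G → ℝ), IsLaw μ → IsLaw ν →
  IsLaw κ → IsLaw ν' → IsLaw (conv μ ν) ∧ (∀ g, conv μ ν g = ∑ h, μ (g * h⁻¹) * ν h) ∧
  conv (conv μ ν) κ = conv μ (conv ν κ) ∧ H ν ≤ H (conv μ ν) ∧ H μ ≤ H (conv μ ν) ∧
  ∑ g, |conv μ ν g - conv μ ν' g| ≤ ∑ g, |ν g - ν' g| ∧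
  ∑ g, |conv ν μ g - conv ν' μ g| ≤ ∑ g, |ν g - ν' g|

end Pool.Agent.Helper6.NX
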