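import Pool.Agent.Helper6.NX.GoalsB

/-! Project NX, goals B2: large orbits of three random conjugates, the final inequality, CORE. -/

set_option linter.unusedVariables false

namespace Pool.Agent.Helper6.NX

open Matrix Equiv Filter Topology Pool.Agent.Helper15.An
open scoped ComplexOrder

/-- finite subtrees of the binary tree containing the root (the head of a list is the last step) -/
def TC (T : Finset (List Bool)) : Prop := [] ∈ T ∧ ∀ b s, (b :: s) ∈ T → s ∈ T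

/-- the generator used to reach a vertex of the binary tree: never the same twice in a row -/
def lab : List Bool → Fin 3
  | [] => 0
  | b :: s => lab s + 1 + (if b then 1 else 0)

/-- the point reached at a vertex of the binary tree -/
def pt {n : ℕ} (y : Fin 3 → Perm (Fin n)) (p : Fin n) : List Bool → Fin n
  | [] => p
  | b :: s => y (lab (b :: s)) (pt y p s)

/-- the points of the subtree are distinct and every step out of it leads back to it -/
def Clo {n : ℕ} (y : Fin 3 → Perm (Fin n)) (p : Fin n) (T : Finset (List Bool)) : Prop :=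
  Set.InjOn (pt y p) (T : Set (List Bool)) ∧
    ∀ s ∈ T, ∀ b, ∃ t ∈ T, pt y p (b :: s) = pt y p t

/-- **CNT** (the number of subtrees).
Proof. Let `c x` be the maximal cardinality of a finset `S` of subtrees (`TC`) with `x` vertices.  For a subtree `T` with `x` vertices (`x ≥ 1`) let `T_b = {s : s ++ [b] ∈ T}` (`b : Bool`): either empty or again a subtree (`TC`), `|T_true| + |T_false| = x - 1`, and `T` is determined by the two.  So with
`N x` the number of subtrees (or the empty set) with `x` vertices: `N 0 = 1`, `N x ≤ ∑_{i+j=x-1} N i N j`; by strong induction `N x ≤ catalan x` (`catalan_succ`), and `catalan x ≤ centralBinom x ≤ 4^x` (`catalan_eq_centralBinom_div`, `Nat.centralBinom`, `Nat.sum_range_choose`/`Nat.four_pow…`).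
(Direct alternative: encode `T` by the word recording, for the vertices in shortlex order, which of the two children are in `T`: an injection to `(Bool × Bool)^x`.) -/
def S_CNT : Prop := ∀ (x : ℕ) (S : Finset (Finset (List Bool))),
  (∀ T ∈ S, TC T ∧ T.card = x) → S.card ≤ 4 ^ x

/-- **CMP2** (small orbits contain closed subtrees).
Proof. Among the `TC` subtrees `T` on which `pt y p` is injective choose one of maximal cardinality (`{[]}` is one; `T.card ≤ n` by injectivity).  All points `pt y p s` lie in the orbit, so `T.card ≤ (orb y p).card ≤ J`.  For `s ∈ T` and `b`: if `b :: s ∈ T` take `t = b :: s`;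
otherwise `insert (b :: s) T` is `TC` and larger, so `pt y p` is not injective on it, i.e. `pt y p (b :: s) = pt y p t` for some `t ∈ T`. -/
def S_CMP2 : Prop := ∀ (n J : ℕ) (y : Fin 3 → Perm (Fin n)) (p : Fin n), (orb y p).card ≤ J →
  ∃ T : Finset (List Bool), TC T ∧ 1 ≤ T.card ∧ T.card ≤ J ∧ Clo y p T

/-- **EDG** (probability of prescribed edges for one conjugate).
Proof. Let `U` be the set of the vertices of `T` which are sources or targets of edges in `E`, `r = |U| ≤ J`.  The event says that the tuple `b = w ∘ q|_U` satisfies `b v = π (b u)` for `(u,v) ∈ E`; for each injective `b : U → Fin n` its probability is at most `2/(n)_r ≤ 4/n^r` (`(n)_r ≥ (n-r)^r ≥ n^r (1 - r²/n) ≥ n^r/2`).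
Number of such `b`: if two edges of `E` have the same target then there is none (injectivity of `π` and `b`).  Otherwise the graph `(U, E)` (out-degree and in-degree at most one) is a disjoint union of paths and cycles, and `b` is determined by its value at the start of each path and at one vertex of each cycle; the value at a loop `(u,u)` is a fixed point of `π`:
at most `n^(#paths) n^(#cycles of length ≥ 2) (ρ n)^(#loops)`.  `r - |E| = #paths`.  So the probability is `≤ 4 n^(-|E| + #cyc + #loops) ρ^(#loops)`.  An edge `(u,t) ∈ A` is in no cycle (no edge starts at `t`), so the loops are in `E \ A` and the cycles of length `≥ 2` consist of non-loop edges of `E \ A`, at least two each: `#cyc ≤ nl/2`,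
`nl` the number of non-loop edges of `E \ A`.  `|E| = |A| + #loops + nl`: the bound is `4 n^(-|A|) ρ^(#loops) n^(-nl/2)`.
(Possible formalization: induction on `|E|` for the number of injective `b`, or: choose a set `S ⊆ U` of representatives with `|S| ≤ r - |E| + #loops + nl/2` containing all loops and such that `b` is determined by `b|_S`.) -/
def S_EDG : Prop := ∀ (n J : ℕ) (π : Perm (Fin n)) (ω : Perm (Fin n) → ℝ) (ρ : ℝ) (T : Type)
  [Fintype T] [DecidableEq T] (q : T ↪ Fin n) (E A : Finset (T × T)), IsLaw ω → 0 ≤ ρ →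
  4 * J ^ 2 ≤ n → 1 ≤ n → Fintype.card T ≤ J → (fixc π : ℝ) ≤ ρ * n →
  (∀ r ≤ J, ∀ a b : Fin r ↪ Fin n, prT ω a b ≤ 2 / (n.descFactorial r : ℝ)) → A ⊆ E →
  (∀ e ∈ E, ∀ e' ∈ E, e.1 = e'.1 → e = e') → (∀ e ∈ A, ∀ e' ∈ E, e'.1 ≠ e.2) →
  ∑ w : Perm (Fin n), (if ∀ e ∈ E, w (q e.2) = π (w (q e.1)) then ω w else 0) ≤
    4 * (1 / (n : ℝ)) ^ A.card * ρ ^ (E.filter fun e => e.1 = e.2).card *
      (1 / √(n : ℝ)) ^ ((E \ A).filter fun e => e.1 ≠ e.2).card

/-- the three conjugates `w_i⁻¹ π_i w_i` -/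
def cj3 {n : ℕ} (π w : Fin 3 → Perm (Fin n)) : Fin 3 → Perm (Fin n) :=
  fun i => (w i)⁻¹ * π i * w i

/-- **CMP1** (one subtree).  May assume S_EDG.
Proof. `x = T.card ≥ 1`.  Alive edges: the pairs `(s,b)`, `s ∈ T`, `b :: s ∈ T`; there are `x - 1` (the parent map on `T \ {[]}`).  Dead edges: the pairs with `b :: s ∉ T`; there are `2x - (x-1) = x + 1`.  If `Clo y p T` holds let `q = pt y p` on `T` (injective) and let `τ (s,b) ∈ T` be such that `pt y p (b :: s) = q (τ (s,b))` for the dead edges.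
Then for every alive edge `y_j (q s) = q (b :: s)`, for every dead edge `y_j (q s) = q (τ (s,b))`, `j = lab (b :: s)`, i.e. `w_j (q target) = π_j (w_j (q s))`.  Sum over all `q : T ↪ Fin n` (at most `n^x`; the sum over `p` is contained in this, `p = q []`), over all functions `τ` and for the fixed `(q, τ)` the product over `j : Fin 3` of the probabilities from EDG for
`E_j` = the edges with label `j`, `A_j` = the alive ones: the out-degree condition holds because the two children of `s` have different labels; an alive edge with label `j` ends at a vertex `t = b :: s` with `lab t = j`, and no edge with label `j` starts at `t` since its children have labels `j+1, j+2`.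
The product is at most `64 n^(-(x-1)) ρ^(loops) n^(-nl/2)`, and `∑_τ ∏_{dead} (ρ if τ (s,b) = s, n^(-1/2) otherwise) ≤ (ρ + x/√n)^(x+1)`.  Total: `n^x · 64 n^(-(x-1)) (ρ + x/√n)^(x+1)`. -/
def S_CMP1 : Prop := ∀ (n J : ℕ) (π : Fin 3 → Perm (Fin n)) (ω : Perm (Fin n) → ℝ) (ρ : ℝ)
  (T : Finset (List Bool)), IsLaw ω → 0 ≤ ρ → 4 * J ^ 2 ≤ n → 1 ≤ n → T.card ≤ J → TC T →
  (∀ i, (fixc (π i) : ℝ) ≤ ρ * n) →
  (∀ r ≤ J, ∀ a b : Fin r ↪ Fin n, prT ω a b ≤ 2 / (n.descFactorial r : ℝ)) →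
  ∑ p : Fin n, ∑ w : Fin 3 → Perm (Fin n), (∏ i, ω (w i)) *
    (open Classical in if Clo (cj3 π w) p T then (1 : ℝ) else 0) ≤
    n * (64 * (ρ + T.card / √(n : ℝ)) ^ (T.card + 1))

/-- **CMP** (three random conjugates have few small orbits).  May assume S_CNT, S_CMP1, S_CMP2.
Proof. `|orb| ≤ J` implies `Clo` for some `TC` set `T` with `1 ≤ |T| ≤ J` (CMP2); the sets `T` with `|T| = x` consist of lists of length `< x`, so they form a finset, of cardinality at most `4^x` (CNT).  Union bound and CMP1: `n ∑_{x=1}^J 4^x · 64 ρ'^(x+1) ≤ 64 n ρ' (4ρ')/(1 - 4ρ') ≤ 512 n ρ'²` with `ρ' = ρ + J/√n ≤ 1/8`. -/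
def S_CMP : Prop := ∀ (n J : ℕ) (π : Fin 3 → Perm (Fin n)) (ω : Perm (Fin n) → ℝ) (ρ : ℝ),
  IsLaw ω → 0 ≤ ρ → 4 * J ^ 2 ≤ n → 1 ≤ n → ρ + J / √(n : ℝ) ≤ 1 / 8 →
  (∀ i, (fixc (π i) : ℝ) ≤ ρ * n) →
  (∀ r ≤ J, ∀ a b : Fin r ↪ Fin n, prT ω a b ≤ 2 / (n.descFactorial r : ℝ)) →
  ∑ w : Fin 3 → Perm (Fin n), (∏ i, ω (w i)) *
    ((Finset.univ.filter fun p : Fin n => (orb (cj3 π w) p).card ≤ J).card : ℝ) ≤
    n * (512 * (ρ + J / √(n : ℝ)) ^ 2)

/-- **SMO** (the expected number of points in small orbits).  May assume S_L5, S_L7, S_CMP.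
Proof. The law of three independent elements with law `cjl ω χ` is the law of `cj3 π w` with `π i` independent with law `χ` and `w i` independent with law `ω`.  Split according to whether some `π i` has more than `ρ n` fixed points: probability at most `3 e/ρ` (Markov with `∑ χ fixc ≤ e n`), where the number of points is at most `n`; otherwise CMP. -/
def S_SMO : Prop := ∀ (n J : ℕ) (χ ω : Perm (Fin n) → ℝ) (ρ e : ℝ), IsLaw ω → IsLaw χ →
  0 < ρ → 4 * J ^ 2 ≤ n → 1 ≤ n → ρ + J / √(n : ℝ) ≤ 1 / 8 →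
  ∑ σ, χ σ * (fixc σ : ℝ) ≤ e * n →
  (∀ r ≤ J, ∀ a b : Fin r ↪ Fin n, prT ω a b ≤ 2 / (n.descFactorial r : ℝ)) →
  ∑ y : Fin 3 → Perm (Fin n), (∏ i, cjl ω χ (y i)) *
    ((Finset.univ.filter fun p : Fin n => (orb y p).card ≤ J).card : ℝ) ≤
    (3 * e / ρ + 512 * (ρ + J / √(n : ℝ)) ^ 2) * n

/-- **FIN** (the final inequality).  May assume S_L2, S_L3C, S_L4, S_L5, S_L7, S_L8, S_AVG.
Proof. Space: `g` with law `ν` and `Y = (y₀, y₁, y₂)` with the product law of `lam`, independent; `Z = (g y_i g⁻¹)_i`.  `cent g (Y,Z) = ent (g,Y,Z) - ent (Y,Z) = H ν + ent Y - ent (Y,Z) = H ν - cent Z Y ≥ H ν - ∑_i ent (g y_i g⁻¹) = H ν - 3 H (cjr ν lam) ≥ (1 - 3 η₂) H ν` (`Z` is a function of `(g,Y)`).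
Let `g'` be a conditionally independent copy of `g` given `(Y, Z)` (`ccp`, L8): `cent g' (Y,Z) = cent g' (Y,Z,g) ≤ cent g' (g, Y)` (by conditional independence `cent (g,g') (Y,Z) = cent g (Y,Z) + cent g' (Y,Z)`), `c = g⁻¹ g'` commutes with all `y_i` (`g' y_i g'⁻¹ = g y_i g⁻¹`).
Fix `π`, `B = im π (ini n b)`: `cent g' (g,Y) ≤ cent (res B g') (g,Y) + cent g' (res B g')`, and the last term is `H ν - HD ν B` (`g'` has law `ν`).  `cent (res B g') (g,Y) ≤ E log N(Y)`, `N(Y)` = the number of the restrictions to `B` of permutations `c` commuting with the `y_i` (L3C: given `(g,Y)`, `res B g'` is determined by `res B c`): such a `c` is determined on each orbit of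
`⟨y_i⟩` by its value at one point of the orbit (`c (u p) = u (c p)` for `u` in the group); the number of orbits with more than `J` points is at most `n/J`, so `N(Y) ≤ n^(n/J) · n^(#points of B in orbits of size ≤ J)` (as reals; `n/J` may be replaced by its floor in the exponent).
Average over `π`: the average of the number of points of `B` in orbits of size `≤ J` is `(b/n) · #{p : |orb y p| ≤ J}` (AVG or linearity), with expectation `≤ b κ`; the average of `H ν - HD ν B` is `H ν - AA ν b`. -/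
def S_FIN : Prop := ∀ (n J b : ℕ) (ν lam : Perm (Fin n) → ℝ) (η₂ κ : ℝ), 2 ≤ n → 1 ≤ J →
  b ≤ n → IsLaw ν → IsLaw lam → H (cjr ν lam) ≤ η₂ * H ν →
  ∑ y : Fin 3 → Perm (Fin n), (∏ i, lam (y i)) *
    ((Finset.univ.filter fun p : Fin n => (orb y p).card ≤ J).card : ℝ) ≤ κ * n →
  (1 - 3 * η₂) * H ν ≤ (H ν - AA ν b) + ((n : ℝ) / J + b * κ) * Real.log n

/-- the hypotheses of CORE -/
structure CoreHyp (n : ℕ) (δ τ c₀ : ℝ) (ν ω : Perm (Fin n) → ℝ) : Prop where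
  hν : IsLaw ν
  sym : ∀ g, ν g⁻¹ = ν g
  lo : (n : ℝ) ^ (1 - δ) * Real.log n ≤ H ν
  hi : H ν ≤ c₀ * n * Real.log n
  tri : H (conv (conv ν ν) ν) ≤ (1 + τ) * H ν
  hω : IsSP (Alt n : Set (Perm (Fin n))) ω
  near : ∀ w, 0 < ω w → ∑ g, |ν (g * w⁻¹) - ν g| ≤ (n : ℝ) ^ (-(3 * δ))
  mix : ∀ r : ℕ, (r : ℝ) ≤ 20 * (n : ℝ) ^ δ → ∀ a b : Fin r ↪ Fin n,
    prT ω a b ≤ 2 / (n.descFactorial r : ℝ)
  lo1 : ∀ a b : Fin n, 1 / (2 * (n : ℝ)) ≤ ∑ w, (if w a = b then ω w else 0)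
  low : ∀ (D : ℕ) (ρ : Perm (Fin n) →* Matrix (Fin D) (Fin D) ℂ), IsIrr ρ → ¬ Triv ρ (Alt n) →
    HasFix ρ (stab n (Nat.sqrt n)) →
    ((1 / 2 : ℝ) • (1 : Matrix (Fin D) (Fin D) ℂ) - wop ρ ω).PosSemidef

/-- **CORE**. -/
def S_CORE : Prop := ∃ τ c₀ δ₀ : ℝ, 0 < τ ∧ 0 < c₀ ∧ 0 < δ₀ ∧ ∀ δ : ℝ, 0 < δ → δ ≤ δ₀ →
  ∀ᶠ n : ℕ in atTop, ∀ ν ω : Perm (Fin n) → ℝ, ¬ CoreHyp n δ τ c₀ ν ω

/-- **COREA** (the recursion and the selection).  May assume S_VP, S_VC, S_CV, S_REC, S_TAIL, S_SEL.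
Proof. `C = 400`, `η = 1/50`, `K = H ν / log n ≥ n^(1-δ)`, `V = VV ν`, `W = VV (conv ν ν) - VV ν` (`≥ 0`, VC), `∑_{k<n} W k = (H (conv ν ν) - H ν)/log n ≤ τ K` because `H (conv ν ν) ≤ H (conv (conv ν ν) ν) ≤ (1+τ) H ν` (CV).  REC with `θ = n^(-3δ)`, `ϵ = 2 δ` (`1 ≤ 2 δ log n` for large `n`), Mix2 from `mix` (`r = 1, 2`) and `lo1`:
`a = 8 δ + 16 log 33/log n`, `b' = 2 (θ + 2 √θ) + 8 δ n^(-2δ) + 64 n^(-1/2)`, `n b' ≤ K o(1)` since `√θ = n^(-3δ/2)`, `K ≥ n^(1-δ)` and `δ ≤ 1/100`.  TAIL with `kC = ⌈C K⌉`: `K - ∑_{k < 2kC} V k ≤ (1/100 + 2 a + 4 τ) K + 2 n b' ≤ η K` for `δ ≤ 2·10⁻⁵`, `τ ≤ 10⁻⁴`, `n` large.  `B = 2 kC ≤ 2 C K + 2 ≤ 3 C K`.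
SEL with `L = ⌈lam K⌉` (`≤ 2 lam K`): `4 L/(η K) ≤ 400 lam`, `η/(8 C) = 1/160000`, `4 τ/η = 200 τ`. -/
def S_COREA : Prop := ∀ δ lam τ c₀ : ℝ, 0 < δ → δ ≤ 1 / 50000 → 0 < lam → lam ≤ 1 → 0 < τ →
  τ ≤ 1 / 10000 → 0 < c₀ → ∀ᶠ n : ℕ in atTop, ∀ ν ω : Perm (Fin n) → ℝ, CoreHyp n δ τ c₀ ν ω →
  ∃ B L k : ℕ, 1 ≤ L ∧ (B : ℝ) ≤ 1200 * (H ν / Real.log n) ∧
    H ν - AA ν B ≤ 1 / 50 * H ν ∧ k < B ∧ k < n ∧ H ν - AA ν k ≤ 1 / 25 * H ν ∧
    1 / 160000 ≤ VV ν k ∧ VV (conv ν ν) k - VV ν k ≤ 200 * τ ∧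
    VV ν k - VV ν (k + L) ≤ 400 * lam ∧ lam * (H ν / Real.log n) ≤ L

/-- **COREB** (few fixed points at the selected position).  May assume S_VP, S_FW, S_HOM, S_HEAVY, S_S2A, S_COL.
Proof. HOM with `F = FF ν`, `e = θ + 2 √θ`, `θ = n^(-3δ)` (FW; `IsSP univ` from `IsSP (Alt n)`), `avF (FF ν) k = VV ν k` (VP): the mean square of `FF - VV` is at most `e² + 800 lam + 8/√n + 8 k/(L √n)` with `k ≤ 1200 K`, `L ≥ lam K`: `≤ 900 lam` for large `n`.  Cauchy-Schwarz: `σ = √(900 lam) = 30 √lam`.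
HEAVY with `s = VV ν k / 2`: `a · VV ν k/2 ≤ 200 τ + 30 √lam + log 2/log n`, `VV ν k ≥ 1/160000`: `a ≤ 320000 (200 τ + 31 √lam)` for large `n`.  S2A (4) with the same `s`: the average of `kap` is `≤ a + n^(-1/320000)`.  COL: `∑ chi fixc ≤ k + n (a + n^(-1/320000))`, `k ≤ 1200 c₀ n`. -/
def S_COREB : Prop := ∀ δ lam τ c₀ : ℝ, 0 < δ → δ ≤ 1 / 50000 → 0 < lam → lam ≤ 1 → 0 < τ →
  0 < c₀ → c₀ ≤ 1 / 2400 →
  ∀ᶠ n : ℕ in atTop, ∀ (ν ω : Perm (Fin n) → ℝ) (L k : ℕ), CoreHyp n δ τ c₀ ν ω → 1 ≤ L →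
  (k : ℝ) ≤ 1200 * (H ν / Real.log n) → k < n → 1 / 160000 ≤ VV ν k →
  VV (conv ν ν) k - VV ν k ≤ 200 * τ → VV ν k - VV ν (k + L) ≤ 400 * lam →
  lam * (H ν / Real.log n) ≤ L →
  ∑ σ, chi ν k σ * (fixc σ : ℝ) ≤ (1300 * c₀ + 320000 * (200 * τ + 32 * √lam)) * n

/-- **COREC** (the entropy of the conjugates).  May assume S_Z.
Proof. Z with `θ = n^(-3δ)`: `log (n.choose k) ≤ k (1 + log (n/k))` (`k ≥ 1`; `n.choose k ≤ n^k/k! ≤ (e n/k)^k`) `= k (1 + log (n/K)) + k log (K/k) ≤ 1200 K (1 + δ log n) + K` (`K = H ν/log n ≥ n^(1-δ)`, so `log (n/K) ≤ δ log n`; `t log (1/t) ≤ 1` for `t = k/K`; if `n/K < 1`, impossible as `K ≤ c₀ n`), which is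
`≤ (1200 δ + 1201/log n) H ν ≤ (1/40) H ν` for `δ ≤ 1/50000` (`1200/50000 = 0.024`), `n` large.  `2 (H₃ - H ν) ≤ 2 τ H ν`; `θ log n! ≤ n^(-3δ) n log n ≤ n^(-2δ) H ν`; `4 √θ ≤ 4 ≤ o(1) H ν`.  Total `≤ (1/40 + 2τ + 1/25 + o(1)) H ν ≤ (1/10) H ν`. -/
def S_COREC : Prop := ∀ δ τ c₀ : ℝ, 0 < δ → δ ≤ 1 / 50000 → 0 < τ → τ ≤ 1 / 1000 →
  0 < c₀ → c₀ ≤ 1 / 2400 →
  ∀ᶠ n : ℕ in atTop, ∀ (ν ω : Perm (Fin n) → ℝ) (k : ℕ), CoreHyp n δ τ c₀ ν ω →
  (k : ℝ) ≤ 1200 * (H ν / Real.log n) → k < n → H ν - AA ν k ≤ 1 / 25 * H ν →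
  H (cjr ν (cjl ω (chi ν k))) ≤ 1 / 10 * H ν

end Pool.Agent.Helper6.NX
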