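import Pool.Agent.Helper6.NX.GoalsB2
import Pool.Agent.Helper3.AK.Defs

/-! Project NX, goals C: from CORE to return probabilities of the walk on tuples. -/

set_option linter.unusedVariables false

namespace Pool.Agent.Helper6.NX

open Matrix Equiv Filter Topology Pool.Agent.Helper15.An
open scoped ComplexOrder
open Pool.Agent.Helper3.AK (lazyLaw)

/-- the generators as permutations -/
def cX {n k : ℕ} (x : Fin k → Alt n) : Fin k → Perm (Fin n) := fun i => (x i : Perm (Fin n))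

/-- **WW** (the law of `⌈n^(2δ)⌉` lazy steps has all the mixing properties of CORE).
May use `lzw_all : S_LZW` (Helper6/GP/LZW.lean), `Pool.Agent.Helper56.GP.TGR.thm : S_TGR`, `Pool.Agent.Helper61.GP.thm : S_ENT`, `Pool.Agent.Helper60.AK.LZ.lz` (all proved).
Proof. `l = ⌈n^(2δ)⌉`, `ω = lazyLaw x l`.  IsSP: nonnegative, sum one, zero outside `Alt n` (LZW), symmetric (`lazyLaw z m g⁻¹ = lazyLaw z m g` by induction; search for an existing lemma, or from LZW: the convolution powers of a symmetric weight).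
(2) `r ≤ 20 n^δ ≤ n^α` for large `n` (`δ < α`): ENT gives `|prT ω a b - 1/(n)_r| ≤ (1-ε/2)^l ≤ exp (-ε n^(2δ)/2) ≤ n^(-r) ≤ 1/(n)_r` for large `n` as `r log n ≤ 20 n^δ log n`.
(3) the same with `r = 1` from below: `prT ≥ 1/n - (1-ε/2)^l ≥ 1/(2n)`.  (4) `√n + 2 ≤ n`, `Nat.sqrt n ≤ n^α` (`α > 1/2`): TGR: `wop ρ (tupW x) ≤ 1 - ε`, so `wop ρ ω = ((1 + wop ρ (tupW x))/2)^l` (LZW) has its spectrum in `[0, (1-ε/2)^l]` (`wop_add_one`), `≤ 1/2` for large `n`.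
(5) every `w` with `ω w > 0` is a product of at most `l` letters `x_i^{±1}` (induction on the number of steps), and each letter costs at most `θ`: `∑_g |ν (g y⁻¹) - ν g| ≤ ∑ |ν (g y⁻¹) - ν (g u⁻¹)| + ...` (triangle inequality; for an inverse letter substitute). -/
def S_WW : Prop := ∀ (k : ℕ) (α ε δ : ℝ), 1 ≤ k → 1 / 2 < α → α < 1 → 0 < ε → ε ≤ 1 → 0 < δ →
  2 * δ < α → ∀ᶠ n : ℕ in atTop, ∀ x : Fin k → Alt n,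
  (∀ r : ℕ, (r : ℝ) ≤ (n : ℝ) ^ α → Pool.Agent.Helper3.AK.TupleGap x r ε) →
  IsSP (Alt n : Set (Perm (Fin n))) (lazyLaw x ⌈(n : ℝ) ^ (2 * δ)⌉₊) ∧
  (∀ r : ℕ, (r : ℝ) ≤ 20 * (n : ℝ) ^ δ → ∀ a b : Fin r ↪ Fin n,
    prT (lazyLaw x ⌈(n : ℝ) ^ (2 * δ)⌉₊) a b ≤ 2 / (n.descFactorial r : ℝ)) ∧
  (∀ a b : Fin n, 1 / (2 * (n : ℝ)) ≤
    ∑ w, (if w a = b then lazyLaw x ⌈(n : ℝ) ^ (2 * δ)⌉₊ w else 0)) ∧
  (∀ (D : ℕ) (ρ : Perm (Fin n) →* Matrix (Fin D) (Fin D) ℂ), IsIrr ρ → ¬ Triv ρ (Alt n) →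
    HasFix ρ (stab n (Nat.sqrt n)) → ((1 / 2 : ℝ) • (1 : Matrix (Fin D) (Fin D) ℂ) -
      wop ρ (lazyLaw x ⌈(n : ℝ) ^ (2 * δ)⌉₊)).PosSemidef) ∧
  ∀ (ν : Perm (Fin n) → ℝ) (θ : ℝ), NI (cX x) ν θ →
    ∀ w, 0 < lazyLaw x ⌈(n : ℝ) ^ (2 * δ)⌉₊ w →
      ∑ g, |ν (g * w⁻¹) - ν g| ≤ (⌈(n : ℝ) ^ (2 * δ)⌉₊ : ℝ) * θ

/-- the conclusion of part B for one tuple: nearly invariant laws have entropy at least `c n log n` -/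
def LargeEnt {n k : ℕ} (x : Fin k → Alt n) (c₀ e : ℝ) : Prop :=
  ∀ μ : Perm (Fin n) → ℝ, IsLaw μ → NI (cX x) μ e → c₀ * n * Real.log n ≤ H μ

/-- **B** (nearly invariant laws have entropy at least `c n log n`).  May assume S_M0, S_M0S, S_WIN, S_M1A, S_M1B, S_CORE, S_WW.
Proof. `τ₁ = τ/25` with `τ, c, δ₀` from CORE (`τ₁ ≤ 1/20`; one may replace `τ` by `min τ 1`), `c₀ = c/2`.  `δ = γ/20 ≤ δ₀`.  Let `M = 2 k/τ₁ ≥ 2`, `e₀ = n^(-γ/2)`, `I = ⌊(γ/2) log n / log M⌋`; so `e₀/M^I ≥ n^(-γ)`.  Suppose `μ` is a law with `NI x μ (n^(-γ))` and `H μ < c₀ n log n`.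
M0, M0S with `A = exp (n^α)`: every law with `NI x μ e₀` (`e₀ ≤ ε`) has `H ≥ (3/8)(n^α - log 100) ≥ n^α/4 =: Hm`.  `(1-τ₁)^I c₀ n log n ≤ exp (-τ₁ I) c₀ n log n ≤ e^(τ₁) n^(1 - τ₁ γ/(2 log M)) c₀ log n < Hm` for large `n`, since `τ₁ γ/(2 log M) > 1 - α`.
WIN gives `μ, ε'` with `M ε' ≤ e₀`, `H μ ≤ c₀ n log n`, `(1-τ₁) H μ ≤ H μ'` for all `μ'` with `NI x μ' (M ε')`.  M1A, M1B: `ν = hlaw μ` is a symmetric law with `NI x ν (2 ε')`, `2 ε' ≤ M ε' ≤ e₀`, `H ν ≤ (1+2τ₁) H μ`, `H ν ≥ (1-τ₁) H μ` (as `2 ε' ≤ M ε'`), `H (conv (conv ν ν) ν) ≤ (1 + 10 τ₁) H μ ≤ (1+25τ₁) H ν` (`(1+10t) ≤ (1+25t)(1-t)` for `t ≤ 1/20`... `14 t - 25 t² ≥ 0`).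
CoreHyp with `ω = lazyLaw x ⌈n^(2δ)⌉` (WW): `H ν ≥ (1-τ₁) n^α/4 ≥ n^(1-δ) log n` as `α > 1 - δ`; `H ν ≤ (1+2τ₁) c₀ n log n ≤ c n log n`; `near`: `⌈n^(2δ)⌉ e₀ ≤ 2 n^(2δ - 10 δ) ≤ n^(-3δ)`.  Contradiction to CORE for large `n`. -/
def S_B : Prop := ∃ τ₁ c₀ γ₀ : ℝ, 0 < τ₁ ∧ τ₁ ≤ 1 / 20 ∧ 0 < c₀ ∧ c₀ ≤ 1 ∧ 0 < γ₀ ∧ γ₀ ≤ 1 ∧
  ∀ (k : ℕ) (γ α ε : ℝ), 1 ≤ k → 0 < γ → γ ≤ γ₀ → 0 < ε → ε ≤ 1 → 1 / 2 < α → α < 1 →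
  1 - γ / 20 < α → 2 * (1 - α) * Real.log (2 * k / τ₁) < τ₁ * γ →
  ∀ᶠ n : ℕ in atTop, ∀ x : Fin k → Alt n,
  (∀ r : ℕ, (r : ℝ) ≤ (n : ℝ) ^ α → Pool.Agent.Helper3.AK.TupleGap x r ε) →
  Pool.Agent.Helper6.GP.SmallSupp x (Real.exp ((n : ℝ) ^ α)) ε →
  LargeEnt x c₀ ((n : ℝ) ^ (-γ))

/-- near invariance of a weight on tuples under the left action -/
def NIT {n k f : ℕ} (x : Fin k → Alt n) (q : (Fin f ↪ Fin n) → ℝ) (e : ℝ) : Prop :=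
  ∀ i, ∑ b : Fin f ↪ Fin n,
    |q (b.trans (((x i : Perm (Fin n))⁻¹ : Perm (Fin n)).toEmbedding)) - q b| ≤ e

/-- **C1** (nearly invariant laws on tuples cover every point).
May use the facts of S_WW (its last clause for tuples is proved in the same way).
Proof. Let `ω` be a law on `Perm (Fin n)` with `P(w a = b) ≥ 1/(2n)` and `∑_b |q (w⁻¹ ∘ b) - q b| ≤ θ` for `ω w > 0`.  `u v = P_q(v ∈ range b)`, `∑_v u v = f`.  For `w` with `ω w > 0`: `|u v - u (w⁻¹ v)| ≤ θ` because `b ↦ w ∘ b` maps the event `w⁻¹ v ∈ range b` to `v ∈ range (w ∘ b)`.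
So `u v ≥ ∑_w ω w u (w⁻¹ v) - θ = ∑_{v'} P(w v' = v) u v' - θ ≥ f/(2n) - θ ≥ f/(4n)`. -/
def S_C1 : Prop := ∀ (n f : ℕ) (q : (Fin f ↪ Fin n) → ℝ) (ω : Perm (Fin n) → ℝ) (θ : ℝ),
  1 ≤ n → IsLaw q → IsLaw ω → (∀ a b : Fin n, 1 / (2 * (n : ℝ)) ≤ ∑ w, (if w a = b then ω w else 0)) →
  (∀ w, 0 < ω w → ∑ b : Fin f ↪ Fin n, |q (b.trans ((w⁻¹ : Perm (Fin n)).toEmbedding)) - q b| ≤ θ) →
  θ ≤ f / (4 * n) →
  ∀ v : Fin n, (f : ℝ) / (4 * n) ≤ ∑ b : Fin f ↪ Fin n, (if ∃ i, b i = v then q b else 0)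

/-- **C2** (conditioning on quotients; a general group).  May assume S_L1, S_L2, S_L3C, S_L7.
Proof. As in M1A.  For a value `g = (g_j)` of `(c 0 * (c j.succ)⁻¹)_j` let `Z g` be its probability and `q_g` the conditional law of `c 0`: `q_g a = lam a ∏_j lam (g_j⁻¹ a) / Z g`.  All quotients are unchanged when all `c j` are multiplied on the right by `x_i`, so
`∑_g Z g ∑_a |q_g (a x_i⁻¹) - q_g a| = ∑_{c} |∏_j lam (c_j x_i⁻¹) - ∏_j lam (c_j)| ≤ (m+1) ε'` (telescoping).  Sum over `i` and Markov: the total weight of the `g` with `∑_i ∑_a |q_g(a x_i⁻¹) - q_g a| > 2 k (m+1) ε'` is at most `1/2` (if `(m+1) ε' > 0`; the set has weight `≤ k(m+1)ε'/(2k(m+1)ε')`);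
for the others `NI x q_g e₁`, so `H q_g ≥ H₀`.  `cent = ∑_g Z g H q_g ≥ H₀/2`. -/
def S_C2 : Prop := ∀ (G : Type) [Group G] [Fintype G] (k m : ℕ) (x : Fin k → G)
  (lam : G → ℝ) (ε' e₁ H₀ : ℝ), 1 ≤ k → 0 < ε' → IsLaw lam → NI x lam ε' →
  2 * k * (m + 1) * ε' ≤ e₁ → 0 ≤ H₀ → (∀ μ : G → ℝ, IsLaw μ → NI x μ e₁ → H₀ ≤ H μ) →
  H₀ / 2 ≤ cent (fun c : Fin (m + 1) → G => ∏ j, lam (c j)) (fun c => c 0)
    (fun c => fun j : Fin m => c 0 * (c j.succ)⁻¹)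

/-- the law of the inverse of a uniformly random extension of a random tuple to a permutation -/
noncomputable def xlaw {n f : ℕ} (hf : f ≤ n) (q : (Fin f ↪ Fin n) → ℝ) : Perm (Fin n) → ℝ :=
  fun g => q ((Fin.castLEEmb hf).trans (g⁻¹ : Perm (Fin n)).toEmbedding) / ((n - f).factorial : ℝ)

/-- **C3** (few quotients determine the permutation).  May assume S_L2, S_L3C, S_L4, S_L7.
Proof. `xlaw` is a law: each tuple has `(n-f)!` extensions; NI: `∑_g |xlaw (g x_i⁻¹) - xlaw g| = ∑_b |q (x_i ∘ b) - q b| = ∑_b |q b - q (x_i⁻¹ ∘ b)|` (`(g x⁻¹)⁻¹ = x g⁻¹`; group the `g` by the tuple).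
(3) Let `a_j = (c j)⁻¹`, independent with uniformly random extension property; `b_j = a_j` restricted to the first `f` points, independent with law `q`; `g_j = c 0 (c j)⁻¹ = a_0⁻¹ a_j` (`g_0 = 1`).  `cent (c 0) (g) ≤ ent (b_0, …, b_m) + cent (c 0) (g, b) ≤ (m+1) H q + cent (c 0) (g, b)`.
Given `(g, b)`: `a_0 (g_j i) = a_j i = b_j i` for `i < f`, so `a_0` is determined on `U = ⋃_j g_j [f]`, and `a_0 U = ⋃_j range b_j`; the number of possible `a_0` is at most `(n - |U|)! ≤ n^(n - |U|)`, `n - |U|` = the number of points in no `range b_j`; its expectation is `∑_v P(v ∉ range b)^(m+1) ≤ n (1 - f/(4n))^(m+1) ≤ n exp (-(m+1) f/(4n))` (L3C). -/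
def S_C3 : Prop := ∀ (n k f m : ℕ) (hf : f ≤ n) (x : Fin k → Alt n) (q : (Fin f ↪ Fin n) → ℝ)
  (ε' : ℝ), 1 ≤ n → IsLaw q → NIT x q ε' →
  (∀ v : Fin n, (f : ℝ) / (4 * n) ≤ ∑ b : Fin f ↪ Fin n, (if ∃ i, b i = v then q b else 0)) →
  IsLaw (xlaw hf q) ∧ NI (cX x) (xlaw hf q) ε' ∧
  cent (fun c : Fin (m + 1) → Perm (Fin n) => ∏ j, xlaw hf q (c j)) (fun c => c 0)
    (fun c => fun j : Fin m => c 0 * (c j.succ)⁻¹) ≤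
    (m + 1) * H q + n * Real.exp (-((m + 1) * f / (4 * n))) * Real.log n

/-- **C** (nearly invariant laws on tuples have large entropy).  May assume S_C1, S_C2, S_C3, S_WW.
Proof. `m + 1 = ⌈(4n/f) log (8/c₀)⌉ ≤ (8n/f) log (8/c₀) ≤ 8 n^(γ') log (8/c₀)` (`c₀ ≤ 1`, so `log (8/c₀) ≥ 2` and `(4n/f) log (8/c₀) ≥ 1`).  C1 with `ω = lazyLaw x ⌈n^(2δ)⌉`, `δ = γ/8`, and `θ = ⌈n^(2δ)⌉ n^(-γ-2γ') ≤ n^(-γ')/4 ≤ f/(4n)` (the last clause of WW, for tuples; same proof).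
C2 with `e₁ = n^(-γ)`, `ε' = n^(-γ-2γ')`: `2 k (m+1) ε' ≤ 16 k log (8/c₀) n^(-γ-γ') ≤ n^(-γ)` for large `n`; `H₀ = c₀ n log n`.  C3: `c₀ n log n/2 ≤ (m+1) H q + (c₀/8) n log n`, so `H q ≥ (3/8) c₀ n log n/(m+1) ≥ (3 c₀/(64 log (8/c₀))) f log n`. -/
def S_C : Prop := ∀ (k : ℕ) (γ γ' α ε c₀ : ℝ), 1 ≤ k → 0 < γ → 0 < γ' → γ < 1 → γ' < 1 / 4 → 0 < ε →
  ε ≤ 1 → 1 / 2 < α → α < 1 → 0 < c₀ → c₀ ≤ 1 → ∀ᶠ n : ℕ in atTop, ∀ x : Fin k → Alt n,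
  (∀ r : ℕ, (r : ℝ) ≤ (n : ℝ) ^ α → Pool.Agent.Helper3.AK.TupleGap x r ε) →
  LargeEnt x c₀ ((n : ℝ) ^ (-γ)) →
  ∀ f : ℕ, f ≤ n → (n : ℝ) ^ (1 - γ') ≤ f → ∀ q : (Fin f ↪ Fin n) → ℝ, IsLaw q →
  NIT x q ((n : ℝ) ^ (-(γ + 2 * γ'))) →
  3 * c₀ / (64 * Real.log (8 / c₀)) * f * Real.log n ≤ H q

/-- **D** (return probabilities on tuples).  May assume S_L3, S_L3C; may use `lzw_all : S_LZW`.
Proof. `u_t b = prT (lazyLaw x t) a b` (a law on the tuples), `u_{t+1} = P u_t`, `P = (1 + W)/2`, `W u b = (2k)⁻¹ ∑_i (u (x_i⁻¹ b) + u (x_i b))` symmetric, `-1 ≤ W ≤ 1`.  `‖u‖² = ∑ u²`.  `‖P u‖² ≤ ⟨u, P u⟩` (`0 ≤ P ≤ 1`: `⟨u,Pu⟩ - ⟨Pu,Pu⟩ = (1/4)(‖u‖² - ‖W u‖²) ≥ 0`, `‖W u‖ ≤ ‖u‖` by the triangle inequality, as `W` is an average of permutation operators) and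
`‖u‖² - ⟨u, P u⟩ = (1/(4k)) ∑_i E_i`, `E_i = ∑_b (u (x_i⁻¹ b) - u b)²`.  Let `q = u²/‖u‖²`, a law.  (a) `H q ≤ -log ‖u‖²`: Gibbs: `H q ≤ -∑ q log u = -(1/2) ∑ q log (q ‖u‖²) = (1/2) H q - (1/2) log ‖u‖²` (`u > 0` where `q > 0`, `∑ u = 1`).
(b) if `‖u‖² > exp (-Λ)` then `H q < Λ`, so `NIT x q ε'` fails: for some `i`, `ε' ‖u‖² < ∑_b |u (x_i⁻¹ b)² - u b²| ≤ √E_i · 2 ‖u‖` (Cauchy-Schwarz), so `E_i > ε'² ‖u‖²/4` and `‖P u‖² ≤ (1 - ε'²/(16 k)) ‖u‖²`.  As `‖u_t‖²` is nonincreasing with `‖u_0‖² = 1`: `‖u_T‖² ≤ max (exp (-Λ)) ((1 - ε'²/(16k))^T) ≤ exp (-Λ)`.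
(c) `prT (lazyLaw x (2T)) a a = ∑_b (u_T b)²` (`lazyLaw x (2T)` is the convolution square of the symmetric weight `lazyLaw x T`). -/
def S_D : Prop := ∀ (n k f T : ℕ) (x : Fin k → Alt n) (ε' Λ : ℝ), 1 ≤ k → 0 < ε' → ε' ≤ 1 →
  0 < Λ → (∀ q : (Fin f ↪ Fin n) → ℝ, IsLaw q → NIT x q ε' → Λ ≤ H q) →
  16 * k * Λ ≤ ε' ^ 2 * T → ∀ a : Fin f ↪ Fin n, prT (lazyLaw x (2 * T)) a a ≤ Real.exp (-Λ)

/-- moments of the number of fixed points -/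
noncomputable def mom {n : ℕ} (κ : Perm (Fin n) → ℝ) (f : ℕ) : ℝ :=
  ∑ g, κ g * ((fixc g).descFactorial f : ℝ)

/-- **MOM0** (moments from return probabilities).
Proof. The number of tuples `a : Fin f ↪ Fin n` with `g ∘ a = a` is `(fixc g).descFactorial f` (embeddings into the fixed point set).  Exchange the sums. -/
def S_MOM0 : Prop := ∀ (n f : ℕ) (κ : Perm (Fin n) → ℝ), mom κ f = ∑ a : Fin f ↪ Fin n, prT κ a a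

/-- **BCD** (the moments of the long walk).  May assume S_B, S_C, S_D, S_MOM0; may use `lzw_all`, `Pool.Agent.Helper61.GP.thm : S_ENT`.
Proof. `ξ = 3 c₀/(64 log (8/c₀))` with the `c₀` of B (`≤ 1/2`), `T = ⌈n^(1 + 2γ + 5γ')⌉`; `ε' = n^(-(γ+2γ'))`: `16 k ξ f log n ≤ 16 k n log n ≤ ε'² T` for large `n` (`ε'² T ≥ n^(1+γ')`).  C, D with `Λ = ξ f log n`: `prT ≤ n^(-ξ f)`, so `mom ≤ (n)_f n^(-ξ f) ≤ n^((1-ξ) f)` (MOM0; the number of tuples is `n.descFactorial f ≤ n^f`).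
For `j ≤ n^α`: ENT `prT ≤ 1/(n)_j + (1-ε/2)^(2T) ≤ 2/(n)_j` since `(1-ε/2)^(2T) ≤ exp (-ε n) ≤ exp (-n^α log n)` for large `n`. -/
def S_BCD : Prop := ∃ τ₁ ξ γ₀ : ℝ, 0 < τ₁ ∧ τ₁ ≤ 1 / 20 ∧ 0 < ξ ∧ ξ ≤ 1 / 4 ∧ 0 < γ₀ ∧ γ₀ < 1 ∧
  ∀ (k : ℕ) (γ γ' α ε : ℝ), 1 ≤ k → 0 < γ → γ ≤ γ₀ → 0 < γ' → γ' < 1 / 4 → 0 < ε → ε ≤ 1 →
  1 / 2 < α → α < 1 → 1 - γ / 20 < α → 2 * (1 - α) * Real.log (2 * k / τ₁) < τ₁ * γ →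
  ∀ᶠ n : ℕ in atTop, ∀ x : Fin k → Alt n,
  (∀ r : ℕ, (r : ℝ) ≤ (n : ℝ) ^ α → Pool.Agent.Helper3.AK.TupleGap x r ε) →
  Pool.Agent.Helper6.GP.SmallSupp x (Real.exp ((n : ℝ) ^ α)) ε →
  (∀ f : ℕ, f ≤ n → (n : ℝ) ^ (1 - γ') ≤ f →
    mom (lazyLaw x (2 * ⌈(n : ℝ) ^ (1 + 2 * γ + 5 * γ')⌉₊)) f ≤ (n : ℝ) ^ ((1 - ξ) * f)) ∧
  (∀ j : ℕ, (j : ℝ) ≤ (n : ℝ) ^ α → ∀ a b : Fin j ↪ Fin n,
    prT (lazyLaw x (2 * ⌈(n : ℝ) ^ (1 + 2 * γ + 5 * γ')⌉₊)) a b ≤ 2 / (n.descFactorial j : ℝ))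

end Pool.Agent.Helper6.NX
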