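import Pool.Agent.Helper6.NX.GoalsC

/-! Project NX, goals D: moments of the number of fixed points of products of random conjugates. -/

set_option linter.unusedVariables false

namespace Pool.Agent.Helper6.NX

open Matrix Equiv Filter Topology Pool.Agent.Helper15.An
open scoped ComplexOrder

variable {n : ℕ}

/-- the law of `g (y h y⁻¹)` with `g, h, y` independent, `y` uniform -/
noncomputable def mixc (κ κ' : Perm (Fin n) → ℝ) : Perm (Fin n) → ℝ :=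
  law (prd (unif (Perm (Fin n))) (prd κ κ')) (fun z => z.2.1 * (z.1 * z.2.2 * z.1⁻¹))

/-- **MX** (basic properties of `mixc`).  May assume S_L5, S_L7.
Proof. (1), (2) clear (`Alt n` is normal).  (3) for fixed `y, h` the tuple `y h y⁻¹ a` is fixed, so `prT ≤ 2/(n)_j` by averaging.  (4) `∑_y ρ(y) (wop ρ κ') ρ(y)⁻¹ = n! (tr (wop ρ κ')/D) 1` (`IsIrr.schur`, `(ρ y)ᴴ = ρ y⁻¹`).  (5) definition. -/
def S_MX : Prop := ∀ (n : ℕ) (κ κ' : Perm (Fin n) → ℝ), IsLaw κ → IsLaw κ' →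
  IsLaw (mixc κ κ') ∧
  ((∀ g, g ∉ Alt n → κ g = 0) → (∀ g, g ∉ Alt n → κ' g = 0) → ∀ g, g ∉ Alt n → mixc κ κ' g = 0) ∧
  (∀ (j : ℕ) (c : ℝ), (∀ a b : Fin j ↪ Fin n, prT κ a b ≤ c) →
    ∀ a b : Fin j ↪ Fin n, prT (mixc κ κ') a b ≤ c) ∧
  (∀ (D : ℕ) (ρ : Perm (Fin n) →* Matrix (Fin D) (Fin D) ℂ), IsIrr ρ →
    wop ρ (mixc κ κ') = (trace (wop ρ κ') / (D : ℂ)) • wop ρ κ) ∧
  (∀ φ : Perm (Fin n) → ℝ, ∑ g, mixc κ κ' g * φ g =
    ∑ g, ∑ h, κ g * κ' h * ((n.factorial : ℝ)⁻¹ * ∑ y : Perm (Fin n), φ (g * (y * h * y⁻¹))))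

/-- the number of embeddings of `S` intertwining `V⁻¹` and `V'` -/
noncomputable def emb (V V' : Perm (Fin n)) (S : Finset (Fin n)) : ℕ :=
  Nat.card {e : S ↪ Fin n // ∀ u v : S, V v = u → e v = V' (e u)}

/-- sum of `emb` over the `V`-invariant sets of `s` points -/
noncomputable def II (s : ℕ) (V V' : Perm (Fin n)) : ℝ :=
  ∑ S ∈ (Finset.powersetCard s (Finset.univ : Finset (Fin n))).filter (fun S => im V S = S),
    (emb V V' S : ℝ)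

/-- **PAIRA** (a fixed set of points).
Proof. `U = A ∪ im V⁻¹ A`, `p = |im V⁻¹ A \ A|`, `|U| = |A| + p ≤ n`.  The condition on `e` depends only on `e|_U`; each injection of `U` extends to `(n - |U|)!` permutations.  `S` = the largest `V`-invariant subset of `A` (the `u ∈ A` whose `V`-orbit is contained in `A`).  An injection `e` of `U` with `e (V⁻¹ u) = V' (e u)` for `u ∈ A` is determined by `e|_S`,
counted by `emb V V' S` (for `u, v ∈ S` with `V v = u`: `v = V⁻¹ u`), and by its values at the `p` points of `A \ im V⁻¹ A` (the starts of the paths: for `u ∈ A \ S` go back along `V` inside `A` until a point `u₀ ∈ A` with `V u₀ ∉ A`, i.e. `u₀ ∉ im V⁻¹ A`; `|A \ im V⁻¹ A| = |im V⁻¹ A \ A| = p`): at most `emb · n^p`. -/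
def S_PAIRA : Prop := ∀ (n : ℕ) (V V' : Perm (Fin n)) (A : Finset (Fin n)),
  ∃ S : Finset (Fin n), S ⊆ A ∧ im V S = S ∧ (∀ S' : Finset (Fin n), S' ⊆ A → im V S' = S' → S' ⊆ S) ∧
  ∃ p : ℕ, p ≤ A.card ∧ A.card + p ≤ n ∧
    (Nat.card {e : Perm (Fin n) // ∀ u ∈ A, e (V⁻¹ u) = V' (e u)} : ℝ) ≤
      (n - (A.card + p)).factorial * (n : ℝ) ^ p * emb V V' S

/-- **PAIRB** (the moments of a product of random conjugates).  May assume S_PAIRA.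
Proof. `(fixc (V y V' y⁻¹)).descFactorial f` is the number of `a : Fin f ↪ Fin n` fixed by `V y V' y⁻¹`; this condition is `V' (y⁻¹ a_i) = y⁻¹ (V⁻¹ a_i)`.  With `e = y⁻¹` and `A = range a` (`f!` tuples for each `A`, `|A| = f`): `∑_y … = f! ∑_A card {e // ∀ u ∈ A, e (V⁻¹ u) = V' (e u)}`.
PAIRA, and group the `A` by `S` (`|S| = s ≤ f`): at most `(n-s).choose (f-s)` sets `A ⊇ S` with `|A| = f`.  The coefficient: `(n!)⁻¹ f! C(n-s,f-s) (n-f-p)! n^p ≤ f^s n^(f-s) n^p / (n)_{f+p} ≤ (f/n)^s n^(f+p)/(n)_{f+p} ≤ (f/n)^s e^(f+p) ≤ (f/n)^s e^(2f)`, by `(n)_m ≥ (n/e)^m` for `m ≤ n`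
(`(n)_m = n!/(n-m)!`; induction on `m`, or `m! C(n,m) ≥ …`: `n^m/(n)_m = ∏_{i<m} n/(n-i) ≤ n^n/n! ≤ e^n` is not enough; use `log (n)_m = ∑_{i<m} log (n-i) ≥ n log n - n - ((n-m) log (n-m) - (n-m)) ≥ m log n - m`, or induction on `n - m`: from `(1+1/t)^t ≤ e`). -/
def S_PAIRB : Prop := ∀ (n f : ℕ) (V V' : Perm (Fin n)), f ≤ n →
  (n.factorial : ℝ)⁻¹ * ∑ y : Perm (Fin n),
    ((fixc (V * (y * V' * y⁻¹))).descFactorial f : ℝ) ≤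
    Real.exp (2 * f) * ∑ s ∈ Finset.range (f + 1), ((f : ℝ) / n) ^ s * II s V V'

/-- **IS1** (a bound for `II` keeping track of the fixed points only).
Proof. A `V`-invariant set `S` of `s` points is `S₁ ∪ S₂`, `S₁` a set of `c` fixed points of `V`, `S₂` invariant without fixed points, `|S₂| = s - c`, a union of at most `m = ⌊(s-c)/2⌋` cycles.  An intertwining `e` maps `S₁` injectively to fixed points of `V'` (`V u = u` gives `e u = V' (e u)`): `(fixc V').descFactorial c` choices; on `S₂` it is determined by its values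
at one point of each cycle: at most `n^m`.  The number of `S₁` is `(fixc V).choose c`, the number of `S₂` is at most the number of sets of at most `m` points (the smallest points of the cycles). -/
def S_IS1 : Prop := ∀ (n s : ℕ) (V V' : Perm (Fin n)), 1 ≤ n →
  II s V V' ≤ ∑ c ∈ Finset.range (s + 1), ((fixc V).choose c : ℝ) * ((fixc V').descFactorial c : ℝ) *
    ((∑ j ∈ Finset.range ((s - c) / 2 + 1), (n.choose j : ℝ)) * (n : ℝ) ^ ((s - c) / 2))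

/-- **E1** (the moments improve).  May assume S_MX, S_PAIRB, S_IS1.
Proof. `mom (mixc κ κ) f = ∑ κ g κ h (n!)⁻¹ ∑_y (…)` (MX (5)) `≤ e^(2f) ∑_{s ≤ f} ∑_{c ≤ s} (f/n)^s (mom κ c/c!) (mom κ c) B n^m` (`choose c = descFactorial c / c!`; independence), `m = (s-c)/2`, `B = ∑_{j ≤ m} C(n,j) ≤ (e n/m)^m` for `m ≥ 1` (`m ≤ n`; `B (m/n)^m ≤ ∑ C(n,j) (m/n)^j ≤ (1+m/n)^n ≤ e^m`).
`(f/n)^c (mom κ c)²/c! ≤ 4` for `c < f₀` and `≤ (f^c/c!) n^((1-2ξ)c) ≤ e^f n^((1-2ξ) c)` for `c ≥ f₀`.  `(f/n)^(s-c) B n^m ≤ (f/n)^(2m) (e n²/m)^m = (e f²/m)^m ≤ e^(2f) f^m ≤ e^(2f) n^((s-c)/2)` (`(f/m)^m ≤ e^f`; for `m = 0` it is `≤ 1`).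
Both exponents are at most `max (1-2ξ) (1/2)` per point.  Total `≤ e^(2f) (f+1)² 4 e^(3f) n^(max (1-2ξ) (1/2) f) ≤ e^(8f) …` for `f ≥ 1` (`4 (f+1)² ≤ 16^f ≤ e^(3f)`); for `f = 0` both sides are `1`. -/
def S_E1 : Prop := ∀ (n f₀ : ℕ) (κ : Perm (Fin n) → ℝ) (ξ : ℝ), 1 ≤ n → IsLaw κ → 0 ≤ ξ →
  (∀ j : ℕ, j < f₀ → mom κ j ≤ 2) →
  (∀ j : ℕ, f₀ ≤ j → j ≤ n → mom κ j ≤ (n : ℝ) ^ ((1 - ξ) * j)) →
  ∀ f ≤ n, mom (mixc κ κ) f ≤ Real.exp (8 * f) * (n : ℝ) ^ (max (1 - 2 * ξ) (1 / 2) * f)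

/-- the number of colourings `χ` with colours `0..x`, invariant under `V`, with `s` points of
nonzero colour -/
noncomputable def colc (x s : ℕ) (V : Perm (Fin n)) : ℝ :=
  ((Finset.univ.filter fun χ : Fin n → Fin (x + 1) =>
    (∀ p, χ (V p) = χ p) ∧ (Finset.univ.filter fun p => χ p ≠ 0).card = s).card : ℝ)

/-- **IS2** (a bound for `II` by colourings).
Proof. `II s V V' = ∑_{S, S'} #{bijections e : S → S' with e ∘ V⁻¹ = V' ∘ e}`, `S` invariant under `V`, `S' = e(S)` invariant under `V'`, `|S| = |S'| = s`.  If there is such an `e` then `V|_S` and `V'|_{S'}` have the same number `c` of cycles, and `e` is determined by its values in `S'` at one point of each cycle of `S`: at most `s^c ≤ x^(2c) = x^c · x^c` bijections.  `x^c` is the number of the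
`V`-invariant colourings with nonzero set exactly `S` (each cycle gets one of `x` colours), the same for `S'`, `V'`. -/
def S_IS2 : Prop := ∀ (n s x : ℕ) (V V' : Perm (Fin n)), s ≤ x ^ 2 →
  II s V V' ≤ colc x s V * colc x s V'

/-- the pair type of a colouring -/
def typ {x : ℕ} (V : Perm (Fin n)) (χ : Fin n → Fin (x + 1)) (t : Fin (x + 1) × Fin (x + 1)) : ℕ :=
  (Finset.univ.filter fun p => (χ p, χ (V p)) = t).card

/-- colourings with `s` points of nonzero colour -/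
def sup0 (n x s : ℕ) : Finset (Fin n → Fin (x + 1)) :=
  Finset.univ.filter fun χ => (Finset.univ.filter fun p => χ p ≠ 0).card = s

/-- **KEYA** (counting colourings of a product of conjugates).
Proof. `χ` is invariant under `V y V' y⁻¹` iff `χ (V (y q)) = χ (y (V'⁻¹ q))` for all `q` (put `p = y (V'⁻¹ q)`).  With `χ' = χ ∘ y`: iff `(χ' q, χ' (V'⁻¹ q)) = (χ (y q), χ (V (y q)))` for all `q`.  So the left side counts the triples `(χ, χ', y)` with this property, `χ, χ' ∈ sup0` (`χ' = χ ∘ y` has as many nonzero points as `χ`, and the first components say `χ' = χ ∘ y`).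
For given `χ, χ'` let `a = (χ, χ ∘ V)`, `b = (χ', χ' ∘ V'⁻¹)` : `Fin n → Fin (x+1)²`; the number of `y` with `b = a ∘ y` is `∏_t (#a⁻¹(t))!` if `a` and `b` have the same fibre cardinalities (`typ`), and `0` otherwise. -/
def S_KEYA : Prop := ∀ (n x s : ℕ) (V V' : Perm (Fin n)),
  ∑ y : Perm (Fin n), colc x s (V * (y * V' * y⁻¹)) ≤
    ∑ χ ∈ sup0 n x s, ∑ χ' ∈ sup0 n x s,
      (if typ V χ = typ V'⁻¹ χ' then ∏ t, ((typ V χ t).factorial : ℝ) else 0)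

/-- **KEYB** (sum over all colourings of a product over a permutation).
Proof. More generally, for matrices `z_p` (`p : Fin n`) with nonnegative entries and `∑_{i,j} z_p(i,j)² ≤ 1`: `f(g,z) = ∑_χ ∏_p z_p(χ p, χ (g p)) ≤ ∏_{p : g p = p} ∑_i z_p(i,i)`.  Induction on the number of points moved by `g`.  `g = 1`: equality (product of sums).  Let `g p = q ≠ p`, `r = g⁻¹ p` (`r ≠ p`).
Let `g' = swap p q * g` (`g' r = q`, `g' p = p`, otherwise `g' = g`; it moves fewer points), `z'_r = z_r z_p` (matrix product, `∑ (z_r z_p)² ≤ 1` by Cauchy-Schwarz), `z'_p` = the matrix with the single nonzero entry `1` at `(0,0)` (`m ≥ 1`; for `m = 0`, `n ≥ 1` the left side is an empty sum), `z' = z` otherwise.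
Summing over `χ p` gives `f(g,z) = f(g',z')`.  By induction `≤ ∏_{u : g' u = u} tr z'_u`; the fixed points of `g'` are those of `g`, `p` (trace `1`), and, if `r = q`, also `q` with `tr (z_r z_p) ≤ 1` (Cauchy-Schwarz). -/
def S_KEYB : Prop := ∀ (n m : ℕ) (g : Perm (Fin n)) (z : Fin m → Fin m → ℝ),
  (∀ i j, 0 ≤ z i j) → ∑ i, ∑ j, z i j ^ 2 ≤ 1 →
  ∑ χ : Fin n → Fin m, ∏ p, z (χ p) (χ (g p)) ≤ (∑ i, z i i) ^ fixc g

/-- **KEYC** (multinomial coefficients).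
Proof. `M = ∑_{t ≠ t₀} N t ≤ 2s`, `N t₀ = n - M`.  `∏_{t ≠ t₀} (N t)! ≤ ∏_{t ≠ t₀} (N t)^(N t)`; `(N t₀)!/n! = 1/(n)_M ≤ e^M/n^M` (`(n)_M ≥ (n/e)^M`, see PAIRB).  `(N t₀/n)^(N t₀) = (1 - M/n)^(n-M) ≥ e^(-M)` (`log (1-t) ≥ -t/(1-t)`).  Together `∏ (N t)! ≤ n! e^(2M) ∏ (N t/n)^(N t)`.
(2) such `N` correspond to the functions on `{t ≠ t₀}` with sum at most `2s`; their number is `C(2s + |τ| - 1, |τ| - 1) ≤ 2^(2s+|τ|)` (for example: at most `2^(2s+|τ|)` words of dots and bars). -/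
def S_KEYC : Prop := ∀ (τ : Type) [Fintype τ] [DecidableEq τ] (t₀ : τ) (n s : ℕ), 1 ≤ n →
  (∀ N : τ → ℕ, ∑ t, N t = n → ∑ t ∈ Finset.univ.erase t₀, N t ≤ 2 * s →
    ∏ t, ((N t).factorial : ℝ) ≤ (n.factorial : ℝ) * Real.exp (4 * s) *
      ∏ t, ((N t : ℝ) / n) ^ (N t)) ∧
  (∀ 𝒩 : Finset (τ → ℕ), (∀ N ∈ 𝒩, ∑ t, N t = n ∧ ∑ t ∈ Finset.univ.erase t₀, N t ≤ 2 * s) →
    𝒩.card ≤ 2 ^ (2 * s + Fintype.card τ))

/-- **KEY** (the expected number of colourings of a product of random conjugates).  May assume S_KEYA, S_KEYB, S_KEYC.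
Proof. For `χ ∈ sup0` the type `N = typ V χ` has `∑ N = n` and `∑_{t ≠ (0,0)} N t ≤ 2 s` (`χ p ≠ 0` or `χ (V p) ≠ 0`).  With `z_t = √(N t/n)` (`∑ z² = 1`): KEYC gives, if `typ V χ = typ V'⁻¹ χ' = N`, `∏ (N t)!/n! ≤ e^(4s) ∏_t z_t^(2 N t) = e^(4s) (∏_p z(χ p, χ (V p))) (∏_p z(χ' p, χ' (V'⁻¹ p)))`.  Sum over `χ, χ'` of type `N` and then over all types `N`
(at most `2^(2s+(x+1)²)`): KEYB gives `≤ e^(4s) ∑_N (tr z)^(fixc V + fixc V')` (`fixc V'⁻¹ = fixc V'`), and `tr z = √(N(0,0)/n) + ∑_{i ≥ 1} √(N(i,i)/n) ≤ 1 + √(x s/n)` (Cauchy-Schwarz, `∑_{i≥1} N(i,i) ≤ s`).  `(x+1)² ≤ (2√s+1)² ≤ 9 s`, `2^(11 s) ≤ e^(8s)`. -/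
def S_KEY : Prop := ∀ (n x s : ℕ) (V V' : Perm (Fin n)), 1 ≤ s → s ≤ n → x ^ 2 ≤ 4 * s →
  (n.factorial : ℝ)⁻¹ * ∑ y : Perm (Fin n), colc x s (V * (y * V' * y⁻¹)) ≤
    Real.exp (12 * s) * (1 + √(x * s / n)) ^ (fixc V + fixc V')

/-- **MOMT** (exponential moments).
Proof. `(1+t)^(fixc g) = ∑_j t^j C(fixc g, j)`, so the left side is `∑_{j ≤ n} t^j mom κ j/j!`.  `j < f₀`: at most `2 ∑ t^j/j! ≤ 2 e^t`.  `j ≥ f₀`: `t^j n^(7j/10)/j! ≤ (e t n^(7/10)/j)^j ≤ (2 e n^(19/20)/f₀)^j ≤ 2^(-j)` (`j! ≥ (j/e)^j`, `4 e ≤ 12`); the sum is at most `1 ≤ e^t` (`f₀ ≥ 1` since `n ≥ 1`). -/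
def S_MOMT : Prop := ∀ (n f₀ : ℕ) (κ : Perm (Fin n) → ℝ) (t : ℝ), 1 ≤ n → IsLaw κ →
  12 * (n : ℝ) ^ (19 / 20 : ℝ) ≤ f₀ → 0 ≤ t → t ≤ 2 * (n : ℝ) ^ (1 / 4 : ℝ) →
  (∀ j : ℕ, j < f₀ → mom κ j ≤ 2) →
  (∀ j : ℕ, f₀ ≤ j → j ≤ n → mom κ j ≤ (n : ℝ) ^ ((7 / 10 : ℝ) * j)) →
  ∑ g, κ g * (1 + t) ^ (fixc g) ≤ 3 * Real.exp t

/-- **E2** (after two more steps all moments are exponentially bounded).  May assume S_MX, S_PAIRB, S_IS2, S_KEY, S_MOMT.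
Proof. `κ₂ = mixc κ κ`.  For `1 ≤ s ≤ n`, `x = ⌈√s⌉` (`s ≤ x²`, `x ≤ √s + 1 ≤ 2 √s`): `E_{κ₂} colc x s = ∑ κ g κ h (n!)⁻¹ ∑_y colc x s (g y h y⁻¹) ≤ e^(12 s) (∑ κ g (1+t)^(fixc g))²`, `t = √(x s/n)`: `t² ≤ 2 s^(3/2)/n ≤ 2 √s`, so `t ≤ 2 n^(1/4)`, `t ≤ 2 s`; MOMT: `≤ 9 e^(16 s)`.
`mom (mixc κ₂ κ₂) f ≤ e^(2f) ∑_{s ≤ f} (f/n)^s ∑ κ₂ V κ₂ V' II s V V' ≤ e^(2f) (1 + ∑_{1 ≤ s ≤ f} (9 e^(16 s))²) ≤ e^(2f) (1 + 81 f e^(32 f)) ≤ e^(40 f)` for `f ≥ 1` (`II 0 V V' = 1`; IS2; `f/n ≤ 1`). -/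
def S_E2 : Prop := ∀ (n f₀ : ℕ) (κ : Perm (Fin n) → ℝ), 1 ≤ n → IsLaw κ →
  12 * (n : ℝ) ^ (19 / 20 : ℝ) ≤ f₀ → (∀ j : ℕ, j < f₀ → mom κ j ≤ 2) →
  (∀ j : ℕ, f₀ ≤ j → j ≤ n → mom κ j ≤ (n : ℝ) ^ ((7 / 10 : ℝ) * j)) →
  ∀ f : ℕ, 1 ≤ f → f ≤ n →
    mom (mixc (mixc κ κ) (mixc κ κ)) f ≤ Real.exp (40 * f)

/-- iterated mixing -/
noncomputable def itm (κ : Perm (Fin n) → ℝ) : ℕ → Perm (Fin n) → ℝ
  | 0 => κ
  | j + 1 => mixc (itm κ j) (itm κ j)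

/-- **E3** (all moments after boundedly many steps).  May assume S_MOM0, S_MX, S_E1, S_E2.
Proof. Let `f₀ = ⌈n^(1-γ')⌉` (`≥ 12 n^(19/20)` for large `n` as `γ' < 1/20`); for `j < f₀` we have `j ≤ n^α`, so `prT (itm κ i) a b ≤ 2/(n)_j` for all `i` (MX (3)) and `mom (itm κ i) j ≤ 2` (MOM0; `n.descFactorial j` tuples).  `ξ_0 = ξ`, `ξ_{i+1} = min (2 ξ_i) (1/2) - 8/log n`: E1 gives
`mom (itm κ i) f ≤ n^((1-ξ_i) f)` for `f ≥ f₀` (`e^(8f) = n^(8f/log n)`) as long as `0 ≤ ξ_i`.  For `J₁ = ⌈log (1/ξ)/log 2⌉ + 1`-many steps and large `n`, `ξ_{J₁} ≥ 3/10` (the losses `8/log n` are summed with bounded coefficients).  Then E2 for `κ := itm κ J₁`; `itm κ (J₁+2) = mixc (mixc κ' κ') (mixc κ' κ')`, `κ' = itm κ J₁`. -/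
def S_E3 : Prop := ∀ ξ γ' α : ℝ, 0 < ξ → ξ ≤ 1 / 4 → 0 < γ' → γ' < 1 / 20 → 1 - γ' < α → α < 1 →
  ∃ J : ℕ, ∀ᶠ n : ℕ in atTop, ∀ κ : Perm (Fin n) → ℝ, IsLaw κ →
  (∀ f : ℕ, f ≤ n → (n : ℝ) ^ (1 - γ') ≤ f → mom κ f ≤ (n : ℝ) ^ ((1 - ξ) * f)) →
  (∀ j : ℕ, (j : ℝ) ≤ (n : ℝ) ^ α → ∀ a b : Fin j ↪ Fin n,
    prT κ a b ≤ 2 / (n.descFactorial j : ℝ)) →
  ∀ f : ℕ, 1 ≤ f → f ≤ n → mom (itm κ J) f ≤ Real.exp (40 * f)

end Pool.Agent.Helper6.NX
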