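import Pool.Agent.Helper6.NX.GoalsD
import Pool.Agent.Helper6.T5.Hit

/-! Project NX, goals E: spectral part and the final theorem. -/

set_option linter.unusedVariables false

namespace Pool.Agent.Helper6.NX

open Matrix Equiv Filter Topology Pool.Agent.Helper15.An
open scoped ComplexOrder
open Pool.Agent.Helper3.AK (lazyLaw)

variable {n : ℕ}

/-- **F1** (moments bound the traces).
Proof. `F.col g h` summed over `h ∈ stab n f` and over `g` with weights `κ g` (only even `g` matter): `∑_i tr (wop ρ_i κ) tr (psum ρ_i (stab n f)) = ∑_g κ g |intoS (fix g) f|` (`sum_stab_eq`), and `|intoS S f| = |S|.descFactorial f · (n-f)!` (`f ≤ n`; permutations with prescribed values; `intoS_succ`, `intoS_zero` in Count.lean),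
so the right side is `(n-f)! mom κ f`.  `tr psum` is real and `≥ 0` (`trace_psum_real`, `trace_psum_nonneg`); take real parts; all terms are `≥ 0`.  If `HasFix ρ_i (stab n f)`: `tr psum ≥ |stab n f| ≥ (n-f)!/2` (`le_trace_psum`, `fixI_le_card_stab`, `|fixI n f| = (n-f)!`).  For `f = n` the group `stab n n` is trivial: `tr psum = D_i`, `(n-n)! = 1`. -/
def S_F1 : Prop := ∀ (n : ℕ) (F : PW (Perm (Fin n))) (κ : Perm (Fin n) → ℝ), IsLaw κ →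
  (∀ g, g ∉ Alt n → κ g = 0) → (∀ i, 0 ≤ (trace (wop (F.ρ i) κ)).re) →
  (∀ f ≤ n, ∀ i, HasFix (F.ρ i) (stab n f) → (trace (wop (F.ρ i) κ)).re ≤ 2 * mom κ f) ∧
  ∀ i, (F.D i : ℝ) * (trace (wop (F.ρ i) κ)).re ≤ mom κ n

/-- **IT** (traces of the iterated mixtures).  May assume S_MX.
Proof. MX (4), (1), induction on `J`: `tr (wop ρ (mixc κ κ))/D = (tr (wop ρ κ)/D)²`.  If `tr (wop ρ κ)` is real then so are all the others. -/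
def S_IT : Prop := ∀ (n D J : ℕ) (ρ : Perm (Fin n) →* Matrix (Fin D) (Fin D) ℂ)
  (κ : Perm (Fin n) → ℝ), IsIrr ρ → IsLaw κ →
  (((trace (wop ρ κ)).re : ℝ) : ℂ) = trace (wop ρ κ) →
  (trace (wop ρ (itm κ J))).re = D * ((trace (wop ρ κ)).re / D) ^ (2 ^ J)

/-- **LT** (the lazy walk in a representation).  May use `lzw_all : S_LZW` (Helper6/GP/LZW.lean).
Proof. `P = wop ρ (tupW x)` is Hermitian with spectrum in `[-1,1]` (`wop_isHermitian`, `one_sub_wop`, `wop_add_one`, `tupW_isSP`), `wop ρ (lazyLaw x (2T)) = ((1+P)/2)^(2T)` (LZW) has the eigenvalues `((1+λ)/2)^(2T) ∈ [0,1]`, `≥ (1-g/2)^(2T)` for `λ ≥ 1-g` (`g ≤ 1`).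
The trace is the sum of the eigenvalues (spectral theorem, `spec_decomp`). -/
def S_LT : Prop := ∀ (n k D T : ℕ) (x : Fin k → Alt n)
  (ρ : Perm (Fin n) →* Matrix (Fin D) (Fin D) ℂ), 1 ≤ k → (∀ g, (ρ g)ᴴ * ρ g = 1) →
  (((trace (wop ρ (lazyLaw x (2 * T)))).re : ℝ) : ℂ) = trace (wop ρ (lazyLaw x (2 * T))) ∧
  0 ≤ (trace (wop ρ (lazyLaw x (2 * T)))).re ∧ (trace (wop ρ (lazyLaw x (2 * T)))).re ≤ D ∧
  ∀ (hT : (wop ρ (tupW x)).IsHermitian) (g : ℝ), 0 ≤ g → g ≤ 1 →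
    (Fintype.card (TopIdx hT (1 - g)) : ℝ) * (1 - g / 2) ^ (2 * T) ≤
      (trace (wop ρ (lazyLaw x (2 * T)))).re

/-- **CB** (character bound with a binomial coefficient).
Proof. Exactly the proofs of `char_bound` (Pool/Agent/Helper15/An/Char.lean) and `char_bound_mat` (CharMat.lean), with the number of `s`-subsets of `T` bounded by `n.choose s` (`Finset.card_powersetCard`, `Nat.choose_le_choose`) instead of `n^s`. -/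
def S_CB : Prop := ∀ (n D : ℕ) (ρ : Perm (Fin n) →* Matrix (Fin D) (Fin D) ℂ) (r J : ℕ),
  (∀ g, (ρ g)ᴴ * ρ g = 1) → ¬ HasFix ρ (stab n r) → 64 ≤ n → 16 * (r + 1) ≤ n →
  20 * (12 * J + 1) ≤ n → ∀ g : Perm (Fin n), 10 * fixc g < n →
  ‖Matrix.trace (ρ g)‖ ≤
    (2 * (n.choose (12 * J) : ℝ) * (7 / 8) ^ (r + 1) + 1 / 2 ^ J) * D

/-- **F2** (exponentially small normalized traces on the high levels).  May assume S_CB.
Proof. `c ≤ 1/32`, `r = ⌊c n⌋` (`16 (r+1) ≤ n` for large `n`), `J = ⌊c' n⌋` with `c' > 0` so small that `n.choose (12 J) ≤ (e n/(12J))^(12J) ≤ exp (12 c' n log (e/(12 c')) + o(n)) ≤ exp (c n/20)` (the function `u log (e/u)` tends to `0` as `u → 0`); `(7/8)^(c n) ≤ exp (-c n/8)`.  So for `10 fixc g < n`: `|tr ρ(g)| ≤ exp (-2 c'' n) D`.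
The others: with `f = ⌊n/20⌋`, `(n/10)_f ≥ (n/20)^f`, `P(10 fixc g ≥ n) (n/20)^f ≤ mom κ f ≤ n^((1-ξ)f)`, so the probability is at most `20^f n^(-ξ f) ≤ exp (-n)` for large `n`, and `|tr ρ(g)| ≤ D`.  Sum: `≤ exp (-c₇ n) D`. -/
def S_F2 : Prop := ∀ c : ℝ, 0 < c → c ≤ 1 / 32 → ∃ c₇ : ℝ, 0 < c₇ ∧ ∀ ξ : ℝ, 0 < ξ → ξ ≤ 1 →
  ∀ᶠ n : ℕ in atTop, ∀ κ : Perm (Fin n) → ℝ, IsLaw κ →
  (∀ f : ℕ, f ≤ n → n ≤ 40 * f → mom κ f ≤ (n : ℝ) ^ ((1 - ξ) * f)) →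
  ∀ (D : ℕ) (ρ : Perm (Fin n) →* Matrix (Fin D) (Fin D) ℂ), (∀ g, (ρ g)ᴴ * ρ g = 1) →
  ¬ HasFix ρ (stab n ⌊c * n⌋₊) → (trace (wop ρ κ)).re ≤ Real.exp (-(c₇ * n)) * D

/-- **F3** (dimension of a representation of level exactly `r`).
Proof. As in `finrank_altfix_le` (Pool/Agent/Helper15/An/Char.lean): with `C` a set of `n - r` points, `altfix ρ C ≠ 0` (from `HasFix ρ (stab n r)`, via `toV` of CharMat.lean), `altfix_le`: `1 ≤ finrank (altfix ρ C) ≤ finrank (fixS ρ C) + finrank (fixS (tw ρ) C)`, and `finrank_fixS_le` for `ρ` and `tw ρ` with its `r := r - 1`, `lam := r`, `T = C`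
(`2r + 1 < n - r`): `≤ (1 - ((n-r) - 2r - 1)/(n - 2r - 1))^r D = (r/(n-2r-1))^r D`.  So `1 ≤ 2 (r/(n-2r-1))^r D`. -/
def S_F3 : Prop := ∀ (n r D : ℕ) (ρ : Perm (Fin n) →* Matrix (Fin D) (Fin D) ℂ), 1 ≤ r →
  4 * r + 4 ≤ n → (∀ g, (ρ g)ᴴ * ρ g = 1) → HasFix ρ (stab n r) → ¬ HasFix ρ (stab n (r - 1)) →
  (((n : ℝ) - 2 * r - 1) / r) ^ r ≤ 2 * D

/-- **SPEC** (all traces after boundedly many steps are tiny on the levels above `n^(1-γ')`).  May assume S_F1, S_F2, S_F3, S_IT, S_MX.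
Proof. Write `τ = tr/D ∈ [0,1]`; `tr (wop ρ (itm κ j)) = D τ^(2^j)` (IT).  `c ≤ 1/32` such that `((1-2c)/c - 1) ≥ 2 e^84`, so that for `1 ≤ r ≤ c n`, `n` large, `(n-2r-1)/r ≥ e^84`.  `c₇` from F2 for this `c`.  Let `m = ⌈n^(1-γ')⌉`, `i` with `¬ HasFix (stab n m)`; F1 for `itm κ J` (supported on `Alt n` by MX, all traces `≥ 0` by IT):
(a) level `r` exactly (`HasFix (stab n r)`, `¬ HasFix (stab n (r-1))`; such an `r ≤ n` exists by `hasFix_top`), `m < r ≤ c n`: `D τ^(2^J) ≤ 2 e^(40 r)`, so `D τ^(2^(J+1)) = (D τ^(2^J))²/D ≤ 4 e^(80 r)/D ≤ 8 e^(80 r) e^(-84 r) ≤ e^(-r)` for `r ≥ 1` large (F3).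
(b) `¬ HasFix (stab n ⌊c n⌋)` and `D ≤ e^(41 n)`: `τ ≤ e^(-c₇ n)` (F2), so `D τ^(2^J') ≤ e^(41 n - c₇ 2^J' n) ≤ e^(-n)` if `2^J' c₇ ≥ 42`.  (c) `D ≥ e^(41 n)`: `D² τ^(2^J) ≤ e^(40 n)`, so `D τ^(2^J) ≤ e^(-n)`.  Take `J'` the maximum of `J+1` and the `J'` of (b); `τ ≤ 1` makes larger exponents harmless. -/
def S_SPEC : Prop := ∀ (ξ γ' : ℝ) (J : ℕ), 0 < ξ → ξ ≤ 1 → 0 < γ' → γ' < 1 → ∃ J' : ℕ,
  ∀ᶠ n : ℕ in atTop, ∀ κ : Perm (Fin n) → ℝ, IsLaw κ → (∀ g, g ∉ Alt n → κ g = 0) →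
  (∀ f : ℕ, f ≤ n → (n : ℝ) ^ (1 - γ') ≤ f → mom κ f ≤ (n : ℝ) ^ ((1 - ξ) * f)) →
  (∀ f : ℕ, 1 ≤ f → f ≤ n → mom (itm κ J) f ≤ Real.exp (40 * f)) →
  ∀ F : PW (Perm (Fin n)),
  (∀ i, (((trace (wop (F.ρ i) κ)).re : ℝ) : ℂ) = trace (wop (F.ρ i) κ) ∧
    0 ≤ (trace (wop (F.ρ i) κ)).re ∧ (trace (wop (F.ρ i) κ)).re ≤ F.D i) →
  ∀ i, ¬ HasFix (F.ρ i) (stab n ⌈(n : ℝ) ^ (1 - γ')⌉₊) →
    (F.D i : ℝ) * ((trace (wop (F.ρ i) κ)).re / F.D i) ^ (2 ^ J') ≤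
      Real.exp (-((n : ℝ) ^ (1 - γ')))

/-- the number of eigenvalues at least `1 - g` of the walk in the representation `i` -/
noncomputable def dd (F : PW (Perm (Fin n))) {k : ℕ} (z : Fin k → Alt n) (i : Fin F.c)
    (g : ℝ) : ℕ := by
  classical exact if h : (wop (F.ρ i) (tupW z)).IsHermitian then
    Fintype.card (TopIdx h (1 - g)) else 0

/-- **OV** (the top eigenspaces of the walks with and without a fresh generator).  See S_NEAR in Helper6/GP/Goals.lean (proved; find the theorem of this type) for (2), (3) there.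
Proof. `P = wop ρ (tupW z)`, `P' = wop ρ (tupW (snoc z y))`, `g' = g/(256 (k+1))`, `Π = topIso * topIsoᴴ` the projection onto the eigenvalues `≥ 1-g` of `P`.  Let `v` be in the span `E'` of the eigenvectors of `P'` with eigenvalue `≥ 1-g'`, `‖v‖ = 1`: `1 - ⟨P' v, v⟩ ≤ g'`, so `1 - ⟨P v, v⟩ ≤ 2 g'` and `‖ρ(y) v - v‖² ≤ 2 (k+1) g' ≤ 1/128` (NEAR).
`g ‖(1-Π) v‖² ≤ 1 - ⟨P v,v⟩` (`gap_off_top`), so `‖(1-Π)v‖² ≤ 2g'/g ≤ 1/256`, `‖(1-Π) v‖ ≤ 1/16`.  With `Π^y = ρ(y) Π ρ(y)ᴴ`: `‖(1-Π^y) v‖ = ‖(1-Π) ρ(y)ᴴ v‖ ≤ 1/16 + 1/11`.  So `‖Π^y Π v‖ ≥ ‖v‖ - ‖(1-Π) v‖ - ‖(1-Π^y) Π v‖ ≥ 1 - 1/16 - (1/16 + 1/11 + 1/16) ≥ 7/10`... and `(18/25)² ≥ 1/2` (compute with the exact numbers: `1 - 3/16 - 1/11 > 0.72`).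
For the orthonormal basis `v_j` of `E'` (columns of `topIso` of `P'`), extended to an orthonormal basis: `tr (Π Π^y Π) = ∑ ‖Π^y Π v_j‖² ≥ card/2`.  `tr (Π Π^y Π) = tr (Π^y Π)`. -/
def S_OV : Prop := ∀ (n k D : ℕ) (z : Fin k → Alt n) (y : Alt n) (g : ℝ)
  (ρ : Perm (Fin n) →* Matrix (Fin D) (Fin D) ℂ) (h : (wop ρ (tupW z)).IsHermitian)
  (h' : (wop ρ (tupW (Fin.snoc z y : Fin (k + 1) → Alt n))).IsHermitian), 1 ≤ k →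
  (∀ g, (ρ g)ᴴ * ρ g = 1) → 0 < g → g ≤ 1 →
  (Fintype.card (TopIdx h' (1 - g / (256 * (k + 1)))) : ℝ) ≤
    2 * (trace (ρ (y : Perm (Fin n)) * (topIso h (1 - g) * (topIso h (1 - g))ᴴ) *
      (ρ (y : Perm (Fin n)))ᴴ * (topIso h (1 - g) * (topIso h (1 - g))ᴴ))).re

/-- **STEP** (one fresh generator).  May assume S_OV.
Proof. `Π = topIso * topIsoᴴ`, `tr Π = d = dd F z i g`.  `∑_{y ∈ Alt n} tr (ρ(y) Π ρ(y)ᴴ Π) ≤ (2 |Alt n| d/D) tr Π = 2 |Alt n| d²/D` (`design` for `y⁻¹`, `trace_mul_mono`; `card_Alt`).  With OV: `∑_y dd F (snoc z y) i g' ≤ 4 |Alt n| d²/D`; Markov: at most `|Alt n|/(n c)` elements `y` have `D · dd F (snoc z y) i g' > 4 n c d²` (if `d = 0` all summands vanish).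
Sum over the `c = F.c` indices `i`.  (If the matrix is not Hermitian `dd = 0`; it is, by `wop_isHermitian` and `tupW_isSP`.) -/
def S_STEP : Prop := ∀ (n k : ℕ) (z : Fin k → Alt n) (F : PW (Perm (Fin n))) (g : ℝ), 1 ≤ k →
  2 ≤ n → 0 < g → g ≤ 1 →
  (Nat.card {y : Alt n // ∃ i, 4 * (n : ℝ) * F.c * (dd F z i g : ℝ) ^ 2 <
    F.D i * (dd F (Fin.snoc z y : Fin (k + 1) → Alt n) i (g / (256 * (k + 1))) : ℝ)} : ℝ) * n ≤
    Fintype.card (Alt n)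

/-- **CHN** (boundedly many fresh generators).  May assume S_STEP.
Proof. Induction on `J`: `Fin.append z (snoc y a) = snoc (append z y) a`.  `dd F x i` is monotone in `g`.  If for `y : Fin J → Alt n` the conclusion holds, i.e. `4 n c dd_J ≤ D (4 n c dd_0/D)^(2^J)` for all `i`, and `a` is not exceptional in STEP for `append z y` with `g/(256(k+J))^J ≤ 1` (`1 ≤ k + J`; `J = 0` is trivial), then
`4 n c dd_{J+1} ≤ (4 n c dd_J)²/D ≤ D (4 n c dd_0/D)^(2^(J+1))`, for the gap parameter `g/((256(k+J))^J · 256 (k+J+1)) ≥ g/(256(k+J+1))^(J+1)`.  The exceptional pairs `(y, a)`: at most `(J/n) |A|^J · |A| + |A|^J |A|/n`. -/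
def S_CHN : Prop := ∀ (n k J : ℕ) (z : Fin k → Alt n) (F : PW (Perm (Fin n))) (g : ℝ), 1 ≤ k →
  2 ≤ n → 0 < g → g ≤ 1 →
  (Nat.card {y : Fin J → Alt n // ∃ i, (F.D i : ℝ) *
      (4 * (n : ℝ) * F.c * (dd F z i g : ℝ) / F.D i) ^ (2 ^ J) <
    4 * (n : ℝ) * F.c *
      (dd F (Fin.append z y) i (g / (256 * ((k : ℝ) + J)) ^ J) : ℝ)} : ℝ) * n ≤
    J * (Fintype.card (Alt n) : ℝ) ^ J

/-- **TOPZ** (no eigenvalue near one).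
Proof. All eigenvalues of `wop (F.ρ i) (tupW z)` are `< 1 - g` (`TopIdx` empty); `posSemidef_of_eigenvalues_le`. -/
def S_TOPZ : Prop := ∀ (n k : ℕ) (z : Fin k → Alt n) (F : PW (Perm (Fin n))) (i : Fin F.c)
  (g : ℝ), 1 ≤ k → dd F z i g = 0 →
  ((1 - g) • (1 : Matrix (Fin (F.D i)) (Fin (F.D i)) ℂ) - wop (F.ρ i) (tupW z)).PosSemidef

/-- **SUBT** (more generators).
Proof. `wop_tupW`: `k' • wop ρ (tupW x) = k • wop ρ (tupW (x ∘ castLE)) + ∑_{j ≥ k} (ρ(x_j) + ρ(x_j)ᴴ)/2`, and `1 - (ρ(x_j) + ρ(x_j)ᴴ)/2 = (1/2)(1-ρ(x_j))ᴴ(1-ρ(x_j)) ≥ 0`.  So `k' (1 - wop ρ (tupW x)) ≥ k (1 - wop ρ (tupW (x ∘ castLE))) ≥ k g`. -/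
def S_SUBT : Prop := ∀ (n k k' D : ℕ) (hk : k ≤ k') (x : Fin k' → Alt n)
  (ρ : Perm (Fin n) →* Matrix (Fin D) (Fin D) ℂ) (g : ℝ), 1 ≤ k → (∀ g, (ρ g)ᴴ * ρ g = 1) →
  ((1 - g) • (1 : Matrix (Fin D) (Fin D) ℂ) -
    wop ρ (tupW (fun j => x (Fin.castLE hk j)))).PosSemidef →
  ((1 - k / k' * g) • (1 : Matrix (Fin D) (Fin D) ℂ) - wop ρ (tupW x)).PosSemidef

/-- **NUM** (numbers).
Proof. `F.c ≤ (n+1)^(2√n+2)` (`irr_count`, Pool/Agent/Helper6/E/Ingr.lean).  Suppose `d ≥ 1`.  `d₀ ≤ (1-g/2)^(-2T) D τ ≤ e^(2 T g) D τ` (`1 - u ≥ e^(-2u)` for `0 ≤ u ≤ 1/2`), `2 T g ≤ 4 n^(1-2γ')` (`T ≤ 2 n^(1+2γ+5γ')`), so `4 n c ≤ 4 n c d ≤ D (4 n c e^(2Tg) τ)^(2^J) = (4 n c e^(2Tg))^(2^J) D τ^(2^J) ≤ exp (2^J (log (4 n c) + 4 n^(1-2γ')) - n^(1-γ')) < 1` for large `n` since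
`log (4 n c) ≤ (2√n+4) log (n+1) ≤ n^(1-2γ')` (`γ' < 1/8`).  Contradiction to `4 n c ≥ 1` (`F.c ≥ 1` as `F.c` has the index `i`). -/
def S_NUM : Prop := ∀ (γ γ' : ℝ) (J : ℕ), 0 < γ → γ < 1 → 0 < γ' → γ' < 1 / 8 →
  ∀ᶠ n : ℕ in atTop, ∀ (F : PW (Perm (Fin n))) (i : Fin F.c) (d₀ d : ℕ) (t : ℝ), 0 ≤ t →
  (d₀ : ℝ) * (1 - (n : ℝ) ^ (-(2 * γ + 7 * γ')) / 2) ^
    (2 * ⌈(n : ℝ) ^ (1 + 2 * γ + 5 * γ')⌉₊) ≤ t →
  (F.D i : ℝ) * (t / F.D i) ^ (2 ^ J) ≤ Real.exp (-((n : ℝ) ^ (1 - γ'))) →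
  4 * (n : ℝ) * F.c * d ≤ F.D i * (4 * (n : ℝ) * F.c * d₀ / F.D i) ^ (2 ^ J) → d = 0

/-- **MAIN** (the gap).  May assume S_BCD, S_E3, S_SPEC, S_LT, S_CHN, S_TOPZ, S_SUBT, S_NUM; may use `small_uniform`, `lzw_all`, `Pool.Agent.Helper56.GP.TGR.thm`. -/
def S_MAIN : Prop := ∀ γ : ℝ, 0 < γ → ∃ k₀ : ℕ, 1 ≤ k₀ ∧ ∀ k : ℕ, k₀ ≤ k →
  Tendsto (fun n : ℕ => (Nat.card {x : Fin k → Alt n // ∀ F : PW (Perm (Fin n)),
    Good F (tupW x) n ((n : ℝ) ^ (-γ))} : ℝ) / Nat.card (Fin k → Alt n)) atTop (𝓝 1)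

/-- **MIXT** (equidistribution from a gap; a general finite group written for `Alt n`).
Proof. Let `N = |Alt n|`, `L` the operator of the lazy walk on functions on `Alt n` (self-adjoint, `0 ≤ L`, `L 1 = 1`, and `⟨f, L f⟩ ≤ (1 - g/2) ⟨f,f⟩` on the functions of sum zero).  For `δ_h - 1/N` (sum zero, norm `≤ 1`): `L^t` has norm `≤ (1-g/2)^t` on the sum zero functions (invariant subspace; spectral theorem, or `‖L^(s) f‖² ≤ …` by induction: for self-adjoint `L` with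
`0 ≤ L ≤ 1 - g/2` on the invariant subspace, `‖L f‖² ≤ (1-g/2)² ‖f‖²`), so `|⟨δ_a, L^t (δ_h - 1/N)⟩| ≤ (1-g/2)^t ≤ exp (-g t/2) ≤ 1/(2N)` when `g t ≥ 2 log (2N)`.  `⟨δ_a, L^t δ_h⟩` is the probability in question. -/
def S_MIXT : Prop := ∀ (n k t : ℕ) (x : Fin k → Alt n) (g : ℝ), 1 ≤ k → 0 < g → g ≤ 1 →
  (∀ f : Alt n → ℝ, ∑ a, f a = 0 →
    ∑ a, f a * Pool.Agent.Helper6.FixK.walk x f a ≤ (1 - g) * ∑ a, f a ^ 2) →
  2 * Real.log (2 * Fintype.card (Alt n)) ≤ g * t →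
  ∀ a h : Alt n, |(Pool.Agent.Helper6.T5.lwalk x)^[t] (fun b => if b = h then 1 else 0) a -
    1 / (Fintype.card (Alt n) : ℝ)| ≤ 1 / 2 * (1 / (Fintype.card (Alt n) : ℝ))

end Pool.Agent.Helper6.NX
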