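import Pool.Agent.Helper6.NX.Explicit

/-! Project NX: the explicit form of the main theorem, second part. -/

set_option linter.unusedVariables false
set_option linter.unusedSectionVars false

namespace Pool.Agent.Helper6.NX

open Matrix Equiv Filter Topology Pool.Agent.Helper15.An
open scoped ComplexOrder
open Pool.Agent.Helper3.AK (lazyLaw)

/-- the deterministic part with all parameters -/
theorem det2 (hBCD : S_BCD) (hE3 : S_E3U) (hSPEC : S_SPECU) (hLT : S_LT) (hTOPZ : S_TOPZ)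
    (hSUBT : S_SUBT) (hNUM : S_NUM) :
    ∃ (τ₁ γ₀ : ℝ) (J : ℕ), 0 < τ₁ ∧ 0 < γ₀ ∧ ∀ (k₁ : ℕ) (γ γ₁ γ' α ε₁ : ℝ), 2 ≤ k₁ →
      0 < γ → 0 < γ₁ → γ₁ ≤ γ₀ → γ₁ ≤ 1 / 2 → 0 < γ' → γ' ≤ 1 / 40 → 1 / 2 < α → α < 1 →
      1 - γ₁ / 20 < α → 1 - γ' < α → 2 * (1 - α) * Real.log (2 * k₁ / τ₁) < τ₁ * γ₁ →
      2 * γ₁ + 7 * γ' < γ → 0 < ε₁ → ∀ m : ℕ, ∀ᶠ n : ℕ in atTop,
      ∀ x : Fin (k₁ + J + m) → Alt n,
      GZ (fun i : Fin k₁ => x (Fin.castAdd m (Fin.castAdd J i))) α ε₁ →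
      QZ ((n : ℝ) ^ (-(2 * γ₁ + 7 * γ'))) (fun i : Fin k₁ => x (Fin.castAdd m (Fin.castAdd J i)))
        (fun i : Fin J => x (Fin.castAdd m (Fin.natAdd k₁ i))) →
      Good (pwn n) (tupW x) n ((n : ℝ) ^ (-γ)) := by
  obtain ⟨τ₁, ξ, γ₀, hτ₁, hτ₂, hξ, hξ4, hγ₀, hγ₀1, hbcd⟩ := hBCD
  obtain ⟨J₀, hJ₀'⟩ := hE3 ξ hξ hξ4
  obtain ⟨J, hJ'⟩ := hSPEC J₀
  refine ⟨τ₁, γ₀, J, hτ₁, hγ₀, ?_⟩
  intro k₁ γ γ₁ γ' α ε₁ hk₁2 hγ g1 g2 g4 g5 g7 hα1 hα2 hα3 hα4 hα5 hsum hε₁ m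
  have hJ₀ := hJ₀' γ' α g5 (by linarith) hα4 hα2
  have hJ := hJ' ξ γ' hξ (by linarith) g5 (by linarith)
  have hk10 : (0 : ℝ) < k₁ := by
    have : 0 < k₁ := by omega
    exact_mod_cast this
  set ε : ℝ := min ε₁ 1 with hε
  have hε0 : 0 < ε := lt_min hε₁ one_pos
  have hε1 : ε ≤ 1 := min_le_right _ _
  have hεε : ε ≤ ε₁ := min_le_left _ _
  set k : ℕ := k₁ + J + m with hk
  have hkr : (0 : ℝ) < k := by rw [hk]; push_cast; positivity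
  set R : ℝ := (256 * ((k₁ : ℝ) + J)) ^ J with hR
  have hR0 : 0 < R := by rw [hR]; positivity
  have hp1 : 0 < γ := hγ
  have hp2 : 0 < γ - (2 * γ₁ + 7 * γ') := by linarith
  have hp3 : 0 < α - (1 - γ') := by linarith
  filter_upwards [hbcd k₁ γ₁ γ' α ε (by omega) g1 g2 g5 (by linarith) hε0 hε1 hα1 hα2 hα3 hα5,
    hJ₀, hJ, hNUM γ₁ γ' J g1 (by linarith) g5 (by linarith),
    Pool.Agent.Helper3.AK.ev_add_two_le hα2,
    (tendsto_rpow_nat hp1).eventually_ge_atTop (k / (k₁ * ε)),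
    (tendsto_rpow_nat hp2).eventually_ge_atTop (k * R / (k₁ + J)),
    (tendsto_rpow_nat hp3).eventually_ge_atTop (2 : ℝ), eventually_ge_atTop 2]
    with n a1 a2 a3 a4 a5 a6 a7 a8 hn2
  intro x hgz hqz i htriv _
  have hn0 : (0 : ℝ) < n := by
    have : 0 < n := by omega
    exact_mod_cast this
  have hn1 : (1 : ℝ) ≤ n := by
    have : 1 ≤ n := by omega
    exact_mod_cast this
  set z : Fin k₁ → Alt n := fun i : Fin k₁ => x (Fin.castAdd m (Fin.castAdd J i)) with hz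
  set y : Fin J → Alt n := fun i : Fin J => x (Fin.castAdd m (Fin.natAdd k₁ i)) with hy
  have htg : ∀ r : ℕ, (r : ℝ) ≤ (n : ℝ) ^ α → Pool.Agent.Helper3.AK.TupleGap z r ε :=
    fun r hr => Pool.Agent.Helper3.AK.TupleGap.mono_eps hεε (hgz.1 r hr).2
  have hss : Pool.Agent.Helper6.GP.SmallSupp z (Real.exp ((n : ℝ) ^ α)) ε := by
    intro f hf
    refine (hgz.2 f hf).trans ?_
    have : 0 ≤ ∑ g, f g ^ 2 := Finset.sum_nonneg fun _ _ => sq_nonneg _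
    gcongr
  set T : ℕ := ⌈(n : ℝ) ^ (1 + 2 * γ₁ + 5 * γ')⌉₊ with hT
  set κ : Perm (Fin n) → ℝ := lazyLaw z (2 * T) with hκ
  have hlz := Pool.Agent.Helper6.GP.lzw_all n k₁ (2 * T) z (by omega)
  have hκlaw : IsLaw κ := ⟨hlz.2.2.2.1, hlz.2.2.2.2⟩
  have hκalt : ∀ g : Perm (Fin n), g ∉ Alt n → κ g = 0 := hlz.2.1
  obtain ⟨b1, b2⟩ := a1 z htg hss
  have b3 := a2 κ hκlaw b1 b2
  have hLTi : ∀ i : Fin (pwn n).c,
      (((trace (wop ((pwn n).ρ i) κ)).re : ℝ) : ℂ) = trace (wop ((pwn n).ρ i) κ) ∧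
      0 ≤ (trace (wop ((pwn n).ρ i) κ)).re ∧ (trace (wop ((pwn n).ρ i) κ)).re ≤ (pwn n).D i ∧
      ∀ (hT : (wop ((pwn n).ρ i) (tupW z)).IsHermitian) (g : ℝ), 0 ≤ g → g ≤ 1 →
        (Fintype.card (TopIdx hT (1 - g)) : ℝ) * (1 - g / 2) ^ (2 * T) ≤
          (trace (wop ((pwn n).ρ i) κ)).re := fun i =>
    hLT n k₁ _ T z ((pwn n).ρ i) (by omega) ((pwn n).irr i).unit
  have hunit := ((pwn n).irr i).unit
  by_cases hfix : HasFix ((pwn n).ρ i) (stab n ⌈(n : ℝ) ^ (1 - γ')⌉₊)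
  · -- low level
    have hm1 : ((⌈(n : ℝ) ^ (1 - γ')⌉₊ : ℕ) : ℝ) ≤ (n : ℝ) ^ α := by
      have h1 : (⌈(n : ℝ) ^ (1 - γ')⌉₊ : ℝ) < (n : ℝ) ^ (1 - γ') + 1 :=
        Nat.ceil_lt_add_one (by positivity)
      have h2 : (1 : ℝ) ≤ (n : ℝ) ^ (1 - γ') := Real.one_le_rpow hn1 (by linarith)
      have h3 : 2 * (n : ℝ) ^ (1 - γ') ≤ (n : ℝ) ^ α := by
        calc 2 * (n : ℝ) ^ (1 - γ') ≤ (n : ℝ) ^ (α - (1 - γ')) * (n : ℝ) ^ (1 - γ') := by gcongr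
          _ = (n : ℝ) ^ α := by rw [← Real.rpow_add hn0]; congr 1; ring
      linarith
    have h1 := Pool.Agent.Helper56.GP.TGR.thm n k₁ ⌈(n : ℝ) ^ (1 - γ')⌉₊ _ z ε (by omega)
      (a5 _ hm1) (htg _ hm1) ((pwn n).ρ i) ((pwn n).irr i) htriv hfix
    have h2 := hSUBT n k₁ k _ (by omega) x ((pwn n).ρ i) ε (by omega) hunit h1
    refine psd_mono ?_ h2
    rw [Real.rpow_neg hn0.le, inv_le_comm₀ (Real.rpow_pos_of_pos hn0 _) (by positivity)]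
    refine le_trans (le_of_eq ?_) a6
    field_simp
  · -- high level
    have hg0 : 0 ≤ (n : ℝ) ^ (-(2 * γ₁ + 7 * γ')) := (Real.rpow_pos_of_pos hn0 _).le
    have hg1 : (n : ℝ) ^ (-(2 * γ₁ + 7 * γ')) ≤ 1 :=
      Real.rpow_le_one_of_one_le_of_nonpos hn1 (by linarith)
    have hHerm : (wop ((pwn n).ρ i) (tupW z)).IsHermitian :=
      wop_isHermitian ((pwn n).ρ i) hunit (tupW_isSP (by omega) z)
    have h1 := (hLTi i).2.2.2 hHerm _ hg0 hg1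
    have h2 : (Fintype.card (TopIdx hHerm (1 - (n : ℝ) ^ (-(2 * γ₁ + 7 * γ')))) : ℝ) =
        (dd (pwn n) z i ((n : ℝ) ^ (-(2 * γ₁ + 7 * γ'))) : ℝ) := by
      unfold dd
      rw [dif_pos hHerm]
    rw [h2] at h1
    have h3 := a3 κ hκlaw hκalt b1 b3 (pwn n)
      (fun i => ⟨(hLTi i).1, (hLTi i).2.1, (hLTi i).2.2.1⟩) i hfix
    have h4 := a4 (pwn n) i _ _ _ (hLTi i).2.1 h1 h3 (hqz i)
    have h5 := hTOPZ n (k₁ + J) (Fin.append z y) (pwn n) i _ (by omega) h4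
    have hxe : (fun j => x (Fin.castLE (show k₁ + J ≤ k by omega) j)) = Fin.append z y := by
      funext j
      refine Fin.addCases (fun l => ?_) (fun l => ?_) j
      · rw [Fin.append_left]; rfl
      · rw [Fin.append_right]; rfl
    have h6 := hSUBT n (k₁ + J) k _ (by omega) x ((pwn n).ρ i) _ (by omega) hunit (by
      rw [hxe]; exact h5)
    refine psd_mono ?_ h6
    push_cast
    rw [← hR]
    have h7 : (n : ℝ) ^ (-γ) * (n : ℝ) ^ (γ - (2 * γ₁ + 7 * γ')) =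
        (n : ℝ) ^ (-(2 * γ₁ + 7 * γ')) := by
      rw [← Real.rpow_add hn0]; congr 1; ring
    have hkJ : (0 : ℝ) < (k₁ : ℝ) + J := by positivity
    have h8 : (n : ℝ) ^ (-γ) * (k * R / (k₁ + J)) ≤ (n : ℝ) ^ (-(2 * γ₁ + 7 * γ')) := by
      rw [← h7]
      have : 0 < (n : ℝ) ^ (-γ) := Real.rpow_pos_of_pos hn0 _
      gcongr
    have h9 : (n : ℝ) ^ (-γ) * (k * R) ≤
        (n : ℝ) ^ (-(2 * γ₁ + 7 * γ')) * ((k₁ : ℝ) + J) := by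
      rw [mul_div_assoc', div_le_iff₀ hkJ] at h8
      exact h8
    have h10 : ((k₁ : ℝ) + J) / k * ((n : ℝ) ^ (-(2 * γ₁ + 7 * γ')) / R) =
        ((n : ℝ) ^ (-(2 * γ₁ + 7 * γ')) * ((k₁ : ℝ) + J)) / (k * R) := by
      field_simp
    rw [h10, le_div_iff₀ (by positivity)]
    exact h9

end Pool.Agent.Helper6.NX
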