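import Pool.Agent.Helper6.NX.Main2
import Pool.Agent.Helper6.GP.Assembly

/-! Project NX: the explicit form of the main theorem, third part. -/

set_option linter.unusedVariables false
set_option linter.unusedSectionVars false

namespace Pool.Agent.Helper6.NX

open Matrix Equiv Filter Topology Pool.Agent.Helper15.An
open scoped ComplexOrder
open Pool.Agent.Helper3.AK (lazyLaw)

/-- the probabilistic part -/
theorem prob2 (hCHN : S_CHN) (k₁ J m : ℕ) (α ε g γ : ℝ) (hk₁ : 2 ≤ k₁) (hg : 0 < g)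
    (heus : Pool.Agent.Helper6.GP.EUS k₁ α ε)
    (hdet : ∀ᶠ n : ℕ in atTop, ∀ x : Fin (k₁ + J + m) → Alt n,
      GZ (fun i : Fin k₁ => x (Fin.castAdd m (Fin.castAdd J i))) α ε →
      QZ ((n : ℝ) ^ (-g)) (fun i : Fin k₁ => x (Fin.castAdd m (Fin.castAdd J i)))
        (fun i : Fin J => x (Fin.castAdd m (Fin.natAdd k₁ i))) →
      Good (pwn n) (tupW x) n ((n : ℝ) ^ (-γ))) :
    Tendsto (fun n : ℕ => (Nat.card {x : Fin (k₁ + J + m) → Alt n // ∃ F : PW (Perm (Fin n)),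
      Good F (tupW x) n ((n : ℝ) ^ (-γ))} : ℝ) / Nat.card (Fin (k₁ + J + m) → Alt n))
      atTop (𝓝 1) := by
  have hlim : Tendsto (fun n : ℕ => (Nat.card {z : Fin k₁ → Alt n // GZ z α ε} : ℝ) /
      Nat.card (Fin k₁ → Alt n) - (J : ℝ) / n) atTop (𝓝 (1 - 0)) := by
    refine Tendsto.sub heus ?_
    exact tendsto_const_div_atTop_nhds_zero_nat (J : ℝ)
  rw [sub_zero] at hlim
  refine tendsto_of_tendsto_of_tendsto_of_le_of_le' hlim tendsto_const_nhds ?_ ?_
  · filter_upwards [hdet, eventually_ge_atTop 2] with n a1 hn2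
    have hn0 : (0 : ℝ) < n := by
      have : 0 < n := by omega
      exact_mod_cast this
    have hn1 : (1 : ℝ) ≤ n := by
      have : 1 ≤ n := by omega
      exact_mod_cast this
    have h1 := frac_blocks (A := Alt n) k₁ J m Fintype.card_pos (fun z => GZ z α ε)
      (fun z y => QZ ((n : ℝ) ^ (-g)) z y) ((J : ℝ) / n) (by positivity) (fun z _ => by
        have h2 := hCHN n k₁ J z (pwn n) ((n : ℝ) ^ (-g)) (by omega) hn2
          (Real.rpow_pos_of_pos hn0 _)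
          (Real.rpow_le_one_of_one_le_of_nonpos hn1 (by linarith))
        have h3 : (Nat.card {y : Fin J → Alt n // ¬ QZ ((n : ℝ) ^ (-g)) z y} : ℝ) =
            (Nat.card {y : Fin J → Alt n // ∃ i, ((pwn n).D i : ℝ) *
              (4 * (n : ℝ) * (pwn n).c * (dd (pwn n) z i ((n : ℝ) ^ (-g)) : ℝ) /
                (pwn n).D i) ^ (2 ^ J) < 4 * (n : ℝ) * (pwn n).c *
              (dd (pwn n) (Fin.append z y) i
                ((n : ℝ) ^ (-g) / (256 * ((k₁ : ℝ) + J)) ^ J) : ℝ)} : ℝ) := by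
          congr 1
          refine Nat.card_congr (Equiv.subtypeEquivRight fun y => ?_)
          unfold QZ
          push Not
          rfl
        rw [h3, div_mul_eq_mul_div, le_div_iff₀ hn0]
        exact h2)
    refine h1.trans ?_
    refine div_le_div_of_nonneg_right ?_ (Nat.cast_nonneg _)
    refine Nat.cast_le.2 (Nat.card_le_card_of_injective
      (fun x => ⟨x.1, ⟨pwn n, a1 x.1 x.2.1 x.2.2⟩⟩) ?_)
    intro u v huv
    exact Subtype.ext (by simpa using congrArg Subtype.val huv)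
  · filter_upwards with n
    apply div_le_one_of_le₀ _ (Nat.cast_nonneg _)
    exact_mod_cast Nat.card_le_card_of_injective _ Subtype.val_injective


/-- the explicit exponent for a large number of generators -/
theorem large2 : ∃ (C : ℝ) (K : ℕ), 0 < C ∧ ∀ k : ℕ, K ≤ k →
    Tendsto (fun n : ℕ => (Nat.card {x : Fin k → Alt n // ∃ F : PW (Perm (Fin n)),
      Good F (tupW x) n ((n : ℝ) ^ (-(C * k / 2 ^ k)))} : ℝ) / Nat.card (Fin k → Alt n))
      atTop (𝓝 1) := by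
  obtain ⟨τ₁, γ₀, J, hτ₁, hγ₀, hdet⟩ := det2 f_BCD (e3u f_MOM0 f_MX f_E1 f_E2)
    (specu f_F1 f_F2 f_F3 f_IT f_MX) f_LT f_TOPZ f_SUBT f_NUM
  set A : ℝ := 21 + 5 / τ₁ ^ 2 with hA
  have hA0 : 21 ≤ A := by
    have : 0 < 5 / τ₁ ^ 2 := by positivity
    linarith
  -- numbers
  have hlim1 : Tendsto (fun k : ℕ => ((1 : ℝ) / 2) ^ k) atTop (𝓝 0) :=
    tendsto_pow_atTop_nhds_zero_of_lt_one (by norm_num) (by norm_num)
  have hlim2 : Tendsto (fun k : ℕ => (k : ℝ) * ((1 : ℝ) / 2) ^ k) atTop (𝓝 0) :=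
    tendsto_self_mul_const_pow_of_lt_one (by norm_num) (by norm_num)
  have hmin : 0 < min γ₀ (1 / 2) / (2 * A) := by
    have : 0 < min γ₀ (1 / 2) := lt_min hγ₀ (by norm_num)
    positivity
  obtain ⟨K₀, hK₀⟩ : ∃ K₀ : ℕ, ∀ j : ℕ, K₀ ≤ j → 2 ≤ j ∧ ((1 : ℝ) / 2) ^ j < 1 / 80 ∧
      (j : ℝ) * ((1 : ℝ) / 2) ^ j < min γ₀ (1 / 2) / (2 * A) := by
    have := ((eventually_ge_atTop 2).and ((hlim1.eventually_lt_const
      (show (0 : ℝ) < 1 / 80 by norm_num)).and (hlim2.eventually_lt_const hmin)))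
    exact eventually_atTop.1 this
  refine ⟨(2 * A + 15) * 2 ^ (J + 2), K₀ + 2 + J, by positivity, fun k hk => ?_⟩
  obtain ⟨j, hj, rfl⟩ : ∃ j : ℕ, K₀ ≤ j ∧ k = j + 2 + J + 0 := ⟨k - J - 2, by omega, by omega⟩
  obtain ⟨b1, b2, b3⟩ := hK₀ j hj
  set a : ℝ := ((1 : ℝ) / 2) ^ j with ha
  have ha0 : 0 < a := by rw [ha]; positivity
  have hj2 : (2 : ℝ) ≤ j := by exact_mod_cast b1
  set γ₁ : ℝ := A * (j + 2) * a with hγ₁
  have hγ₁0 : 0 < γ₁ := by rw [hγ₁]; positivity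
  have hγ₁1 : γ₁ ≤ min γ₀ (1 / 2) := by
    rw [lt_div_iff₀ (by positivity)] at b3
    rw [hγ₁]
    have h1 : A * (j + 2) * a ≤ A * (2 * j) * a := by gcongr; linarith
    nlinarith
  have hα3 : 1 - γ₁ / 20 < 1 - a := by
    have h1 : 20 * a < γ₁ := by
      rw [hγ₁]
      have : 21 * (1 : ℝ) ≤ A * (j + 2) := by
        apply mul_le_mul hA0 (by linarith) (by norm_num) (by linarith)
      nlinarith
    linarith
  have hα5 : 2 * (1 - (1 - a)) * Real.log (2 * ((j + 2 : ℕ) : ℝ) / τ₁) < τ₁ * γ₁ := by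
    have h1 : Real.log (2 * ((j + 2 : ℕ) : ℝ) / τ₁) ≤ 2 * ((j + 2 : ℕ) : ℝ) / τ₁ := by
      have := Real.log_le_sub_one_of_pos
        (show (0 : ℝ) < 2 * ((j + 2 : ℕ) : ℝ) / τ₁ by positivity)
      linarith
    have h2 : (1 - (1 - a)) = a := by ring
    rw [h2]
    calc 2 * a * Real.log (2 * ((j + 2 : ℕ) : ℝ) / τ₁) ≤
        2 * a * (2 * ((j + 2 : ℕ) : ℝ) / τ₁) := by gcongr
      _ = (4 / τ₁) * ((j + 2) * a) := by push_cast; field_simp; ring
      _ < (τ₁ * A) * ((j + 2) * a) := by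
        have h3 : 4 / τ₁ < τ₁ * A := by
          rw [hA, div_lt_iff₀ hτ₁]
          have h4 : τ₁ * (21 + 5 / τ₁ ^ 2) * τ₁ = 21 * τ₁ ^ 2 + 5 := by field_simp
          rw [h4]
          have : 0 < τ₁ ^ 2 := by positivity
          linarith
        have h5 : 0 < ((j : ℝ) + 2) * a := by positivity
        exact mul_lt_mul_of_pos_right h3 h5
      _ = τ₁ * γ₁ := by rw [hγ₁]; ring
  obtain ⟨ε₁, hε₁, hsu⟩ := Pool.Agent.Helper6.GP.small_uniform
    Pool.Agent.Helper6.GP.lzw_all (1 - a) (by linarith)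
  have heus := hsu (j + 2) (by omega) (by
    have h1 : j + 2 - 2 = j := by omega
    rw [h1, ha]
    have h2 : (2 : ℝ) / 3 / 2 ^ j = 2 / 3 * ((1 : ℝ) / 2) ^ j := by
      rw [one_div, inv_pow]; ring
    rw [h2]
    have : 0 < ((1 : ℝ) / 2) ^ j := by positivity
    linarith)
  have hfin : 2 * γ₁ + 7 * (2 * a) < (2 * A + 15) * 2 ^ (J + 2) *
      ((j + 2 + J + 0 : ℕ) : ℝ) / 2 ^ (j + 2 + J + 0) := by
    have h1 : (2 : ℝ) ^ (j + 2 + J + 0) = 2 ^ (J + 2) * 2 ^ j := by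
      rw [← pow_add]; congr 1; omega
    have h2 : a = 1 / 2 ^ j := by rw [ha, one_div, inv_pow]; ring
    have h3 : (2 * A + 15) * 2 ^ (J + 2) * ((j + 2 + J + 0 : ℕ) : ℝ) / 2 ^ (j + 2 + J + 0) =
        (2 * A + 15) * ((j + 2 + J + 0 : ℕ) : ℝ) * a := by
      rw [h1, h2]; field_simp
    rw [h3, hγ₁]
    push_cast
    have h4 : (0 : ℝ) ≤ J := Nat.cast_nonneg J
    nlinarith [mul_pos ha0 (show (0 : ℝ) < j + 2 by linarith), mul_nonneg ha0.le h4,
      mul_nonneg (mul_nonneg ha0.le h4) (show (0 : ℝ) ≤ A by linarith)]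
  have hd := hdet (j + 2) ((2 * A + 15) * 2 ^ (J + 2) *
    ((j + 2 + J + 0 : ℕ) : ℝ) / 2 ^ (j + 2 + J + 0)) γ₁ (2 * a) (1 - a) ε₁ (by omega)
    (by positivity) hγ₁0 (hγ₁1.trans (min_le_left _ _)) (hγ₁1.trans (min_le_right _ _))
    (by positivity) (by linarith) (by linarith) (by linarith) hα3 (by linarith) hα5 hfin hε₁ 0
  exact prob2 f_CHN (j + 2) J 0 (1 - a) ε₁ (2 * γ₁ + 7 * (2 * a)) _ (by omega) (by positivity)
    heus hd

/-- **the explicit form of the main theorem** -/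
theorem main_explicit : ∃ C : ℝ, 0 < C ∧ ∀ k : ℕ, 3 ≤ k →
    Tendsto (fun n : ℕ => (Nat.card {x : Fin k → Alt n // ∃ F : PW (Perm (Fin n)),
      Good F (tupW x) n ((n : ℝ) ^ (-(C * k / 2 ^ k)))} : ℝ) / Nat.card (Fin k → Alt n))
      atTop (𝓝 1) := by
  obtain ⟨C, K, hC, h⟩ := large2
  refine ⟨max C (2 * 2 ^ K), lt_max_of_lt_left hC, fun k hk => ?_⟩
  have key : ∀ g : ℝ, g ≤ max C (2 * 2 ^ K) * k / 2 ^ k →
      Tendsto (fun n : ℕ => (Nat.card {x : Fin k → Alt n // ∃ F : PW (Perm (Fin n)),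
        Good F (tupW x) n ((n : ℝ) ^ (-g))} : ℝ) / Nat.card (Fin k → Alt n)) atTop (𝓝 1) →
      Tendsto (fun n : ℕ => (Nat.card {x : Fin k → Alt n // ∃ F : PW (Perm (Fin n)),
        Good F (tupW x) n ((n : ℝ) ^ (-(max C (2 * 2 ^ K) * k / 2 ^ k)))} : ℝ) /
          Nat.card (Fin k → Alt n)) atTop (𝓝 1) := by
    intro g hg ht
    refine tendsto_of_tendsto_of_tendsto_of_le_of_le' ht tendsto_const_nhds ?_ ?_
    · filter_upwards [eventually_ge_atTop 1] with n hn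
      have hn1 : (1 : ℝ) ≤ n := by exact_mod_cast hn
      refine div_le_div_of_nonneg_right ?_ (Nat.cast_nonneg _)
      refine Nat.cast_le.2 (Nat.card_le_card_of_injective
        (fun x => ⟨x.1, ⟨x.2.choose, Pool.Agent.Helper6.GP.good_anti ?_ x.2.choose_spec⟩⟩) ?_)
      · exact Real.rpow_le_rpow_of_exponent_le hn1 (by linarith)
      · intro u v huv
        exact Subtype.ext (by simpa using congrArg Subtype.val huv)
    · filter_upwards with n
      apply div_le_one_of_le₀ _ (Nat.cast_nonneg _)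
      exact_mod_cast Nat.card_le_card_of_injective _ Subtype.val_injective
  rcases le_or_gt K k with hkK | hkK
  · refine key _ ?_ (h k hkK)
    gcongr
    exact le_max_left _ _
  · refine key (1 + 2 / 3 * (1 / 2 : ℝ) ^ (k - 3) + 1 / 3) ?_ ?_
    · have h1 : ((1 : ℝ) / 2) ^ (k - 3) ≤ 1 := pow_le_one₀ (by norm_num) (by norm_num)
      have h2 : (2 : ℝ) ^ k ≤ 2 ^ K := pow_le_pow_right₀ (by norm_num) hkK.le
      have h3 : (2 : ℝ) * 2 ^ K ≤ max C (2 * 2 ^ K) := le_max_right _ _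
      rw [le_div_iff₀ (by positivity)]
      have h4 : (3 : ℝ) ≤ k := by exact_mod_cast hk
      have h5 : (1 + 2 / 3 * (1 / 2 : ℝ) ^ (k - 3) + 1 / 3) ≤ 2 := by linarith
      calc (1 + 2 / 3 * (1 / 2 : ℝ) ^ (k - 3) + 1 / 3) * 2 ^ k ≤ 2 * 2 ^ K := by gcongr
        _ ≤ max C (2 * 2 ^ K) := h3
        _ ≤ max C (2 * 2 ^ K) * k := by
          have h6 : 0 ≤ max C (2 * 2 ^ K) := le_max_of_le_left hC.le
          nlinarith
    · refine tendsto_of_tendsto_of_tendsto_of_le_of_le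
        (Pool.Agent.Helper6.GP.gap_all Pool.Agent.Helper6.GP.fing k hk (1 / 3) (by norm_num))
        tendsto_const_nhds ?_ ?_
      · intro n
        refine div_le_div_of_nonneg_right ?_ (Nat.cast_nonneg _)
        refine Nat.cast_le.2 (Nat.card_le_card_of_injective
          (fun x => ⟨x.1, ⟨pwn n, x.2 (pwn n)⟩⟩) ?_)
        intro u v huv
        exact Subtype.ext (by simpa using congrArg Subtype.val huv)
      · intro n
        apply div_le_one_of_le₀ _ (Nat.cast_nonneg _)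
        exact Nat.cast_le.2 (Nat.card_le_card_of_injective Subtype.val Subtype.val_injective)

end Pool.Agent.Helper6.NX
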