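import Pool.Agent.Helper6.NX.Main
import Pool.Agent.Helper6.FixK.Rayleigh

/-! Project NX: from the gap in all representations to equidistribution. -/

set_option linter.unusedVariables false

namespace Pool.Agent.Helper6.NX

open Matrix Equiv Filter Topology Pool.Agent.Helper15.An
open scoped ComplexOrder

/-- a gap in all representations is a gap on all functions of sum zero -/
theorem gap_fun {n k : ℕ} (F : PW (Perm (Fin n))) (x : Fin k → Alt n) {g : ℝ}
    (h : Good F (tupW x) n g) (f : Alt n → ℝ) (hf : ∑ a, f a = 0) :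
    ∑ a, f a * Pool.Agent.Helper6.FixK.walk x f a ≤ (1 - g) * ∑ a, f a ^ 2 := by
  refine Pool.Agent.Helper6.FixK.groupGap_of_good F x n g h f hf fun a b hab => ?_
  have : a = 1 := by
    apply Subtype.ext
    ext i
    rw [hab i i.2]
    rfl
  rw [this, one_mul]

theorem log_card_le {n : ℕ} (hn : 2 ≤ n) :
    2 * Real.log (2 * Fintype.card (Alt n)) ≤ 2 * (n * Real.log n) := by
  have h0 : Nontrivial (Fin n) := Fin.nontrivial_iff_two_le.2 hn
  have h1 := two_mul_card_alternatingGroup (α := Fin n)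
  rw [Fintype.card_perm, Fintype.card_fin] at h1
  have h2 : (2 * Fintype.card (Alt n) : ℝ) = (n.factorial : ℝ) := by
    exact_mod_cast h1
  rw [h2]
  have h3 : (n.factorial : ℝ) ≤ (n : ℝ) ^ n := by exact_mod_cast Nat.factorial_le_pow n
  have h4 : Real.log (n.factorial : ℝ) ≤ n * Real.log n := by
    rw [← Real.log_pow]
    exact Real.log_le_log (by exact_mod_cast n.factorial_pos) h3
  linarith

theorem ev_mix (γ : ℝ) (hγ : 0 < γ) : ∀ᶠ n : ℕ in atTop, 2 ≤ n ∧
    ∀ t : ℕ, (n : ℝ) ^ (1 + γ) ≤ t →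
      2 * Real.log (2 * Fintype.card (Alt n)) ≤ (n : ℝ) ^ (-(γ / 2)) * t := by
  filter_upwards [ev_pow_log (a := 1) (b := 1 + γ / 2) (c := 1 / 2) (by linarith) (by norm_num),
    eventually_ge_atTop 2] with n h1 hn
  refine ⟨hn, fun t ht => ?_⟩
  have hn0 : (0 : ℝ) < n := by
    have : 0 < n := by omega
    exact_mod_cast this
  refine (log_card_le hn).trans ?_
  rw [Real.rpow_one] at h1
  calc 2 * (n * Real.log n) ≤ (n : ℝ) ^ (1 + γ / 2) := by linarith
    _ = (n : ℝ) ^ (-(γ / 2)) * (n : ℝ) ^ (1 + γ) := by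
        rw [← Real.rpow_add hn0]; congr 1; ring
    _ ≤ (n : ℝ) ^ (-(γ / 2)) * t := by
        have : 0 < (n : ℝ) ^ (-(γ / 2)) := Real.rpow_pos_of_pos hn0 _
        gcongr

end Pool.Agent.Helper6.NX
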